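import Pool.Agent.SPA.Targets

/-!
SPA: proof of the target FIN (helper88)
-/

set_option autoImplicit false

open Finset

namespace Pool.Agent.SPA

open Pool.Agent.TSP (Per rho)
open Pool.Agent.Tri5 (T_MER T_EXP)

namespace FIN_

theorem cnt_le_add (P Q R : ℕ → Prop) (x : ℕ) (h : ∀ k, k ≤ x → P k → Q k ∨ R k) :
    cnt P x ≤ cnt Q x + cnt R x := by
  classical
  unfold cnt
  have h1 : ((range (x + 1)).filter P).card ≤
      ((range (x + 1)).filter Q).card + ((range (x + 1)).filter R).card := by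
    refine le_trans (Finset.card_le_card ?_) (Finset.card_union_le _ _)
    intro k hk
    rw [Finset.mem_filter, Finset.mem_range] at hk
    rw [Finset.mem_union, Finset.mem_filter, Finset.mem_filter, Finset.mem_range]
    rcases h k (by omega) hk.2 with h2 | h2
    · exact Or.inl ⟨hk.1, h2⟩
    · exact Or.inr ⟨hk.1, h2⟩
  have h2 : ((((range (x + 1)).filter P).card : ℕ) : ℝ) ≤
      ((((range (x + 1)).filter Q).card + ((range (x + 1)).filter R).card : ℕ) : ℝ) := by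
    exact_mod_cast h1
  rw [Nat.cast_add] at h2
  convert h2

theorem cnt_mono (P Q : ℕ → Prop) (x : ℕ) (h : ∀ k, k ≤ x → P k → Q k) :
    cnt P x ≤ cnt Q x := by
  classical
  unfold cnt
  have h1 : ((range (x + 1)).filter P).card ≤ ((range (x + 1)).filter Q).card := by
    apply Finset.card_le_card
    intro k hk
    rw [Finset.mem_filter, Finset.mem_range] at hk
    rw [Finset.mem_filter, Finset.mem_range]
    exact ⟨hk.1, h k (by omega) hk.2⟩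
  have h2 : ((((range (x + 1)).filter P).card : ℕ) : ℝ) ≤
      ((((range (x + 1)).filter Q).card : ℕ) : ℝ) := by
    exact_mod_cast h1
  convert h2

theorem cnt_small (Y : ℝ) (hY : 0 ≤ Y) (x : ℕ) : cnt (fun k => (k : ℝ) < Y) x ≤ Y + 1 := by
  classical
  unfold cnt
  have h1 : ((range (x + 1)).filter fun k : ℕ => (k : ℝ) < Y).card ≤ ⌊Y⌋₊ + 1 := by
    rw [← Finset.card_range (⌊Y⌋₊ + 1)]
    apply Finset.card_le_card
    intro k hk
    rw [Finset.mem_filter] at hk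
    rw [Finset.mem_range]
    have : k ≤ ⌊Y⌋₊ := Nat.le_floor hk.2.le
    omega
  have h2 : ((((range (x + 1)).filter fun k : ℕ => (k : ℝ) < Y).card : ℕ) : ℝ) ≤
      ((⌊Y⌋₊ + 1 : ℕ) : ℝ) := by
    exact_mod_cast h1
  have h3 : ((⌊Y⌋₊ + 1 : ℕ) : ℝ) ≤ Y + 1 := by
    push_cast
    linarith [Nat.floor_le hY]
  refine le_trans ?_ (h2.trans h3)
  apply le_of_eq
  congr 2

theorem covered_of_not_opn (h2 : T_OPC) (L k : ℕ) (hL : 1 ≤ L) (h : ¬ Opn L k) : Covered k := by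
  refine ⟨(2 ^ L - 1).primeFactors, fun p hp => Nat.prime_of_mem_primeFactors hp, fun n hn => ?_⟩
  obtain ⟨p, hp, hd, hk⟩ := h2 L k hL h n hn
  refine ⟨p, ?_, hk⟩
  have h3 : 2 ≤ 2 ^ L := by
    calc 2 = 2 ^ 1 := rfl
      _ ≤ 2 ^ L := Nat.pow_le_pow_right (by norm_num) hL
  exact Nat.mem_primeFactors.2 ⟨hp, hd, by omega⟩

theorem small_of_not_opn (h2 : T_OPC) (L k : ℕ) (c : ℝ) (hc : 0 < c) (hL : 1 ≤ L)
    (h : ¬ Opn L k) (hk : NoSmall c k) : (k : ℝ) < ((2 : ℝ) ^ L) ^ (1 / c) := by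
  obtain ⟨n, hn, hn2⟩ := hk
  obtain ⟨p, hp, hd, hk⟩ := h2 L k hL h n hn
  have h3 := hn2 p hp hk
  have h4 : 2 ≤ 2 ^ L := by
    calc 2 = 2 ^ 1 := rfl
      _ ≤ 2 ^ L := Nat.pow_le_pow_right (by norm_num) hL
  have h5 : p ≤ 2 ^ L := (Nat.le_of_dvd (by omega) hd).trans (Nat.sub_le _ _)
  have h6 : (k : ℝ) ^ c < (2 : ℝ) ^ L := by
    refine lt_of_lt_of_le h3 ?_
    exact_mod_cast h5
  have h7 : (k : ℝ) = ((k : ℝ) ^ c) ^ (1 / c) := by
    rw [← Real.rpow_mul (Nat.cast_nonneg k), mul_one_div_cancel hc.ne', Real.rpow_one]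
  rw [h7]
  exact Real.rpow_lt_rpow (Real.rpow_nonneg (Nat.cast_nonneg k) _) h6 (by positivity)

theorem upper (h2 : T_OPC) (h3 : T_DEN) (K : ℝ)
    (hK : ∀ K' : ℝ, (∀ L : ℕ, 1 ≤ L → K' ≤ dens L) → K' ≤ K) (c : ℝ) (hc : 0 < c) (ε : ℝ)
    (hε : 0 < ε) : ∃ x0 : ℕ, ∀ x ≥ x0, cnt (fun k => Odd k ∧ NoSmall c k) x ≤ (K + ε) * x := by
  have h4 : ∃ L : ℕ, 1 ≤ L ∧ dens L < K + ε / 2 := by
    by_contra hcon
    push Not at hcon
    have := hK (K + ε / 2) hcon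
    linarith
  obtain ⟨L, hL, hd⟩ := h4
  set Y : ℝ := ((2 : ℝ) ^ L) ^ (1 / c) with hY
  have hY0 : 0 ≤ Y := by positivity
  obtain ⟨x0, hx0⟩ := exists_nat_ge (2 * (MM L + 1 + (Y + 1)) / ε)
  refine ⟨x0, fun x hx => ?_⟩
  have h5 : cnt (fun k => Odd k ∧ NoSmall c k) x ≤
      cnt (fun k => Odd k ∧ Opn L k) x + cnt (fun k => (k : ℝ) < Y) x := by
    apply cnt_le_add
    intro k _ hk
    by_cases ho : Opn L k
    · exact Or.inl ⟨hk.1, ho⟩
    · exact Or.inr (small_of_not_opn h2 L k c hc hL ho hk.2)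
  have h6 := cnt_small Y hY0 x
  have h7 := (abs_le.1 (h3 L hL x)).2
  have hx1 : (x0 : ℝ) ≤ x := by exact_mod_cast hx
  have h8 : 2 * (MM L + 1 + (Y + 1)) ≤ x * ε := by
    rw [← div_le_iff₀ hε]
    exact hx0.trans hx1
  have h9 : dens L * x ≤ (K + ε / 2) * x := mul_le_mul_of_nonneg_right hd.le (Nat.cast_nonneg x)
  nlinarith

theorem lower (h1 : T_MAIN) (h3 : T_DEN) (K : ℝ) (hK : ∀ L : ℕ, 1 ≤ L → K ≤ dens L)
    (ε : ℝ) (hε : 0 < ε) : ∃ c0 : ℝ, 0 < c0 ∧ ∀ c : ℝ, 0 < c → c ≤ c0 → ∃ x0 : ℕ, ∀ x ≥ x0,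
      (K - ε) * x ≤ cnt (fun k => Odd k ∧ NoSmall c k) x := by
  obtain ⟨L, r, c0, hL, hc0, x1, hx1⟩ := h1 (ε / 2) (by positivity)
  refine ⟨c0, hc0, fun c hc hcc => ?_⟩
  obtain ⟨x2, hx2⟩ := exists_nat_ge (2 * ((MM L : ℝ) + 1) / ε)
  refine ⟨max x1 x2, fun x hx => ?_⟩
  have hx3 := hx1 x (le_trans (le_max_left _ _) hx)
  have hx4 : (x2 : ℝ) ≤ x := by exact_mod_cast le_trans (le_max_right _ _) hx
  have h4 : cnt (fun k => Odd k ∧ Opn L k) x ≤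
      cnt (fun k => Odd k ∧ NoSmall c k) x +
        cnt (fun k => Odd k ∧ Opn L k ∧ ¬ AlmostPrime c0 r k) x := by
    apply cnt_le_add
    intro k _ hk
    by_cases ha : AlmostPrime c0 r k
    · left
      refine ⟨hk.1, ?_⟩
      obtain ⟨n, hn, _, hp⟩ := ha
      refine ⟨n, hn, fun p hpp hd => lt_of_le_of_lt ?_ (hp p hpp hd)⟩
      apply Real.rpow_le_rpow_of_exponent_le _ hcc
      exact_mod_cast hk.1.pos
    · exact Or.inr ⟨hk.1, hk.2, ha⟩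
  have h7 := (abs_le.1 (h3 L hL x)).1
  have h8 : 2 * ((MM L : ℝ) + 1) ≤ x * ε := by
    rw [← div_le_iff₀ hε]
    exact hx2.trans hx4
  have h9 : K * x ≤ dens L * x := mul_le_mul_of_nonneg_right (hK L hL) (Nat.cast_nonneg x)
  nlinarith

theorem noSmall_of_hasPrime (k : ℕ) (hk : Odd k) (h : HasPrime k) : NoSmall (1 / 2) k := by
  obtain ⟨n, hn, hp⟩ := h
  refine ⟨n, hn, fun p hpp hd => ?_⟩
  have h1 : p = k * 2 ^ n + 1 := (Nat.prime_dvd_prime_iff_eq hpp hp).1 hd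
  have hk1 : 1 ≤ k := hk.pos
  have h2 : k ≤ k * 2 ^ n := Nat.le_mul_of_pos_right k (by positivity)
  have h3 : (k : ℝ) ^ (1 / 2 : ℝ) ≤ (k : ℝ) ^ (1 : ℝ) := by
    apply Real.rpow_le_rpow_of_exponent_le _ (by norm_num)
    exact_mod_cast hk1
  rw [Real.rpow_one] at h3
  refine lt_of_le_of_lt h3 ?_
  exact_mod_cast (by omega : k < p)

end FIN_

open FIN_ in
theorem p_FIN (h1 : T_MAIN) (h2 : T_OPC) (h3 : T_DEN) : T_FIN := by
  refine ⟨fun ε hε => ?_, ?_⟩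
  · obtain ⟨L, r, c, hL, hc, x0, hx0⟩ := h1 ε hε
    refine ⟨c, r, hc, x0, fun x hx => le_trans (cnt_mono _ _ x ?_) (hx0 x hx)⟩
    intro k _ hk
    refine ⟨hk.1, ?_, hk.2.2⟩
    by_contra ho
    exact hk.2.1 (covered_of_not_opn h2 L k hL ho)
  · set S : Set ℝ := {d | ∃ L : ℕ, 1 ≤ L ∧ dens L = d} with hS
    have hne : S.Nonempty := ⟨dens 1, 1, le_rfl, rfl⟩
    have hbdd : BddBelow S := by
      refine ⟨0, ?_⟩
      rintro d ⟨L, _, rfl⟩
      unfold dens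
      positivity
    have hK1 : ∀ L : ℕ, 1 ≤ L → sInf S ≤ dens L := fun L hL => csInf_le hbdd ⟨L, hL, rfl⟩
    have hK2 : ∀ K' : ℝ, (∀ L : ℕ, 1 ≤ L → K' ≤ dens L) → K' ≤ sInf S := by
      intro K' hK'
      apply le_csInf hne
      rintro d ⟨L, hL, rfl⟩
      exact hK' L hL
    refine ⟨sInf S, hK1, hK2, fun ε hε => ?_, fun ε hε => ?_⟩
    · obtain ⟨c0, hc0, hlow⟩ := lower h1 h3 (sInf S) hK1 ε hε
      refine ⟨c0, hc0, fun c hc hcc => ?_⟩
      obtain ⟨x1, hx1⟩ := hlow c hc hcc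
      obtain ⟨x2, hx2⟩ := upper h2 h3 (sInf S) hK2 c hc ε hε
      refine ⟨max x1 x2, fun x hx => ?_⟩
      have a1 := hx1 x (le_trans (le_max_left _ _) hx)
      have a2 := hx2 x (le_trans (le_max_right _ _) hx)
      rw [abs_le]
      constructor <;> linarith
    · obtain ⟨x2, hx2⟩ := upper h2 h3 (sInf S) hK2 (1 / 2) (by norm_num) ε hε
      refine ⟨x2, fun x hx => le_trans (cnt_mono _ _ x ?_) (hx2 x hx)⟩
      intro k _ hk
      exact ⟨hk.1, noSmall_of_hasPrime k hk.1 hk.2⟩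

end Pool.Agent.SPA
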