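import Pool.Agent.SPA.Targets

/-!
SPA: the almost primes (MP_315051_nt)
-/

set_option autoImplicit false

open Finset

open Pool.Agent.TSP (Per rho)

open Pool.Agent.Tri5 (T_MER T_EXP)

namespace Pool.Agent.SPA

namespace GAP_

theorem large {L z a k t : ℕ} (ha : 1 ≤ a)
    (hco : Nat.Coprime (k * 2 ^ a + 1) (2 ^ L - 1)) (hg : Gd L z a k t) {p : ℕ}
    (hp : p.Prime) (hd : p ∣ k * 2 ^ (a + L * t) + 1) : z + 1 ≤ p := by
  by_contra hcon
  have hpz : p ≤ z := by omega
  have h2 : ¬ p ∣ 2 := by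
    intro h
    have e : k * 2 ^ (a + L * t) = 2 * (k * 2 ^ (a + L * t - 1)) := by
      obtain ⟨m, hm⟩ : ∃ m, a + L * t = m + 1 := ⟨a + L * t - 1, by omega⟩
      rw [hm, Nat.add_sub_cancel, pow_succ]
      ring
    have h' : p ∣ k * 2 ^ (a + L * t) := by
      rw [e]
      exact Dvd.dvd.mul_right h _
    have := (Nat.dvd_add_right h').mp hd
    exact hp.one_lt.ne' (Nat.dvd_one.mp this)
  have hL : ¬ p ∣ 2 ^ L - 1 := by
    intro h
    have h1 : 1 ≡ 2 ^ L [MOD p] := (Nat.modEq_iff_dvd' Nat.one_le_two_pow).mpr h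
    have h3 : k * 2 ^ a + 1 ≡ k * 2 ^ (a + L * t) + 1 [MOD p] := by
      apply Nat.ModEq.add_right
      apply Nat.ModEq.mul_left
      rw [pow_add, pow_mul]
      have := (h1.pow t).mul_left (2 ^ a)
      simpa using this
    have h4 : p ∣ k * 2 ^ a + 1 := (h3.dvd_iff (dvd_refl p)).mpr hd
    have h5 : p ∣ Nat.gcd (k * 2 ^ a + 1) (2 ^ L - 1) := Nat.dvd_gcd h4 h
    rw [hco] at h5
    exact hp.one_lt.ne' (Nat.dvd_one.mp h5)
  have hm : p ∈ PS L z := by
    unfold PS
    rw [Finset.mem_filter, Finset.mem_Icc]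
    exact ⟨⟨hp.one_lt.le, hpz⟩, hp, fun h => ((Nat.Prime.dvd_mul hp).mp h).elim h2 hL⟩
  exact hg p hm hd

end GAP_

/-- GAP. -/
theorem p_GAP : T_GAP := by
  intro L z a k t r c _ ha hk hz hco hg hc hr
  refine ⟨a + L * t, by omega, ?_, ?_⟩
  · set N := k * 2 ^ (a + L * t) + 1 with hN
    have hN0 : N ≠ 0 := by omega
    have h1 : (z + 1) ^ N.primeFactorsList.length ≤ N := by
      have := List.pow_card_le_prod N.primeFactorsList (z + 1) fun p hp =>
        GAP_.large ha hco hg (Nat.prime_of_mem_primeFactorsList hp)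
          (Nat.dvd_of_mem_primeFactorsList hp)
      rwa [Nat.prod_primeFactorsList hN0] at this
    have hk2 : 1 ≤ k * 2 ^ (a + L * t) := Nat.mul_pos hk (by positivity)
    have h2 : N ≤ 2 * k * 2 ^ (a + L * t) := by
      rw [hN, mul_assoc, two_mul]
      omega
    have h3 : ((z : ℝ) + 1) ^ N.primeFactorsList.length ≤ 2 * k * 2 ^ (a + L * t) := by
      exact_mod_cast h1.trans h2
    have hz1 : (1 : ℝ) ≤ z := by exact_mod_cast hz
    have hk1 : (1 : ℝ) ≤ k := by exact_mod_cast hk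
    have h4 := Real.log_le_log (by positivity) h3
    rw [Real.log_pow, Real.log_mul (by positivity) (by positivity), Real.log_pow] at h4
    push_cast at h4
    have h5 : (0 : ℝ) < Real.log (z + 1) := Real.log_pos (by linarith)
    have h6 : (N.primeFactorsList.length : ℝ) * Real.log (z + 1) ≤ r * Real.log (z + 1) :=
      h4.trans hr
    have h7 := le_of_mul_le_mul_right h6 h5
    exact_mod_cast h7
  · intro p hp hd
    have := GAP_.large ha hco hg hp hd
    have h1 : ((z : ℝ) + 1) ≤ p := by exact_mod_cast this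
    linarith

end Pool.Agent.SPA
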