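import Pool.Agent.SPA.Targets

/-!
SPA: target MAIN (MP_315051_nt)
-/

set_option autoImplicit false

open Finset

namespace Pool.Agent.SPA

open Pool.Agent.TSP (Per rho)
open Pool.Agent.Tri5 (T_MER T_EXP)

namespace MAIN_

theorem cop {L κ j a : ℕ} : Nat.Coprime ((κ + MM L * j) * 2 ^ a + 1) (2 ^ L - 1) ↔
    Nat.Coprime (κ * 2 ^ a + 1) (2 ^ L - 1) := by
  have h : (κ + MM L * j) * 2 ^ a + 1 = κ * 2 ^ a + 1 + (2 * j * 2 ^ a) * (2 ^ L - 1) := by
    unfold MM
    ring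
  rw [h, Nat.coprime_add_mul_right_left]

theorem MM_pos {L : ℕ} (hL : 1 ≤ L) : 1 ≤ MM L := by
  have h : 2 ^ 1 ≤ 2 ^ L := Nat.pow_le_pow_right (by norm_num) hL
  unfold MM
  omega

open Classical in
/-- The counting part. -/
theorem count {L z T Y x : ℕ} {P : ℕ → Prop} {δ : ℝ} (hL : 1 ≤ L) (a : ℕ → ℕ)
    (hY : Y = x / MM L + 1)
    (hP : ∀ κ < MM L, ∀ j, 1 ≤ j → κ + MM L * j ≤ x → P (κ + MM L * j) →
      ∀ t < T, ¬ Gd L z (a κ) (κ + MM L * j) t)
    (hc : ∀ κ, (((Ioc 0 Y).filter fun j => ∀ t < T, ¬ Gd L z (a κ) (κ + MM L * j) t).card : ℝ) ≤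
      δ * Y) :
    cnt P x ≤ MM L + MM L * (δ * Y) := by
  have hM := MM_pos hL
  have hsub : ((range (x + 1)).filter P) ⊆ range (MM L) ∪
      (range (MM L)).biUnion fun κ => ((Ioc 0 Y).filter fun j =>
        ∀ t < T, ¬ Gd L z (a κ) (κ + MM L * j) t).image fun j => κ + MM L * j := by
    intro k hk
    rw [mem_filter, mem_range] at hk
    obtain ⟨hk1, hk2⟩ := hk
    by_cases hkM : k < MM L
    · exact mem_union_left _ (mem_range.2 hkM)
    · apply mem_union_right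
      rw [mem_biUnion]
      have h1 : k % MM L + MM L * (k / MM L) = k := Nat.mod_add_div k (MM L)
      have h2 : 1 ≤ k / MM L := (Nat.one_le_div_iff hM).2 (by omega)
      have h3 : k / MM L ≤ x / MM L := Nat.div_le_div_right (by omega)
      refine ⟨k % MM L, mem_range.2 (Nat.mod_lt _ hM), ?_⟩
      rw [mem_image]
      refine ⟨k / MM L, ?_, h1⟩
      rw [mem_filter, mem_Ioc]
      refine ⟨⟨by omega, by omega⟩, ?_⟩
      refine hP _ (Nat.mod_lt _ hM) _ h2 (by omega) ?_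
      rw [h1]
      exact hk2
  have hcard : ((range (x + 1)).filter P).card ≤ MM L + ∑ κ ∈ range (MM L),
      ((Ioc 0 Y).filter fun j => ∀ t < T, ¬ Gd L z (a κ) (κ + MM L * j) t).card := by
    refine (card_le_card hsub).trans ((card_union_le _ _).trans ?_)
    rw [card_range]
    refine Nat.add_le_add_left (card_biUnion_le.trans (sum_le_sum fun κ _ => card_image_le)) _
  have hreal : (((range (x + 1)).filter P).card : ℝ) ≤ MM L + ∑ κ ∈ range (MM L), δ * Y := by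
    refine (Nat.cast_le.2 hcard).trans ?_
    rw [Nat.cast_add, Nat.cast_sum]
    have h5 : ∑ κ ∈ range (MM L), ((((Ioc 0 Y).filter fun j =>
        ∀ t < T, ¬ Gd L z (a κ) (κ + MM L * j) t).card : ℕ) : ℝ) ≤ ∑ κ ∈ range (MM L), δ * Y :=
      sum_le_sum fun κ _ => by
        have h6 := hc κ
        convert h6 using 3
    linarith
  rw [sum_const, card_range, nsmul_eq_mul] at hreal
  unfold cnt
  convert hreal using 3

theorem pow_le {s z x : ℕ} (hs : 1 ≤ s) (hz : (z : ℝ) ≤ (x : ℝ) ^ (((2 * s : ℕ) : ℝ)⁻¹)) :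
    z ^ (2 * s) ≤ x := by
  have h1 : (z : ℝ) ^ (2 * s) ≤ ((x : ℝ) ^ (((2 * s : ℕ) : ℝ)⁻¹)) ^ (2 * s) :=
    pow_le_pow_left₀ (Nat.cast_nonneg z) hz _
  rw [Real.rpow_inv_natCast_pow (Nat.cast_nonneg x) (by omega)] at h1
  exact_mod_cast h1

theorem le_root {s n x : ℕ} (hs : 1 ≤ s) (hx : n ^ (2 * s) ≤ x) :
    (n : ℝ) ≤ (x : ℝ) ^ (((2 * s : ℕ) : ℝ)⁻¹) := by
  have h1 : (n : ℝ) = ((n : ℝ) ^ (2 * s)) ^ (((2 * s : ℕ) : ℝ)⁻¹) :=
    (Real.pow_rpow_inv_natCast (Nat.cast_nonneg n) (by omega)).symm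
  rw [h1]
  apply Real.rpow_le_rpow (by positivity) (by exact_mod_cast hx) (by positivity)

theorem le_Y {s z x M : ℕ} (hM : 1 ≤ M) (hx : M ^ 2 ≤ x) (hz : z ^ (2 * s) ≤ x) :
    z ^ s ≤ x / M + 1 := by
  have h1 : z ^ (2 * s) = z ^ s * z ^ s := by
    rw [two_mul, pow_add]
  rw [h1] at hz
  have h2 : z ^ s * M ≤ x := by
    rcases le_total (z ^ s) M with h | h
    · nlinarith
    · nlinarith
  have h3 : z ^ s ≤ x / M := (Nat.le_div_iff_mul_le hM).2 h2
  omega

theorem one_le_log {x : ℕ} (hx : 3 ≤ x) : 1 ≤ Real.log x := by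
  rw [Real.le_log_iff_exp_le (by exact_mod_cast (by omega : 0 < x))]
  have h1 := Real.exp_one_lt_d9
  have h2 : (3 : ℝ) ≤ x := by exact_mod_cast hx
  linarith

theorem logs {L z k x t T a r : ℕ} {B C c D : ℝ} (hB : 0 < B) (hC : 0 < C) (hc : 0 < c)
    (hx : 1 ≤ Real.log x) (hk : 1 ≤ k) (hkx : k ≤ x) (ha : a ≤ L) (ht : t < T)
    (hz1 : 2 ≤ z) (hz2 : (z : ℝ) ≤ (x : ℝ) ^ c) (hz3 : (x : ℝ) ^ c < z + 1)
    (hT : T = ⌈B * C * Real.log z⌉₊) (hD : D = 2 + 2 * L + L * (B * C * c))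
    (hr : D / c ≤ r) :
    Real.log (2 * k) + (a + L * t) * Real.log 2 ≤ r * Real.log (z + 1) := by
  have hx0 : (0 : ℝ) < x := by exact_mod_cast (by omega : 0 < x)
  have hk0 : (0 : ℝ) < k := by exact_mod_cast (by omega : 0 < k)
  have hz0 : (0 : ℝ) < z := by exact_mod_cast (by omega : 0 < z)
  have hl2 : Real.log 2 ≤ 1 := by
    have := Real.log_two_lt_d9
    linarith
  have hl2' : 0 ≤ Real.log 2 := Real.log_nonneg (by norm_num)
  have h1 : Real.log (2 * k) ≤ Real.log 2 + Real.log x := by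
    rw [Real.log_mul (by norm_num) hk0.ne']
    have : Real.log k ≤ Real.log x := Real.log_le_log hk0 (by exact_mod_cast hkx)
    linarith
  have h2 : Real.log z ≤ c * Real.log x := by
    rw [← Real.log_rpow hx0]
    exact Real.log_le_log hz0 hz2
  have h3 : c * Real.log x ≤ Real.log (z + 1) := by
    rw [← Real.log_rpow hx0]
    exact Real.log_le_log (Real.rpow_pos_of_pos hx0 c) hz3.le
  have hlz : 0 ≤ Real.log z := Real.log_nonneg (by exact_mod_cast (by omega : 1 ≤ z))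
  have hBC : 0 < B * C := mul_pos hB hC
  have h4 : (T : ℝ) ≤ B * C * Real.log z + 1 := by
    rw [hT]
    exact (Nat.ceil_lt_add_one (mul_nonneg hBC.le hlz)).le
  have h5 : (T : ℝ) ≤ B * C * (c * Real.log x) + 1 := by
    have := mul_le_mul_of_nonneg_left h2 hBC.le
    linarith
  have hL0 : (0 : ℝ) ≤ L := Nat.cast_nonneg L
  have h6 : (a : ℝ) + L * t ≤ L + L * T := by
    have ha' : (a : ℝ) ≤ L := by exact_mod_cast ha
    have ht' : (t : ℝ) ≤ T := by exact_mod_cast ht.le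
    have := mul_le_mul_of_nonneg_left ht' hL0
    linarith
  have h7 : (L : ℝ) + L * T ≤ 2 * L + L * (B * C * c) * Real.log x := by
    have := mul_le_mul_of_nonneg_left h5 hL0
    linarith
  have h8 : ((a : ℝ) + L * t) * Real.log 2 ≤ 2 * L + L * (B * C * c) * Real.log x := by
    have h9 : 0 ≤ (a : ℝ) + L * t := by positivity
    calc ((a : ℝ) + L * t) * Real.log 2 ≤ ((a : ℝ) + L * t) * 1 :=
          mul_le_mul_of_nonneg_left hl2 h9
      _ ≤ _ := by linarith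
  have h10 : Real.log (2 * k) + (a + L * t) * Real.log 2 ≤ D * Real.log x := by
    rw [hD]
    have h11 : 2 * (L : ℝ) ≤ 2 * L * Real.log x := by
      have := mul_le_mul_of_nonneg_left hx (by positivity : (0 : ℝ) ≤ 2 * L)
      linarith
    nlinarith
  have h12 : D ≤ r * c := by
    rw [div_le_iff₀ hc] at hr
    exact hr
  calc Real.log (2 * k) + (a + L * t) * Real.log 2 ≤ D * Real.log x := h10
    _ ≤ r * c * Real.log x := mul_le_mul_of_nonneg_right h12 (by linarith)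
    _ = r * (c * Real.log x) := by ring
    _ ≤ r * Real.log (z + 1) := mul_le_mul_of_nonneg_left h3 (Nat.cast_nonneg r)

end MAIN_

open MAIN_ in
theorem p_MAIN (h1 : T_MOM) (h2 : T_VLO) (h3 : T_GAP) : T_MAIN := by
  classical
  intro ε hε
  obtain ⟨L, s, z0, B, hL, hs, hB, hmom⟩ := h1 (ε / 4) (by positivity)
  obtain ⟨C, hC, hV⟩ := h2
  have hM := MM_pos hL
  set c : ℝ := ((2 * s : ℕ) : ℝ)⁻¹ with hc_def
  have hc : 0 < c := by
    have : (0 : ℝ) < ((2 * s : ℕ) : ℝ) := by exact_mod_cast (by omega : 0 < 2 * s)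
    positivity
  set D : ℝ := 2 + 2 * L + L * (B * C * c) with hD
  set r : ℕ := ⌈D / c⌉₊ with hr
  refine ⟨L, r, c, hL, hc, max (max (MM L ^ 2) ((max z0 2) ^ (2 * s)))
    (max 3 ⌈(MM L + MM L * (ε / 4)) * (4 / ε)⌉₊), fun x hx => ?_⟩
  have hx1 : MM L ^ 2 ≤ x := le_trans (le_max_left _ _) (le_trans (le_max_left _ _) hx)
  have hx2 : (max z0 2) ^ (2 * s) ≤ x := le_trans (le_max_right _ _) (le_trans (le_max_left _ _) hx)
  have hx3 : 3 ≤ x := le_trans (le_max_left _ _) (le_trans (le_max_right _ _) hx)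
  have hx4 : ⌈(MM L + MM L * (ε / 4)) * (4 / ε)⌉₊ ≤ x :=
    le_trans (le_max_right _ _) (le_trans (le_max_right _ _) hx)
  have hlx := one_le_log hx3
  set z : ℕ := ⌊(x : ℝ) ^ c⌋₊ with hz
  have hz2 : (z : ℝ) ≤ (x : ℝ) ^ c := Nat.floor_le (by positivity)
  have hz3 : (x : ℝ) ^ c < z + 1 := Nat.lt_floor_add_one _
  have hz4 : max z0 2 ≤ z := Nat.le_floor (le_root hs hx2)
  have hz0 : z0 ≤ z := le_trans (le_max_left _ _) hz4
  have hz1 : 2 ≤ z := le_trans (le_max_right _ _) hz4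
  have hzs : z ^ s ≤ x / MM L + 1 := le_Y hM hx1 (pow_le hs hz2)
  set T : ℕ := ⌈B * C * Real.log z⌉₊ with hT
  have hlz : 0 < Real.log z := Real.log_pos (by exact_mod_cast (by omega : 1 < z))
  have hTV : B ≤ T * VV L z := by
    have hv := (hV z (PS L z) hz1 (by
      intro p hp
      unfold PS at hp
      rw [mem_filter, mem_Icc] at hp
      obtain ⟨⟨-, hp1⟩, hp2, hp3⟩ := hp
      refine ⟨hp2, ?_, hp1⟩
      have h4 : p ≠ 2 := fun h => hp3 (h ▸ Dvd.intro _ rfl)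
      have h5 := hp2.two_le
      omega)).1
    have h6 : B * C * Real.log z ≤ T := Nat.le_ceil _
    have h7 : 0 < C * Real.log z := mul_pos hC hlz
    calc B = (B * C * Real.log z) * (1 / (C * Real.log z)) := by
          field_simp
      _ ≤ T * (1 / (C * Real.log z)) := mul_le_mul_of_nonneg_right h6 (by positivity)
      _ ≤ T * VV L z := mul_le_mul_of_nonneg_left hv (Nat.cast_nonneg T)
  -- the choice of the exponents
  have hch : ∀ κ : ℕ, ∃ a : ℕ, Opn L κ → 1 ≤ a ∧ a ≤ L ∧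
      Nat.Coprime (κ * 2 ^ a + 1) (2 ^ L - 1) := by
    intro κ
    by_cases h : Opn L κ
    · obtain ⟨a, ha⟩ := h
      exact ⟨a, fun _ => ha⟩
    · exact ⟨0, fun h' => absurd h' h⟩
  choose a ha using hch
  have hcount := count (x := x) (Y := x / MM L + 1) (z := z) (T := T) (δ := ε / 4)
    (P := fun k => Odd k ∧ Opn L k ∧ ¬ AlmostPrime c r k) hL a rfl (by
      intro κ _ j hj hjx hPk t ht hG
      obtain ⟨-, hO, hA⟩ := hPk
      have hOκ : Opn L κ := by
        obtain ⟨b, hb1, hb2, hb3⟩ := hO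
        exact ⟨b, hb1, hb2, cop.1 hb3⟩
      obtain ⟨ha1, ha2, ha3⟩ := ha κ hOκ
      have hk1 : 1 ≤ κ + MM L * j := by
        have : 1 ≤ MM L * j := Nat.mul_pos hM hj
        omega
      apply hA
      refine h3 L z (a κ) (κ + MM L * j) t r c hL ha1 hk1 (by omega) (cop.2 ha3) hG ?_ ?_
      · refine lt_of_le_of_lt ?_ hz3
        exact Real.rpow_le_rpow (Nat.cast_nonneg _) (by exact_mod_cast hjx) hc.le
      · exact logs hB hC hc hlx hk1 hjx ha2 ht hz1 hz2 hz3 hT hD (Nat.le_ceil _))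
    (fun κ => by
      have h8 := hmom z (x / MM L + 1) T κ (a κ) hz0 hzs hTV
      convert h8 using 3)
  refine hcount.trans ?_
  have hMr : (0 : ℝ) < MM L := by exact_mod_cast hM
  have hY : (MM L : ℝ) * ((x / MM L + 1 : ℕ) : ℝ) ≤ x + MM L := by
    have h9 : MM L * (x / MM L) ≤ x := Nat.mul_div_le x (MM L)
    have h10 : MM L * (x / MM L + 1) ≤ x + MM L := by
      rw [mul_add, mul_one]
      omega
    exact_mod_cast h10
  have hx5 : (MM L + MM L * (ε / 4)) * (4 / ε) ≤ (x : ℝ) := by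
    refine (Nat.le_ceil _).trans ?_
    exact_mod_cast hx4
  have hx6 : (MM L : ℝ) + MM L * (ε / 4) ≤ ε / 4 * x := by
    have h11 := mul_le_mul_of_nonneg_left hx5 (by positivity : (0 : ℝ) ≤ ε / 4)
    have h12 : ε / 4 * (((MM L : ℝ) + MM L * (ε / 4)) * (4 / ε)) = MM L + MM L * (ε / 4) := by
      field_simp
    rw [h12] at h11
    exact h11
  have h13 : (MM L : ℝ) * (ε / 4 * ((x / MM L + 1 : ℕ) : ℝ)) ≤ ε / 4 * (x + MM L) := by
    have := mul_le_mul_of_nonneg_left hY (by positivity : (0 : ℝ) ≤ ε / 4)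
    linarith
  have hx7 : (0 : ℝ) ≤ x := Nat.cast_nonneg x
  have h14 : 0 ≤ ε * x := by positivity
  linarith

end Pool.Agent.SPA
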