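import Pool.Agent.SPA.Targets

/-!
SPA: the two final statements from the targets.
-/

set_option autoImplicit false

open Finset

namespace Pool.Agent.SPA

/-- `k` is covered by `P`: every `k * 2 ^ n + 1`, `n ≥ 1`, is divisible by an element of `P`. -/
def CoveredBy (P : Finset ℕ) (k : ℕ) : Prop := ∀ n : ℕ, 1 ≤ n → ∃ p ∈ P, p ∣ k * 2 ^ n + 1

theorem cnt_mono {P Q : ℕ → Prop} (h : ∀ k, P k → Q k) (x : ℕ) : cnt P x ≤ cnt Q x := by
  classical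
  unfold cnt
  exact_mod_cast card_le_card (fun k hk => by
    rw [mem_filter] at hk ⊢
    exact ⟨hk.1, h k hk.2⟩)

theorem cnt_eq (P : ℕ → Prop) (x : ℕ) : cnt P x = (({k : ℕ | k ≤ x ∧ P k}.ncard : ℕ) : ℝ) := by
  classical
  unfold cnt
  congr 1
  rw [← Set.ncard_coe_finset]
  congr 1
  ext k
  simp only [coe_filter, mem_range, Set.mem_setOf_eq, Order.lt_add_one_iff]

/-- a number not covered by the primes dividing `2 ^ L - 1` is open -/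
theorem opn_of_not (h2 : T_OPC) {L k : ℕ} (hL : 1 ≤ L)
    (h : ¬ CoveredBy (2 ^ L - 1).primeFactors k) : Opn L k := by
  by_contra hn
  apply h
  intro n hn1
  obtain ⟨p, hp, hd, hk⟩ := h2 L k hL hn n hn1
  refine ⟨p, Nat.mem_primeFactors.2 ⟨hp, hd, ?_⟩, hk⟩
  have : 2 ^ 1 ≤ 2 ^ L := Nat.pow_le_pow_right (by norm_num) hL
  omega

/-- an open number is not covered by primes dividing `2 (2 ^ L - 1)` -/
theorem not_of_opn {L k : ℕ} {P : Finset ℕ} (hP : ∀ p ∈ P, p.Prime ∧ p ∣ 2 * (2 ^ L - 1))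
    (h : Opn L k) : ¬ CoveredBy P k := by
  obtain ⟨a, ha, _, hc⟩ := h
  intro hcov
  obtain ⟨p, hpP, hpd⟩ := hcov a ha
  obtain ⟨hp, hd⟩ := hP p hpP
  have h2 : ¬ p ∣ 2 := by
    intro h2
    have h3 : p = 2 := (Nat.prime_dvd_prime_iff_eq hp Nat.prime_two).1 h2
    subst h3
    have h4 : 2 ∣ k * 2 ^ a := Dvd.dvd.mul_left (dvd_pow_self 2 (by omega)) k
    have h5 := (Nat.dvd_add_right h4).1 hpd
    omega
  have h6 : p ∣ 2 ^ L - 1 := by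
    rcases (Nat.Prime.dvd_mul hp).1 hd with h | h
    · exact absurd h h2
    · exact h
  have h7 := Nat.dvd_gcd hpd h6
  rw [hc] at h7
  exact hp.one_lt.ne' (Nat.dvd_one.1 h7)

/-- the modulus for a finite set of primes -/
theorem exists_L (P : Finset ℕ) (hP : ∀ p ∈ P, p.Prime) :
    ∃ L : ℕ, 1 ≤ L ∧ ∀ p ∈ P, p.Prime ∧ p ∣ 2 * (2 ^ L - 1) := by
  refine ⟨∏ p ∈ P, (p - 1), ?_, ?_⟩
  · exact Nat.one_le_iff_ne_zero.2 (prod_ne_zero_iff.2 (fun p hp => by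
      have := (hP p hp).two_le
      omega))
  · intro p hp
    refine ⟨hP p hp, ?_⟩
    rcases eq_or_ne p 2 with rfl | h2
    · exact dvd_mul_right _ _
    · apply Dvd.dvd.mul_left
      have hpp := Fact.mk (hP p hp)
      obtain ⟨m, hm⟩ := Finset.dvd_prod_of_mem (fun p => p - 1) hp
      have h3 : (2 : ZMod p) ≠ 0 := by
        intro h0
        have h4 : ((2 : ℕ) : ZMod p) = 0 := by exact_mod_cast h0
        rw [ZMod.natCast_eq_zero_iff] at h4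
        exact h2 ((Nat.prime_dvd_prime_iff_eq (hP p hp) Nat.prime_two).1 h4)
      rw [← ZMod.natCast_eq_zero_iff, Nat.cast_sub (Nat.one_le_pow _ _ (by norm_num))]
      push_cast
      rw [hm, pow_mul, ZMod.pow_card_sub_one_eq_one h3, one_pow, sub_self]

/-- The first statement. -/
def T_A : Prop := ∀ ε : ℝ, 0 < ε → ∃ (P : Finset ℕ) (c : ℝ) (r : ℕ), (∀ p ∈ P, p.Prime) ∧ 0 < c ∧
  ∃ x0 : ℕ, ∀ x ≥ x0, cnt (fun k => Odd k ∧ ¬ CoveredBy P k ∧ ¬ AlmostPrime c r k) x ≤ ε * x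

theorem p_A (h1 : T_MAIN) (h2 : T_OPC) : T_A := by
  intro ε hε
  obtain ⟨L, r, c, hL, hc, x0, hx⟩ := h1 ε hε
  refine ⟨(2 ^ L - 1).primeFactors, c, r, fun p hp => Nat.prime_of_mem_primeFactors hp, hc, x0,
    fun x hx0 => ?_⟩
  refine le_trans (cnt_mono ?_ x) (hx x hx0)
  rintro k ⟨ho, hk, ha⟩
  exact ⟨ho, opn_of_not h2 hL hk, ha⟩

/-- The second statement. -/
def T_B : Prop := ∃ K : ℝ, 0 < K ∧
  (∀ P : Finset ℕ, (∀ p ∈ P, p.Prime) → ∀ ε : ℝ, 0 < ε → ∃ x0 : ℕ, ∀ x ≥ x0,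
    (K - ε) * x ≤ cnt (fun k => Odd k ∧ ¬ CoveredBy P k) x) ∧
  (∀ ε : ℝ, 0 < ε → ∃ P : Finset ℕ, (∀ p ∈ P, p.Prime) ∧ ∃ x0 : ℕ, ∀ x ≥ x0,
    cnt (fun k => Odd k ∧ ¬ CoveredBy P k) x ≤ (K + ε) * x) ∧
  (∀ ε : ℝ, 0 < ε → ∃ c0 : ℝ, 0 < c0 ∧ ∀ c : ℝ, 0 < c → c ≤ c0 → ∃ x0 : ℕ, ∀ x ≥ x0,
    |cnt (fun k => Odd k ∧ NoSmall c k) x - K * x| ≤ ε * x) ∧
  ∀ ε : ℝ, 0 < ε → ∃ x0 : ℕ, ∀ x ≥ x0, cnt (fun k => Odd k ∧ HasPrime k) x ≤ (K + ε) * x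

theorem p_B (h1 : T_FIN) (h2 : T_OPC) (h3 : T_DEN) (h4 : T_POS) : T_B := by
  obtain ⟨_, K, hK1, hK2, hK3, hK4⟩ := h1
  obtain ⟨c, hc, hpos⟩ := h4
  refine ⟨K, lt_of_lt_of_le hc (hK2 c hpos), ?_, ?_, hK3, hK4⟩
  · intro P hP ε hε
    obtain ⟨L, hL, hPL⟩ := exists_L P hP
    refine ⟨⌈(MM L + 1 : ℝ) / ε⌉₊, fun x hx => ?_⟩
    have hxe : (MM L + 1 : ℝ) ≤ ε * x := by
      have h5 : (MM L + 1 : ℝ) / ε ≤ x := (Nat.le_ceil _).trans (by exact_mod_cast hx)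
      rw [div_le_iff₀ hε] at h5
      linarith
    have h6 := (abs_le.1 (h3 L hL x)).1
    have h7 : cnt (fun k => Odd k ∧ Opn L k) x ≤ cnt (fun k => Odd k ∧ ¬ CoveredBy P k) x :=
      cnt_mono (fun k hk => ⟨hk.1, not_of_opn hPL hk.2⟩) x
    have h8 : K * x ≤ dens L * x := mul_le_mul_of_nonneg_right (hK1 L hL) (by positivity)
    linarith
  · intro ε hε
    have h5 : ∃ L : ℕ, 1 ≤ L ∧ dens L ≤ K + ε / 2 := by
      by_contra hcon
      push Not at hcon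
      have := hK2 (K + ε / 2) (fun L hL => (hcon L hL).le)
      linarith
    obtain ⟨L, hL, hdL⟩ := h5
    refine ⟨(2 ^ L - 1).primeFactors, fun p hp => Nat.prime_of_mem_primeFactors hp,
      ⌈(MM L + 1 : ℝ) / (ε / 2)⌉₊, fun x hx => ?_⟩
    have hxe : (MM L + 1 : ℝ) ≤ ε / 2 * x := by
      have h5 : (MM L + 1 : ℝ) / (ε / 2) ≤ x := (Nat.le_ceil _).trans (by exact_mod_cast hx)
      rw [div_le_iff₀ (by positivity)] at h5
      linarith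
    have h6 := (abs_le.1 (h3 L hL x)).2
    have h7 : cnt (fun k => Odd k ∧ ¬ CoveredBy (2 ^ L - 1).primeFactors k) x ≤
        cnt (fun k => Odd k ∧ Opn L k) x :=
      cnt_mono (fun k hk => ⟨hk.1, opn_of_not h2 hL hk.2⟩) x
    have h8 : dens L * x ≤ (K + ε / 2) * x := mul_le_mul_of_nonneg_right hdL (by positivity)
    linarith

end Pool.Agent.SPA
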