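import Pool.Agent.SPA.Targets

set_option autoImplicit false

open Finset

open Pool.Agent.TSP (Per rho)

open Pool.Agent.Tri5 (T_MER T_EXP)

namespace Pool.Agent.SPA

namespace ALT_

/-- truncated alternating sum -/
noncomputable def WW (g : ℕ → ℝ) (P : Finset ℕ) (k : ℕ) : ℝ :=
  ∑ D ∈ P.powerset, (if D.card ≤ k then (-1 : ℝ) ^ D.card else 0) * ∏ l ∈ D, g l

theorem ww_ins (g : ℕ → ℝ) (P : Finset ℕ) (p : ℕ) (hp : p ∉ P) (k : ℕ) :
    WW g (insert p P) (k + 1) = WW g P (k + 1) - g p * WW g P k := by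
  unfold WW
  rw [Finset.sum_powerset_insert hp, sub_eq_add_neg, Finset.mul_sum, ← Finset.sum_neg_distrib]
  congr 1
  apply Finset.sum_congr rfl
  intro D hD
  have hpD : p ∉ D := fun h => hp (Finset.mem_powerset.mp hD h)
  rw [Finset.card_insert_of_notMem hpD, Finset.prod_insert hpD]
  by_cases h : D.card ≤ k
  · rw [if_pos h, if_pos (by omega)]
    ring
  · rw [if_neg h, if_neg (by omega)]
    ring

theorem ww_zero (g : ℕ → ℝ) (P : Finset ℕ) : WW g P 0 = 1 := by
  unfold WW
  rw [Finset.sum_eq_single ∅]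
  · simp
  · intro D _ hD
    have : ¬ D.card ≤ 0 := by
      intro h
      exact hD (Finset.card_eq_zero.mp (by omega))
    rw [if_neg this]
    ring
  · intro h
    exact absurd (Finset.empty_mem_powerset P) h

theorem ee_ins (g : ℕ → ℝ) (P : Finset ℕ) (p : ℕ) (hp : p ∉ P) (k : ℕ) :
    ee g (insert p P) (k + 1) = ee g P (k + 1) + g p * ee g P k := by
  unfold ee
  rw [Finset.sum_powerset_insert hp, Finset.mul_sum]
  congr 1
  apply Finset.sum_congr rfl
  intro D hD
  have hpD : p ∉ D := fun h => hp (Finset.mem_powerset.mp hD h)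
  rw [Finset.card_insert_of_notMem hpD, Finset.prod_insert hpD]
  by_cases h : D.card = k
  · rw [if_pos h, if_pos (by omega)]
    ring
  · rw [if_neg h, if_neg (by omega)]
    ring

theorem ee_zero (g : ℕ → ℝ) (P : Finset ℕ) : ee g P 0 = 1 := by
  unfold ee
  rw [Finset.sum_eq_single ∅]
  · simp
  · intro D _ hD
    have : ¬ D.card = 0 := fun h => hD (Finset.card_eq_zero.mp h)
    rw [if_neg this]
    ring
  · intro h
    exact absurd (Finset.empty_mem_powerset P) h

theorem ee_nonneg (g : ℕ → ℝ) (P : Finset ℕ) (h : ∀ l ∈ P, 0 ≤ g l) (k : ℕ) : 0 ≤ ee g P k := by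
  unfold ee
  apply Finset.sum_nonneg
  intro D hD
  apply mul_nonneg
  · split_ifs <;> norm_num
  · exact Finset.prod_nonneg fun l hl => h l (Finset.mem_powerset.mp hD hl)

theorem main (g : ℕ → ℝ) (P : Finset ℕ) : (∀ l ∈ P, 0 ≤ g l ∧ g l ≤ 1) → ∀ k : ℕ,
    0 ≤ (-1 : ℝ) ^ k * (WW g P k - ∏ l ∈ P, (1 - g l)) ∧
    (-1 : ℝ) ^ k * (WW g P k - ∏ l ∈ P, (1 - g l)) ≤ ee g P (k + 1) := by
  induction P using Finset.induction_on with
  | empty =>
    intro _ k
    have h1 : WW g ∅ k = 1 := by simp [WW]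
    have h2 : ee g ∅ (k + 1) = 0 := by simp [ee]
    rw [h1, h2]
    simp
  | insert p P hp ih =>
    intro h k
    have hP : ∀ l ∈ P, 0 ≤ g l ∧ g l ≤ 1 := fun l hl => h l (Finset.mem_insert_of_mem hl)
    have hgp := h p (Finset.mem_insert_self p P)
    have ih' := ih hP
    have hV0 : 0 ≤ ∏ l ∈ P, (1 - g l) :=
      Finset.prod_nonneg fun l hl => by linarith [(hP l hl).2]
    have hV1 : ∏ l ∈ P, (1 - g l) ≤ 1 :=
      Finset.prod_le_one (fun l hl => by linarith [(hP l hl).2])
        (fun l hl => by linarith [(hP l hl).1])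
    rw [Finset.prod_insert hp, ee_ins g P p hp]
    cases k with
    | zero =>
      have h0 := ih' 0
      rw [ww_zero] at h0 ⊢
      rw [ee_zero]
      simp only [pow_zero, one_mul] at h0 ⊢
      constructor
      · nlinarith [mul_nonneg hgp.1 hV0]
      · have : g p * ∏ l ∈ P, (1 - g l) ≤ g p * 1 := mul_le_mul_of_nonneg_left hV1 hgp.1
        nlinarith [h0.2]
    | succ k =>
      have hk := ih' k
      have hk1 := ih' (k + 1)
      rw [ww_ins g P p hp]
      have e : (-1 : ℝ) ^ (k + 1) * (WW g P (k + 1) - g p * WW g P k -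
          (1 - g p) * ∏ l ∈ P, (1 - g l)) =
          (-1 : ℝ) ^ (k + 1) * (WW g P (k + 1) - ∏ l ∈ P, (1 - g l)) +
          g p * ((-1 : ℝ) ^ k * (WW g P k - ∏ l ∈ P, (1 - g l))) := by
        rw [pow_succ]
        ring
      rw [e]
      constructor
      · exact add_nonneg hk1.1 (mul_nonneg hgp.1 hk.1)
      · exact add_le_add hk1.2 (mul_le_mul_of_nonneg_left hk.2 hgp.1)

end ALT_

theorem p_ALT : T_ALT := by
  intro g P m h
  have hm := ALT_.main g P h (2 * m)
  have e1 : (-1 : ℝ) ^ (2 * m) = 1 := by rw [pow_mul]; norm_num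
  have e2 : ALT_.WW g P (2 * m) = UU g P m := rfl
  rw [e1, e2] at hm
  constructor
  · linarith [hm.1]
  · linarith [hm.2]

end Pool.Agent.SPA
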