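import Pool.Agent.SPA.Targets

/-!
BG1: the Romanoff series of `2` is bounded.
-/

set_option autoImplicit false

open Finset
open Pool.Agent.TSP (Per rho)
open Pool.Agent.Tri5 (T_MER T_EXP)

namespace Pool.Agent.SPA

namespace BG1_

theorem isUnit_two (d : ℕ) (h2 : d.Coprime 2) : IsUnit (2 : ZMod d) := by
  have := (ZMod.isUnit_iff_coprime 2 d).2 h2.symm
  exact_mod_cast this

theorem od_pos (L d : ℕ) (hd : d ≠ 0) (h2 : d.Coprime 2) : 1 ≤ od L d := by
  have : NeZero d := ⟨hd⟩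
  obtain ⟨u, hu⟩ := isUnit_two d h2
  unfold od
  rw [← hu, ← Units.val_pow_eq_pow_val, orderOf_units]
  exact orderOf_pos _

/-- The order modulo a multiple, of the first power, is at least the order of a power modulo a
divisor. -/
theorem od_le (L e d : ℕ) (hd : d ≠ 0) (h2 : d.Coprime 2) (hed : e ∣ d) :
    od L e ≤ od 1 d := by
  apply Nat.le_of_dvd (od_pos 1 d hd h2)
  unfold od
  rw [orderOf_dvd_iff_pow_eq_one, pow_one, ← pow_mul, mul_comm, pow_mul]
  have h1 : ((2 : ZMod d)) ^ orderOf (2 : ZMod d) = 1 := pow_orderOf_eq_one _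
  have h3 := congrArg (ZMod.castHom hed (ZMod e)) h1
  rw [map_pow, map_one, map_ofNat] at h3
  rw [h3, one_pow]

theorem od_one (L : ℕ) : od L 1 = 1 := by
  unfold od
  rw [orderOf_eq_one_iff]
  exact Subsingleton.elim _ _

/-- The term of the series. -/
noncomputable def ff (L d : ℕ) : ℝ := (1 : ℝ) / (Nat.totient d * od L d)

theorem ff_nonneg (L d : ℕ) : 0 ≤ ff L d := by
  unfold ff
  positivity

theorem ff_one (L : ℕ) : ff L 1 = 1 := by
  unfold ff
  rw [od_one, Nat.totient_one]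
  norm_num

/-- The term of a product of coprime numbers. -/
theorem ff_le (L a b : ℕ) (ha : a ≠ 0) (hb : b ≠ 0) (hab : a.Coprime b)
    (h2 : (a * b).Coprime 2) : ff 1 (a * b) ≤ ff L b := by
  unfold ff
  have h3 : 1 ≤ Nat.totient a := Nat.totient_pos.2 (Nat.pos_of_ne_zero ha)
  have h4 : 1 ≤ Nat.totient b := Nat.totient_pos.2 (Nat.pos_of_ne_zero hb)
  have h5 : od L b ≤ od 1 (a * b) := od_le L b (a * b) (mul_ne_zero ha hb) h2 (dvd_mul_left _ _)
  have h6 : 1 ≤ od L b := od_pos L b hb (Nat.Coprime.coprime_dvd_left (dvd_mul_left _ _) h2)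
  apply one_div_le_one_div_of_le
  · have : 0 < b.totient * od L b := Nat.mul_pos h4 h6
    exact_mod_cast this
  · rw [Nat.totient_mul hab]
    have : b.totient * od L b ≤ (a.totient * b.totient) * od 1 (a * b) :=
      Nat.mul_le_mul (Nat.le_mul_of_pos_left _ h3) h5
    exact_mod_cast this

/-- The sum over the divisors of a product of coprime numbers. -/
theorem sum_le (L A B : ℕ) (hA : A ≠ 0) (hB : B ≠ 0) (hAB : A.Coprime B)
    (h2 : (A * B).Coprime 2) :
    ∑ d ∈ (A * B).divisors, ff 1 d ≤ A * ∑ d ∈ B.divisors, ff L d := by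
  have e1 : (A * B).divisors = (A.divisors ×ˢ B.divisors).image (fun x => x.1 * x.2) := by
    rw [Nat.divisors_mul]
    exact Finset.mul_def
  rw [e1]
  refine (Finset.sum_image_le_of_nonneg (f := ff 1) (fun u _ => ff_nonneg 1 u)).trans ?_
  rw [Finset.sum_product]
  have h3 : ∀ a ∈ A.divisors, ∑ b ∈ B.divisors, ff 1 (a * b) ≤ ∑ b ∈ B.divisors, ff L b := by
    intro a ha
    apply Finset.sum_le_sum
    intro b hb
    have ha' := Nat.dvd_of_mem_divisors ha
    have hb' := Nat.dvd_of_mem_divisors hb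
    exact ff_le L a b (fun h => hA (by rw [h] at ha'; exact Nat.eq_zero_of_zero_dvd ha'))
      (fun h => hB (by rw [h] at hb'; exact Nat.eq_zero_of_zero_dvd hb'))
      (Nat.Coprime.coprime_dvd_left ha' (Nat.Coprime.coprime_dvd_right hb' hAB))
      (Nat.Coprime.coprime_dvd_left (mul_dvd_mul ha' hb') h2)
  refine (Finset.sum_le_sum h3).trans ?_
  rw [Finset.sum_const, nsmul_eq_mul]
  apply mul_le_mul_of_nonneg_right _ (Finset.sum_nonneg (fun d _ => ff_nonneg L d))
  exact_mod_cast Nat.card_divisors_le_self A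

end BG1_

open BG1_ in
theorem p_BG1 (h : T_GSM) : T_BG1 := by
  obtain ⟨L, hL, -, hBG⟩ := h 1 one_pos
  refine ⟨2 * 2 ^ L, by positivity, ?_⟩
  intro S hS
  have hp : ∀ p ∈ S, p.Prime := fun p hp => (hS p hp).1
  have hodd : ∀ p ∈ S, p.Coprime 2 := by
    intro p hpS
    rw [Nat.coprime_primes (hp p hpS) Nat.prime_two]
    rintro rfl
    exact (hS _ hpS).2 (dvd_mul_right _ _)
  set S1 := S.filter (fun p => p ∣ 2 ^ L - 1) with hS1
  set S2 := S.filter (fun p => ¬ p ∣ 2 ^ L - 1) with hS2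
  set A := ∏ p ∈ S1, p with hA
  set B := ∏ p ∈ S2, p with hB
  have hAB : ∏ p ∈ S, p = A * B := (Finset.prod_filter_mul_prod_filter_not S _ _).symm
  have hA0 : A ≠ 0 := prod_ne_zero_iff.2 (fun p hq => (hp p (mem_filter.1 hq).1).ne_zero)
  have hB0 : B ≠ 0 := prod_ne_zero_iff.2 (fun p hq => (hp p (mem_filter.1 hq).1).ne_zero)
  have hcop : A.Coprime B := by
    apply Nat.Coprime.prod_left
    intro p hpS
    apply Nat.Coprime.prod_right
    intro q hqS
    rw [mem_filter] at hpS hqS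
    rw [Nat.coprime_primes (hp p hpS.1) (hp q hqS.1)]
    rintro rfl
    exact hqS.2 hpS.2
  have hcop2 : (A * B).Coprime 2 := by
    rw [← hAB]
    exact Nat.Coprime.prod_left hodd
  have hA1 : A ≤ 2 ^ L := by
    have h1 : A ∣ 2 ^ L - 1 :=
      Finset.prod_primes_dvd _ (fun p hq => (hp p (mem_filter.1 hq).1).prime)
        (fun p hq => (mem_filter.1 hq).2)
    have h2 : 2 ≤ 2 ^ L := by
      calc 2 = 2 ^ 1 := rfl
        _ ≤ 2 ^ L := Nat.pow_le_pow_right (by norm_num) hL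
    exact (Nat.le_of_dvd (by omega) h1).trans (Nat.sub_le _ _)
  have e1 : GS 1 S ≤ ∑ d ∈ (A * B).divisors, ff 1 d := by
    unfold GS
    rw [hAB]
    exact Finset.sum_le_sum_of_subset_of_nonneg (Finset.erase_subset _ _)
      (fun d _ _ => ff_nonneg 1 d)
  have e2 : ∑ d ∈ B.divisors, ff L d = 1 + GS L S2 := by
    rw [← Finset.add_sum_erase _ _ (Nat.mem_divisors.2 ⟨one_dvd _, hB0⟩), ff_one]
    rfl
  have e3 : GS L S2 ≤ 1 := by
    apply hBG S2
    intro p hq
    rw [hS2, mem_filter] at hq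
    refine ⟨hp p hq.1, ?_⟩
    intro hd
    rcases (hp p hq.1).dvd_mul.1 hd with h1 | h1
    · have := (hodd p hq.1)
      rw [Nat.coprime_primes (hp p hq.1) Nat.prime_two] at this
      exact this ((Nat.prime_dvd_prime_iff_eq (hp p hq.1) Nat.prime_two).1 h1)
    · exact hq.2 h1
  have e4 := sum_le L A B hA0 hB0 hcop hcop2
  rw [e2] at e4
  have hA2 : (A : ℝ) ≤ 2 ^ L := by exact_mod_cast hA1
  have hA3 : (0 : ℝ) ≤ A := Nat.cast_nonneg _
  calc GS 1 S ≤ A * (1 + GS L S2) := e1.trans e4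
    _ ≤ A * 2 := mul_le_mul_of_nonneg_left (by linarith) hA3
    _ ≤ 2 ^ L * 2 := mul_le_mul_of_nonneg_right hA2 (by norm_num)
    _ = 2 * 2 ^ L := by ring

end Pool.Agent.SPA
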