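import Pool.Agent.SPA.Targets

/-!
BLK: the blocks of primes.
-/

set_option autoImplicit false

open Finset
open Pool.Agent.TSP (Per rho)
open Pool.Agent.Tri5 (T_MER T_EXP)

namespace Pool.Agent.SPA

namespace BLK_

theorem yy_zero (z : ℕ) : yy z 0 = z := by
  unfold yy
  simp

theorem yy_sq (z i : ℕ) : yy z (i + 1) ^ 2 = yy z i := by
  unfold yy
  rw [← Real.rpow_natCast, ← Real.rpow_mul (Nat.cast_nonneg z)]
  congr 1
  rw [pow_succ]
  push_cast
  ring

theorem one_le_yy (z i : ℕ) (hz : 1 ≤ z) : 1 ≤ yy z i := by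
  unfold yy
  apply Real.one_le_rpow
  · exact_mod_cast hz
  · positivity

theorem yy_succ_le (z i : ℕ) (hz : 1 ≤ z) : yy z (i + 1) ≤ yy z i := by
  rw [← yy_sq z i]
  have h := one_le_yy z (i + 1) hz
  nlinarith

theorem yy_anti (z : ℕ) (hz : 1 ≤ z) : Antitone (yy z) :=
  antitone_nat_of_succ_le fun i => yy_succ_le z i hz

theorem yy_pow (z i : ℕ) : yy z i ^ (2 ^ i) = z := by
  induction i with
  | zero => simp [yy_zero]
  | succ i ih =>
    rw [pow_succ, mul_comm, pow_mul, yy_sq, ih]

theorem yy_self_le (z : ℕ) : yy z z ≤ 2 := by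
  by_contra h
  push Not at h
  have h1 : (2 : ℝ) ^ (2 ^ z) ≤ yy z z ^ (2 ^ z) := pow_le_pow_left₀ (by norm_num) h.le _
  rw [yy_pow] at h1
  have h2 : z < 2 ^ z := Nat.lt_two_pow_self
  have h3 : 2 ^ z < 2 ^ (2 ^ z) := Nat.lt_two_pow_self
  have h4 : (2 : ℝ) ^ (2 ^ z) = ((2 ^ (2 ^ z) : ℕ) : ℝ) := by push_cast; rfl
  rw [h4] at h1
  have h5 : 2 ^ (2 ^ z) ≤ z := by exact_mod_cast h1
  omega

theorem sum_le_prod {ι : Type*} (S : Finset ι) (a : ι → ℝ) (ha : ∀ i ∈ S, 0 ≤ a i) :
    1 + ∑ i ∈ S, a i ≤ ∏ i ∈ S, (1 + a i) := by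
  classical
  induction S using Finset.induction_on with
  | empty => simp
  | insert i S hi ih =>
    rw [sum_insert hi, prod_insert hi]
    have h1 := ih fun j hj => ha j (mem_insert_of_mem hj)
    have h2 := ha i (mem_insert_self i S)
    have h3 : 0 ≤ ∑ j ∈ S, a j := sum_nonneg fun j hj => ha j (mem_insert_of_mem hj)
    nlinarith

end BLK_

open BLK_

theorem p_BLK (h : T_MER) : T_BLK := by
  obtain ⟨C, hC, hM⟩ := h
  refine ⟨4 * C, by positivity, ?_⟩
  intro z P hz hP
  have hz1 : 1 ≤ z := by omega
  refine ⟨?_, ?_, ?_⟩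
  · ext p
    simp only [mem_biUnion, mem_range, Bk, mem_filter]
    constructor
    · rintro ⟨i, _, hp, _⟩
      exact hp
    · intro hp
      obtain ⟨hpp, h7, hpz⟩ := hP p hp
      classical
      have hex : ∃ j, yy z j < p := by
        refine ⟨z, lt_of_le_of_lt (yy_self_le z) ?_⟩
        have : (7 : ℝ) ≤ p := by exact_mod_cast h7
        linarith
      have hj := Nat.find_spec hex
      have hj0 : Nat.find hex ≠ 0 := by
        intro h0
        rw [h0, yy_zero] at hj
        have : z < p := by exact_mod_cast hj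
        omega
      have hjz : Nat.find hex ≤ z := by
        apply Nat.find_min'
        refine lt_of_le_of_lt (yy_self_le z) ?_
        have : (7 : ℝ) ≤ p := by exact_mod_cast h7
        linarith
      obtain ⟨i, hi⟩ := Nat.exists_eq_succ_of_ne_zero hj0
      refine ⟨i, by omega, hp, ?_, ?_⟩
      · rw [hi] at hj
        exact hj
      · have := Nat.find_min hex (m := i) (by omega)
        exact not_lt.1 this
  · have key : ∀ i j, i < j → Disjoint (Bk P z i) (Bk P z j) := by
      intro i j hij
      rw [disjoint_left]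
      intro p hp hq
      simp only [Bk, mem_filter] at hp hq
      have h1 := yy_anti z hz1 (show i + 1 ≤ j by omega)
      linarith [hp.2.1, hq.2.2]
    intro i j hij
    rcases lt_or_gt_of_ne hij with h1 | h1
    · exact key i j h1
    · exact (key j i h1).symm
  · intro i
    have hcard : (Bk P z i).card ≤ ⌊yy z i⌋₊ := by
      have h1 : Bk P z i ⊆ Icc 1 ⌊yy z i⌋₊ := by
        intro p hp
        simp only [Bk, mem_filter] at hp
        rw [mem_Icc]
        refine ⟨(hP p hp.1).1.one_lt.le, Nat.le_floor hp.2.2⟩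
      have h2 := card_le_card h1
      rw [Nat.card_Icc] at h2
      omega
    have hy1 := one_le_yy z i hz1
    refine ⟨hy1, ?_, ?_, ?_⟩
    · rintro ⟨p, hp⟩
      simp only [Bk, mem_filter] at hp
      have h7 : (7 : ℝ) ≤ p := by exact_mod_cast (hP p hp.1).2.1
      linarith [hp.2.2]
    · calc ((Bk P z i).card : ℝ) ≤ ⌊yy z i⌋₊ := by exact_mod_cast hcard
        _ ≤ yy z i := Nat.floor_le (by linarith)
    · rcases (Bk P z i).eq_empty_or_nonempty with he | hne
      · rw [he, sum_empty]
        positivity
      · obtain ⟨p0, hp0⟩ := hne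
        have hp0' := hp0
        simp only [Bk, mem_filter] at hp0'
        have h7 : (7 : ℝ) ≤ p0 := by exact_mod_cast (hP p0 hp0'.1).2.1
        have hY : 7 ≤ yy z i := by linarith [hp0'.2.2]
        set y := yy z (i + 1) with hy
        have hsq : y ^ 2 = yy z i := yy_sq z i
        have hy1' : 1 ≤ y := one_le_yy z (i + 1) hz1
        have hy2 : 2 < y := by nlinarith
        set k := ⌊y⌋₊ with hk
        set n := ⌊yy z i⌋₊ with hn
        have hk2 : 2 ≤ k := Nat.le_floor (by exact_mod_cast hy2.le)
        have hky : (k : ℝ) ≤ y := Nat.floor_le (by linarith)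
        have hyk : y < k + 1 := Nat.lt_floor_add_one y
        have hkn : k ≤ n := Nat.floor_le_floor (yy_succ_le z i hz1)
        have hprod := hM k n (Bk P z i) hk2 hkn hcard (by
          intro p hp
          simp only [Bk, mem_filter] at hp
          refine ⟨(hP p hp.1).1, ?_⟩
          have : (k : ℝ) < p := lt_of_le_of_lt hky hp.2.1
          exact_mod_cast this)
        have hsum : ∑ p ∈ Bk P z i, 1 / (p : ℝ) ≤
            ∏ p ∈ Bk P z i, (1 + 1 / ((p : ℝ) - 1)) := by
          have h1 : ∑ p ∈ Bk P z i, 1 / (p : ℝ) ≤ ∑ p ∈ Bk P z i, 1 / ((p : ℝ) - 1) := by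
            apply sum_le_sum
            intro p hp
            simp only [Bk, mem_filter] at hp
            have h7' : (7 : ℝ) ≤ p := by exact_mod_cast (hP p hp.1).2.1
            apply one_div_le_one_div_of_le <;> linarith
          have h2 := sum_le_prod (Bk P z i) (fun p => 1 / ((p : ℝ) - 1)) (by
            intro p hp
            simp only [Bk, mem_filter] at hp
            have h7' : (7 : ℝ) ≤ p := by exact_mod_cast (hP p hp.1).2.1
            apply one_div_nonneg.2
            linarith)
          linarith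
        have hk2' : (2 : ℝ) ≤ k := by exact_mod_cast hk2
        have hlogk : 0 < Real.log k := Real.log_pos (by linarith)
        have hn0 : (0 : ℝ) < n := by
          have : 0 < n := by omega
          exact_mod_cast this
        have hlog1 : Real.log n ≤ 2 * Real.log y := by
          have h1 : (n : ℝ) ≤ y ^ 2 := by
            rw [hsq]
            exact Nat.floor_le (by linarith)
          have h2 := Real.log_le_log hn0 h1
          rw [Real.log_pow] at h2
          exact_mod_cast h2
        have hlog2 : Real.log y ≤ 2 * Real.log k := by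
          have h1 : y ≤ (k : ℝ) ^ 2 := by nlinarith
          have h2 := Real.log_le_log (by linarith) h1
          rw [Real.log_pow] at h2
          exact_mod_cast h2
        calc ∑ p ∈ Bk P z i, 1 / (p : ℝ) ≤ ∏ p ∈ Bk P z i, (1 + 1 / ((p : ℝ) - 1)) := hsum
          _ ≤ C * Real.log n / Real.log k := hprod
          _ ≤ 4 * C := by
            rw [div_le_iff₀ hlogk]
            nlinarith

end Pool.Agent.SPA
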