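import Pool.Agent.SPA.Targets

set_option autoImplicit false

open Finset

open Pool.Agent.TSP (Per rho)
open Pool.Agent.Tri5 (T_MER T_EXP)

namespace Pool.Agent.SPA

namespace DEN_

theorem count_mul (P : ℕ → Prop) [DecidablePred P] (M : ℕ) (hP : ∀ k, P (k + M) ↔ P k) (q : ℕ) :
    Nat.count P (M * q) = q * Nat.count P M := by
  have hq : ∀ q k, P (M * q + k) ↔ P k := by
    intro q
    induction q with
    | zero => intro k; simp
    | succ q ih =>
      intro k
      rw [show M * (q + 1) + k = (M * q + k) + M by ring, hP, ih]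
  induction q with
  | zero => simp
  | succ q ih =>
    rw [Nat.mul_succ, Nat.count_add, ih]
    have : Nat.count (fun k => P (M * q + k)) M = Nat.count P M := by
      congr 1
      ext k
      exact hq q k
    rw [this]
    ring

theorem count_split (P : ℕ → Prop) [DecidablePred P] (M : ℕ) (hP : ∀ k, P (k + M) ↔ P k)
    (N : ℕ) : ∃ e : ℕ, e ≤ N % M ∧
      ((range N).filter P).card = (N / M) * ((range M).filter P).card + e := by
  refine ⟨Nat.count (fun k => P (M * (N / M) + k)) (N % M), Nat.count_le _, ?_⟩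
  rw [← Nat.count_eq_card_filter_range, ← Nat.count_eq_card_filter_range]
  conv_lhs => rw [← Nat.div_add_mod N M, Nat.count_add, count_mul P M hP]

theorem opn_iff (L k j : ℕ) (h : j ≡ k [MOD 2 ^ L - 1]) : Opn L j ↔ Opn L k := by
  unfold Opn
  have key : ∀ a : ℕ, Nat.Coprime (j * 2 ^ a + 1) (2 ^ L - 1) ↔
      Nat.Coprime (k * 2 ^ a + 1) (2 ^ L - 1) := by
    intro a
    have h1 : j * 2 ^ a + 1 ≡ k * 2 ^ a + 1 [MOD 2 ^ L - 1] :=
      (h.mul_right _).add_right 1
    have h2 := h1.gcd_eq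
    unfold Nat.Coprime
    rw [h2]
  simp only [key]

theorem per (L : ℕ) (k : ℕ) : (Odd (k + MM L) ∧ Opn L (k + MM L)) ↔ (Odd k ∧ Opn L k) := by
  have h1 : Odd (k + MM L) ↔ Odd k := by
    unfold MM
    rw [Nat.odd_add]
    constructor
    · intro h
      exact h.2 (even_two_mul _)
    · intro h
      exact ⟨fun _ => even_two_mul _, fun _ => h⟩
  have h2 : Opn L (k + MM L) ↔ Opn L k := by
    apply opn_iff
    have : MM L ≡ 0 [MOD 2 ^ L - 1] := by
      unfold MM
      exact (Nat.modEq_zero_iff_dvd).2 (dvd_mul_left _ _)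
    simpa using (Nat.ModEq.refl k).add this
  rw [h1, h2]

end DEN_

open DEN_ in
theorem p_DEN : T_DEN := by
  intro L hL x
  have hM : 1 ≤ MM L := by
    have : 2 ≤ 2 ^ L := by
      calc 2 = 2 ^ 1 := by norm_num
        _ ≤ 2 ^ L := Nat.pow_le_pow_right (by norm_num) hL
    unfold MM
    omega
  classical
  obtain ⟨e, he, hc⟩ := count_split (fun k => Odd k ∧ Opn L k) (MM L) (per L) (x + 1)
  set D : ℕ := ((range (MM L)).filter fun k => Odd k ∧ Opn L k).card with hD
  have hDM : D ≤ MM L := by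
    rw [hD]
    refine (Finset.card_filter_le _ _).trans ?_
    simp
  have h1 : cnt (fun k => Odd k ∧ Opn L k) x = ((x + 1) / MM L : ℕ) * (D : ℝ) + e := by
    unfold cnt
    have : (((range (x + 1)).filter fun k => Odd k ∧ Opn L k).card : ℝ) =
        (((x + 1) / MM L * D + e : ℕ) : ℝ) := by
      rw [hD, ← hc]
    push_cast at this
    rw [← this]
    congr!
  have h2 : dens L = (D : ℝ) / MM L := by
    unfold dens
    rw [hD]
  have hMr : (1 : ℝ) ≤ MM L := by exact_mod_cast hM
  have hM0 : (0 : ℝ) < MM L := by linarith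
  have hx : (x : ℝ) = (MM L : ℝ) * ((x + 1) / MM L : ℕ) + ((x + 1) % MM L : ℕ) - 1 := by
    have := Nat.div_add_mod (x + 1) (MM L)
    have h3 : ((MM L * ((x + 1) / MM L) + (x + 1) % MM L : ℕ) : ℝ) = ((x + 1 : ℕ) : ℝ) := by
      rw [this]
    push_cast at h3
    linarith
  have hr : (x + 1) % MM L < MM L := Nat.mod_lt _ hM
  have hrr : (((x + 1) % MM L : ℕ) : ℝ) ≤ MM L := by exact_mod_cast hr.le
  have her : (e : ℝ) ≤ (((x + 1) % MM L : ℕ) : ℝ) := by exact_mod_cast he
  have he0 : (0 : ℝ) ≤ e := by positivity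
  have hD0 : (0 : ℝ) ≤ D := by positivity
  have hDr : (D : ℝ) ≤ MM L := by exact_mod_cast hDM
  have hr0 : (0 : ℝ) ≤ (((x + 1) % MM L : ℕ) : ℝ) := by positivity
  set q : ℝ := (((x + 1) / MM L : ℕ) : ℝ) with hq
  set r : ℝ := (((x + 1) % MM L : ℕ) : ℝ) with hrdef
  have hd0 : 0 ≤ (D : ℝ) / MM L := by positivity
  have hd1 : (D : ℝ) / MM L ≤ 1 := by
    rw [div_le_one hM0]
    exact hDr
  have h4 : cnt (fun k => Odd k ∧ Opn L k) x - dens L * x = e - (D : ℝ) / MM L * (r - 1) := by
    rw [h1, h2, hx]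
    field_simp
    ring
  rw [h4, abs_le]
  constructor
  · nlinarith [mul_le_mul_of_nonneg_right hd1 hr0]
  · nlinarith [mul_nonneg hd0 hr0]

end Pool.Agent.SPA
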