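import Pool.Agent.SPA.Targets

/-!
SPA: the main terms of the fundamental lemma (T_FLM)
-/

set_option autoImplicit false

open Finset

namespace Pool.Agent.SPA

open Pool.Agent.TSP (Per rho)
open Pool.Agent.Tri5 (T_MER T_EXP)

namespace FLM_

theorem FLM_exp (t : ℝ) (h0 : 0 ≤ t) (h1 : t ≤ 1 / 2) : Real.exp (-(2 * t)) ≤ 1 - t := by
  have h2 : 0 < 1 - t := by linarith
  have h3 : 1 / (1 - t) ≤ 1 + 2 * t := by
    rw [div_le_iff₀ h2]
    nlinarith
  have h4 : 1 + 2 * t ≤ Real.exp (2 * t) := by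
    have := Real.add_one_le_exp (2 * t)
    linarith
  rw [Real.exp_neg]
  have h5 : 1 / (1 - t) ≤ Real.exp (2 * t) := h3.trans h4
  rw [div_le_iff₀ h2] at h5
  rw [inv_le_iff_one_le_mul₀ (Real.exp_pos _)]
  linarith

theorem FLM_prod (S : Finset ℕ) (g : ℕ → ℝ) (h : ∀ p ∈ S, 0 ≤ g p ∧ g p ≤ 1 / 2) :
    Real.exp (-(2 * ∑ p ∈ S, g p)) ≤ ∏ p ∈ S, (1 - g p) := by
  rw [Finset.mul_sum, ← Finset.sum_neg_distrib, Real.exp_sum]
  exact Finset.prod_le_prod (fun p _ => (Real.exp_pos _).le)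
    (fun p hp => FLM_exp (g p) (h p hp).1 (h p hp).2)

theorem FLM_geom (z : ℕ) : ∑ i ∈ range z, (1 / 4 : ℝ) ^ i ≤ 2 := by
  have h : ∑ i ∈ range z, (1 / 4 : ℝ) ^ i ≤ 2 - 2 * (1 / 4 : ℝ) ^ z := by
    induction z with
    | zero => simp
    | succ n ih =>
      rw [Finset.sum_range_succ, pow_succ]
      have : 0 < (1 / 4 : ℝ) ^ n := by positivity
      linarith
  have : 0 < (1 / 4 : ℝ) ^ z := by positivity
  linarith

theorem FLM_abs (z : ℕ) (V U e t : ℕ → ℝ) (hV : ∀ i ∈ range z, 0 < V i)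
    (h1 : ∀ i ∈ range z, V i ≤ U i) (h2 : ∀ i ∈ range z, U i ≤ V i + e i)
    (h3 : ∀ i ∈ range z, 0 ≤ e i) (h4 : ∀ i ∈ range z, e i ≤ t i * V i)
    (ht : ∀ i ∈ range z, 0 ≤ t i) :
    ∏ i ∈ range z, V i ≤ ∏ i ∈ range z, U i ∧
    ∏ i ∈ range z, U i ≤ (∏ i ∈ range z, V i) * Real.exp (∑ i ∈ range z, t i) ∧
    ∑ i ∈ range z, ∏ l ∈ range z, (if l = i then e l else U l) ≤
      (∑ i ∈ range z, t i) * ((∏ i ∈ range z, V i) * Real.exp (∑ i ∈ range z, t i)) := by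
  have hU : ∀ i ∈ range z, U i ≤ V i * Real.exp (t i) := by
    intro i hi
    have := Real.add_one_le_exp (t i)
    have hv := hV i hi
    calc U i ≤ V i + e i := h2 i hi
      _ ≤ V i + t i * V i := by linarith [h4 i hi]
      _ = V i * (t i + 1) := by ring
      _ ≤ V i * Real.exp (t i) := mul_le_mul_of_nonneg_left this hv.le
  refine ⟨Finset.prod_le_prod (fun i hi => (hV i hi).le) h1, ?_, ?_⟩
  · rw [Real.exp_sum, ← Finset.prod_mul_distrib]
    exact Finset.prod_le_prod (fun i hi => (hV i hi).le.trans (h1 i hi)) hU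
  · rw [Finset.sum_mul]
    refine Finset.sum_le_sum fun i hi => ?_
    have hp : ∏ l ∈ range z, (if l = i then e l else U l) ≤
        ∏ l ∈ range z, V l * (if l = i then t l else Real.exp (t l)) := by
      refine Finset.prod_le_prod ?_ ?_
      · intro l hl
        split_ifs
        · exact h3 l hl
        · exact (hV l hl).le.trans (h1 l hl)
      · intro l hl
        split_ifs
        · rw [mul_comm]; exact h4 l hl
        · exact hU l hl
    refine hp.trans ?_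
    rw [Finset.prod_mul_distrib, mul_left_comm]
    refine mul_le_mul_of_nonneg_left ?_ (Finset.prod_nonneg fun l hl => (hV l hl).le)
    rw [← Finset.mul_prod_erase _ _ hi, if_pos rfl]
    refine mul_le_mul_of_nonneg_left ?_ (ht i hi)
    have he : ∏ l ∈ (range z).erase i, (if l = i then t l else Real.exp (t l)) =
        ∏ l ∈ (range z).erase i, Real.exp (t l) :=
      Finset.prod_congr rfl fun l hl => if_neg (Finset.ne_of_mem_erase hl)
    rw [he, ← Real.exp_sum, Real.exp_le_exp]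
    exact Finset.sum_le_sum_of_subset_of_nonneg (Finset.erase_subset _ _)
      (fun l hl _ => ht l hl)

theorem FLM_b (A η : ℝ) (hA : 0 < A) (hη : 0 < η) :
    ∃ b : ℕ, 6 * A * (1 / 4 : ℝ) ^ b ≤ η ∧ 2 * A * (1 / 4 : ℝ) ^ b ≤ 1 := by
  have hm : 0 < min (η / (6 * A)) (1 / (2 * A)) := by positivity
  obtain ⟨b, hb⟩ := exists_pow_lt_of_lt_one hm (by norm_num : (1 / 4 : ℝ) < 1)
  refine ⟨b, ?_, ?_⟩
  · have h := hb.le.trans (min_le_left _ _)
    rw [le_div_iff₀ (by positivity)] at h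
    linarith
  · have h := hb.le.trans (min_le_right _ _)
    rw [le_div_iff₀ (by positivity)] at h
    linarith

theorem FLM_ee (g : ℕ → ℝ) (P : Finset ℕ) (k : ℕ) (hg : ∀ l ∈ P, 0 ≤ g l) : 0 ≤ ee g P k := by
  unfold ee
  refine Finset.sum_nonneg fun D hD => mul_nonneg (by split_ifs <;> norm_num) ?_
  exact Finset.prod_nonneg fun l hl => hg l (Finset.mem_powerset.1 hD hl)

end FLM_

open FLM_ in
theorem p_FLM (h1 : T_ALT) (h2 : T_RNK) (h3 : T_BLK) : T_FLM := by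
  intro η hη
  obtain ⟨G, hG, hB⟩ := h3
  obtain ⟨b, hb1, hb2⟩ := FLM_b (Real.exp (8 * G)) η (Real.exp_pos _) hη
  refine ⟨b, fun z P g hz hP => ?_⟩
  obtain ⟨hU, hD, hK⟩ := hB z P hz (fun p hp => ⟨(hP p hp).1, (hP p hp).2.1, (hP p hp).2.2.1⟩)
  set A : ℝ := Real.exp (8 * G) with hA
  have hA0 : 0 < A := Real.exp_pos _
  have hsub : ∀ i, Bk P z i ⊆ P := fun i => Finset.filter_subset _ _
  have hg0 : ∀ p ∈ P, 0 ≤ g p := fun p hp => (hP p hp).2.2.2.1
  have hg1 : ∀ p ∈ P, g p ≤ 1 / 2 := by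
    intro p hp
    have h7 : (7 : ℝ) ≤ p := by exact_mod_cast (hP p hp).2.1
    refine (hP p hp).2.2.2.2.trans ?_
    rw [div_le_iff₀ (by linarith)]
    linarith
  have hsum : ∀ i, ∑ p ∈ Bk P z i, g p ≤ 2 * G := by
    intro i
    calc ∑ p ∈ Bk P z i, g p ≤ ∑ p ∈ Bk P z i, 2 * (1 / (p : ℝ)) :=
          Finset.sum_le_sum fun p hp => by
            have := (hP p (hsub i hp)).2.2.2.2
            rw [mul_one_div]; exact this
      _ = 2 * ∑ p ∈ Bk P z i, 1 / (p : ℝ) := by rw [Finset.mul_sum]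
      _ ≤ 2 * G := by linarith [(hK i).2.2.2]
  have hVe : ∀ i, Real.exp (-(4 * G)) ≤ ∏ p ∈ Bk P z i, (1 - g p) := by
    intro i
    refine le_trans ?_ (FLM_prod _ g fun p hp => ⟨hg0 p (hsub i hp), hg1 p (hsub i hp)⟩)
    rw [Real.exp_le_exp]
    linarith [hsum i]
  have hVpos : ∀ i ∈ range z, 0 < ∏ p ∈ Bk P z i, (1 - g p) :=
    fun i _ => (Real.exp_pos _).trans_le (hVe i)
  have halt := fun i => h1 g (Bk P z i) (b + i) fun l hl =>
    ⟨hg0 l (hsub i hl), (hg1 l (hsub i hl)).trans (by norm_num)⟩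
  have hee : ∀ i, ee g (Bk P z i) (2 * (b + i) + 1) ≤
      A * (1 / 4) ^ (b + i) * ∏ p ∈ Bk P z i, (1 - g p) := by
    intro i
    have hr := (h2 g (Bk P z i) (2 * (b + i) + 1) fun l hl => hg0 l (hsub i hl)).1
    refine hr.trans ?_
    have e1 : Real.exp (2 * ∑ l ∈ Bk P z i, g l) ≤ Real.exp (4 * G) := by
      rw [Real.exp_le_exp]; linarith [hsum i]
    have e2 : (1 / 2 : ℝ) ^ (2 * (b + i) + 1) ≤ (1 / 4 : ℝ) ^ (b + i) := by
      rw [pow_succ, pow_mul]
      have : ((1 / 2 : ℝ) ^ 2) = 1 / 4 := by norm_num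
      rw [this]
      have : 0 < (1 / 4 : ℝ) ^ (b + i) := by positivity
      linarith
    have e3 : Real.exp (4 * G) = A * Real.exp (-(4 * G)) := by
      rw [hA, ← Real.exp_add]; congr 1; ring
    calc (1 / 2 : ℝ) ^ (2 * (b + i) + 1) * Real.exp (2 * ∑ l ∈ Bk P z i, g l)
        ≤ (1 / 4 : ℝ) ^ (b + i) * Real.exp (4 * G) :=
          mul_le_mul e2 e1 (Real.exp_pos _).le (by positivity)
      _ = A * (1 / 4) ^ (b + i) * Real.exp (-(4 * G)) := by rw [e3]; ring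
      _ ≤ A * (1 / 4) ^ (b + i) * ∏ p ∈ Bk P z i, (1 - g p) :=
          mul_le_mul_of_nonneg_left (hVe i) (by positivity)
  have hV : ∏ i ∈ range z, ∏ p ∈ Bk P z i, (1 - g p) = ∏ p ∈ P, (1 - g p) := by
    rw [← Finset.prod_biUnion (fun i _ j _ hij => hD i j hij), hU]
  obtain ⟨r1, r2, r3⟩ := FLM_abs z (fun i => ∏ p ∈ Bk P z i, (1 - g p))
    (fun i => UU g (Bk P z i) (b + i)) (fun i => ee g (Bk P z i) (2 * (b + i) + 1))
    (fun i => A * (1 / 4) ^ (b + i)) hVpos (fun i _ => (halt i).1) (fun i _ => (halt i).2)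
    (fun i _ => FLM_ee g _ _ fun l hl => hg0 l (hsub i hl)) (fun i _ => hee i)
    (fun i _ => by positivity)
  have hc0 : 0 ≤ ∑ i ∈ range z, A * (1 / 4 : ℝ) ^ (b + i) :=
    Finset.sum_nonneg fun i _ => by positivity
  have hc : ∑ i ∈ range z, A * (1 / 4 : ℝ) ^ (b + i) ≤ 2 * A * (1 / 4) ^ b := by
    have : ∑ i ∈ range z, A * (1 / 4 : ℝ) ^ (b + i) =
        A * (1 / 4) ^ b * ∑ i ∈ range z, (1 / 4 : ℝ) ^ i := by
      rw [Finset.mul_sum]
      exact Finset.sum_congr rfl fun i _ => by rw [pow_add]; ring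
    rw [this]
    have h5 := FLM_geom z
    have h6 : 0 < A * (1 / 4 : ℝ) ^ b := by positivity
    nlinarith
  set c : ℝ := ∑ i ∈ range z, A * (1 / 4 : ℝ) ^ (b + i) with hcdef
  have hc1 : c ≤ 1 := hc.trans hb2
  have hexp : Real.exp c ≤ 1 + 2 * c := by
    have := Real.abs_exp_sub_one_le (x := c) (by rw [abs_of_nonneg hc0]; exact hc1)
    rw [abs_of_nonneg hc0] at this
    linarith [(abs_le.1 this).2]
  rw [hV] at r1 r2 r3
  have hVP : 0 ≤ ∏ p ∈ P, (1 - g p) :=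
    Finset.prod_nonneg fun p hp => by linarith [hg1 p hp]
  refine ⟨r1, r2.trans ?_, r3.trans ?_⟩
  · rw [mul_comm]
    refine mul_le_mul_of_nonneg_right ?_ hVP
    linarith
  · have h8 : c * Real.exp c ≤ η := by
      have : Real.exp c ≤ 3 := by linarith
      nlinarith [Real.exp_pos c]
    calc c * ((∏ p ∈ P, (1 - g p)) * Real.exp c) = (c * Real.exp c) * ∏ p ∈ P, (1 - g p) := by
          ring
      _ ≤ η * ∏ p ∈ P, (1 - g p) := mul_le_mul_of_nonneg_right h8 hVP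

end Pool.Agent.SPA
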