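import Pool.Agent.SPA.Targets

/-!
GSM: the Romanoff series of `2 ^ L` can be made small. Copied from the base `5` case in
`Pool/Agent/Tri5` (GS1, GS2, LCM, GSM).
-/

set_option autoImplicit false

open Finset
open Pool.Agent.Tri5 (T_MER T_EXP)

namespace Pool.Agent.SPA

open Pool.Agent.Tri5 (T_MER T_EXP)

/-- GS1: the terms of small order. -/
def T_GS1 : Prop := ∀ (L k : ℕ) (S : Finset ℕ), 1 ≤ L → 2 ≤ k →
  (∀ r : ℕ, r.Prime → r ≤ k → k ^ 4 < r ^ (L.factorization r + 1)) →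
  (∀ p ∈ S, p.Prime ∧ ¬ p ∣ 2 * (2 ^ L - 1)) →
  ∑ d ∈ ((∏ p ∈ S, p).divisors.erase 1).filter (fun d => od L d ≤ k),
    (1 : ℝ) / (Nat.totient d * od L d) ≤
    Real.exp ((1 + Real.log (3 * L * k ^ 2)) / k ^ 3) - 1

/-- GS2 (from MER): the terms of large order. -/
def T_GS2 : Prop := ∃ C : ℝ, 0 < C ∧ ∀ (L k : ℕ) (S : Finset ℕ), 1 ≤ L → 2 ≤ k →
  (∀ p ∈ S, p.Prime ∧ ¬ p ∣ 2 * (2 ^ L - 1) ∧ k < p) →
  ∑ d ∈ (∏ p ∈ S, p).divisors.filter (fun d => k < od L d),
    (1 : ℝ) / (Nat.totient d * od L d) ≤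
    C * (Real.log (3 * L) + Real.log k) / (k * Real.log k)

/-- LCM: the choice of `L`. -/
def T_LCM : Prop := ∃ C : ℝ, 0 < C ∧ ∀ k : ℕ, 5 ≤ k → ∃ L : ℕ, 1 ≤ L ∧ 60 ∣ L ∧
  Real.log L ≤ C * k ∧ (∀ r : ℕ, r.Prime → r ≤ k → k ^ 4 < r ^ (L.factorization r + 1)) ∧
  ∀ p : ℕ, p.Prime → p ≤ k → p ∣ 2 * (2 ^ L - 1)

end Pool.Agent.SPA

namespace Pool.Agent.SPA.GS1_

theorem sum_inv_le (J : Finset ℕ) (hJ : ∀ j ∈ J, 1 ≤ j) :
    ∑ j ∈ J, (1 : ℝ) / j ≤ ∑ i ∈ range J.card, (1 : ℝ) / ((i : ℝ) + 1) := by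
  induction J using Finset.induction_on_max with
  | empty => simp
  | insert a s ha ih =>
    have hn : a ∉ s := fun h => lt_irrefl a (ha a h)
    rw [sum_insert hn, card_insert_of_notMem hn, sum_range_succ, add_comm]
    refine add_le_add (ih (fun j hj => hJ j (mem_insert_of_mem hj))) ?_
    have hc : s.card ≤ a - 1 := by
      have : s ⊆ Ico 1 a := fun x hx => by
        rw [mem_Ico]; exact ⟨hJ x (mem_insert_of_mem hx), ha x hx⟩
      have := card_le_card this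
      rwa [Nat.card_Ico] at this
    have ha1 := hJ a (mem_insert_self a s)
    have hc' : (s.card : ℝ) + 1 ≤ a := by exact_mod_cast (by omega : s.card + 1 ≤ a)
    apply one_div_le_one_div_of_le (by positivity) hc'

theorem sum_inv_log (J : Finset ℕ) (n : ℕ) (hJ : ∀ j ∈ J, 1 ≤ j) (hn : J.card ≤ n) :
    ∑ j ∈ J, (1 : ℝ) / j ≤ 1 + Real.log n := by
  have h2 := sum_inv_le J hJ
  have h3 : ∑ i ∈ range J.card, (1 : ℝ) / ((i : ℝ) + 1) ≤ ∑ i ∈ range n, (1 : ℝ) / ((i : ℝ) + 1) := by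
    apply sum_le_sum_of_subset_of_nonneg
    · exact range_subset_range.2 hn
    · intro i _ _; positivity
  have h4 := harmonic_le_one_add_log n
  have h5 : ((harmonic n : ℚ) : ℝ) = ∑ i ∈ range n, (1 : ℝ) / ((i : ℝ) + 1) := by
    unfold harmonic
    push_cast
    apply sum_congr rfl
    intro i _
    rw [one_div]
  rw [← h5] at h3
  linarith

theorem tot_sum (h1 : T_EXP) (S : Finset ℕ) (hS : ∀ p ∈ S, p.Prime) :
    ∑ d ∈ (∏ p ∈ S, p).divisors, (1 : ℝ) / Nat.totient d = ∏ p ∈ S, (1 + 1 / ((p : ℝ) - 1)) := by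
  have := h1 Unit {()} (fun _ => 0) S hS
  simp only [dvd_zero, filter_true, sum_singleton, card_singleton, Nat.cast_one, mul_one] at this
  exact this.symm

theorem five_ne (L p : ℕ) (h : ¬ p ∣ 2 * (2 ^ L - 1)) :
    p ≠ 2 ∧ ¬ p ∣ 2 ^ L - 1 := by
  refine ⟨?_, fun hd => h (hd.mul_left _)⟩
  rintro rfl
  exact h (dvd_mul_right _ _)

theorem od_facts (L p : ℕ) (hL : 1 ≤ L) (hp : p.Prime) (h : ¬ p ∣ 2 * (2 ^ L - 1)) :
    2 ≤ od L p ∧ p ∣ 2 ^ (L * od L p) - 1 ∧ ∀ r : ℕ, r.Prime → r ∣ od L p →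
      r ^ (L.factorization r + 1) ∣ p - 1 := by
  obtain ⟨h5, hn⟩ := five_ne L p h
  have : Fact p.Prime := ⟨hp⟩
  have h50 : (2 : ZMod p) ≠ 0 := by
    intro h
    have : ((2 : ℕ) : ZMod p) = 0 := by exact_mod_cast h
    rw [ZMod.natCast_eq_zero_iff] at this
    exact h5 ((Nat.prime_dvd_prime_iff_eq hp Nat.prime_two).1 this)
  have hw : orderOf (2 : ZMod p) ∣ p - 1 := ZMod.orderOf_dvd_card_sub_one h50
  have hp2 := hp.two_le
  have hw0 : 0 < orderOf (2 : ZMod p) := Nat.pos_of_dvd_of_pos hw (by omega)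
  have ho : od L p = orderOf (2 : ZMod p) / Nat.gcd (orderOf (2 : ZMod p)) L := by
    unfold od
    exact orderOf_pow' _ (by omega)
  have hg0 : 0 < Nat.gcd (orderOf (2 : ZMod p)) L := Nat.gcd_pos_of_pos_left _ hw0
  have hmul : od L p * Nat.gcd (orderOf (2 : ZMod p)) L = orderOf (2 : ZMod p) := by
    rw [ho]; exact Nat.div_mul_cancel (Nat.gcd_dvd_left _ _)
  have hpow : ∀ n : ℕ, (2 : ZMod p) ^ n = 1 → p ∣ 2 ^ n - 1 := by
    intro n hn
    rw [← ZMod.natCast_eq_zero_iff, Nat.cast_sub (Nat.one_le_pow _ _ (by norm_num))]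
    push_cast
    rw [hn, sub_self]
  refine ⟨?_, ?_, ?_⟩
  · by_contra hlt
    push Not at hlt
    have h1 : od L p = 1 := by
      have : od L p ≠ 0 := by
        intro h0; rw [h0, zero_mul] at hmul; omega
      omega
    apply hn
    apply hpow
    have := pow_orderOf_eq_one ((2 : ZMod p) ^ L)
    unfold od at h1
    rw [h1, pow_one] at this
    exact this
  · apply hpow
    rw [pow_mul]
    exact pow_orderOf_eq_one _
  · intro r hr hrd
    refine dvd_trans ?_ hw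
    rw [Nat.Prime.pow_dvd_iff_le_factorization hr hw0.ne']
    have hod0 : od L p ≠ 0 := by
      intro h0; rw [h0, zero_mul] at hmul; omega
    have e1 : (orderOf (2 : ZMod p)).factorization r =
        (od L p).factorization r + (Nat.gcd (orderOf (2 : ZMod p)) L).factorization r := by
      nth_rewrite 1 [← hmul]
      rw [Nat.factorization_mul hod0 hg0.ne']
      rfl
    have e2 : (Nat.gcd (orderOf (2 : ZMod p)) L).factorization r =
        min ((orderOf (2 : ZMod p)).factorization r) (L.factorization r) := by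
      rw [Nat.factorization_gcd hw0.ne' (by omega)]
      rfl
    have e3 : 1 ≤ (od L p).factorization r :=
      (hr.dvd_iff_one_le_factorization hod0).1 hrd
    rw [e2] at e1
    rcases le_total ((orderOf (2 : ZMod p)).factorization r) (L.factorization r) with h | h
    · rw [min_eq_left h] at e1; omega
    · rw [min_eq_right h] at e1; omega

theorem card_bound (L k : ℕ) (S : Finset ℕ) (hL : 1 ≤ L)
    (hS : ∀ p ∈ S, p.Prime ∧ ∃ e, 1 ≤ e ∧ e ≤ k ∧ p ∣ 2 ^ (L * e) - 1) :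
    S.card ≤ 3 * L * k ^ 2 := by
  have hf : ∀ e ∈ Icc 1 k, 0 < 2 ^ (L * e) - 1 := by
    intro e he
    rw [mem_Icc] at he
    have : 2 ^ 1 ≤ 2 ^ (L * e) := Nat.pow_le_pow_right (by norm_num) (Nat.mul_pos hL he.1)
    omega
  have h1 : ∏ p ∈ S, p ∣ ∏ e ∈ Icc 1 k, (2 ^ (L * e) - 1) := by
    apply Finset.prod_primes_dvd
    · intro p hp; exact (hS p hp).1.prime
    · intro p hp
      obtain ⟨_, e, he1, he2, he3⟩ := hS p hp
      exact he3.trans (Finset.dvd_prod_of_mem (fun e => 2 ^ (L * e) - 1) (mem_Icc.2 ⟨he1, he2⟩))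
  have h2 : ∏ p ∈ S, p ≤ ∏ e ∈ Icc 1 k, (2 ^ (L * e) - 1) := Nat.le_of_dvd (prod_pos hf) h1
  have h3 : ∏ e ∈ Icc 1 k, (2 ^ (L * e) - 1) ≤ ∏ _e ∈ Icc 1 k, 2 ^ (L * k) := by
    apply prod_le_prod'
    intro e he
    rw [mem_Icc] at he
    have : 2 ^ (L * e) ≤ 2 ^ (L * k) := Nat.pow_le_pow_right (by norm_num) (Nat.mul_le_mul_left _ he.2)
    exact (Nat.sub_le _ _).trans this
  have h4 : 2 ^ S.card ≤ ∏ p ∈ S, p := by
    rw [← prod_const]
    apply prod_le_prod'
    intro p hp; exact (hS p hp).1.two_le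
  rw [prod_const, Nat.card_Icc, ← pow_mul] at h3
  have h5 : (2 : ℕ) ^ (L * k * (k + 1 - 1)) ≤ 8 ^ (L * k * (k + 1 - 1)) :=
    Nat.pow_le_pow_left (by norm_num) _
  have h6 : (8 : ℕ) ^ (L * k * (k + 1 - 1)) = 2 ^ (3 * L * k ^ 2) := by
    rw [show (8 : ℕ) = 2 ^ 3 by norm_num, ← pow_mul]
    congr 1
    rw [Nat.add_sub_cancel]
    ring
  rw [h6] at h5
  exact (Nat.pow_le_pow_iff_right (by norm_num : 1 < 2)).1 (h4.trans (h2.trans (h3.trans h5)))

theorem od_pos (L d : ℕ) (hd : 1 ≤ d) (h5 : d.Coprime 2) : 1 ≤ od L d := by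
  have : NeZero d := ⟨by omega⟩
  have hu : IsUnit (2 : ZMod d) := by
    have := (ZMod.isUnit_iff_coprime 2 d).2 h5.symm
    exact_mod_cast this
  obtain ⟨u, hu⟩ := hu
  unfold od
  rw [← hu, ← Units.val_pow_eq_pow_val, orderOf_units]
  exact orderOf_pos _

theorem od_dvd (L p d : ℕ) (h : p ∣ d) : od L p ∣ od L d := by
  unfold od
  have h1 := orderOf_map_dvd (ZMod.castHom h (ZMod p)).toMonoidHom ((2 : ZMod d) ^ L)
  have h2 : (ZMod.castHom h (ZMod p)).toMonoidHom ((2 : ZMod d) ^ L) = (2 : ZMod p) ^ L := by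
    rw [map_pow]
    congr 1
    exact map_ofNat (ZMod.castHom h (ZMod p)) 2
  rwa [h2] at h1

theorem step1 (h1 : T_EXP) (L k : ℕ) (S : Finset ℕ) (hL : 1 ≤ L)
    (hS : ∀ p ∈ S, p.Prime ∧ ¬ p ∣ 2 * (2 ^ L - 1)) :
    ∑ d ∈ ((∏ p ∈ S, p).divisors.erase 1).filter (fun d => od L d ≤ k),
      (1 : ℝ) / (Nat.totient d * od L d) ≤
    ∏ p ∈ S.filter (fun p => od L p ≤ k), (1 + 1 / ((p : ℝ) - 1)) - 1 := by
  set S' := S.filter (fun p => od L p ≤ k) with hS'
  have hP : ∀ p ∈ S', p.Prime := fun p hp => (hS p (mem_filter.1 hp).1).1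
  have hP0 : ∏ p ∈ S', p ≠ 0 := prod_ne_zero_iff.2 (fun p hp => (hP p hp).ne_zero)
  have hsq : Squarefree (∏ p ∈ S, p) := by
    refine Finset.squarefree_prod_of_pairwise_isCoprime (fun p hp q hq hpq => ?_)
      (fun p hp => (hS p hp).1.squarefree)
    exact Nat.coprime_iff_isRelPrime.1 ((Nat.coprime_primes (hS p hp).1 (hS q hq).1).2 hpq)
  have hsub : ((∏ p ∈ S, p).divisors.erase 1).filter (fun d => od L d ≤ k) ⊆
      (∏ p ∈ S', p).divisors.erase 1 := by
    intro d hd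
    rw [mem_filter, mem_erase, Nat.mem_divisors] at hd
    obtain ⟨⟨hd1, hd2, hd3⟩, hd4⟩ := hd
    rw [mem_erase, Nat.mem_divisors]
    refine ⟨hd1, ?_, hP0⟩
    have hdsq : Squarefree d := hsq.squarefree_of_dvd hd2
    have hd0 : d ≠ 0 := hdsq.ne_zero
    have hpS : ∀ p ∈ d.primeFactors, p ∈ S := by
      intro p hp
      rw [Nat.mem_primeFactors] at hp
      obtain ⟨q, hq1, hq2⟩ := (Prime.dvd_finsetProd_iff hp.1.prime _).1 (hp.2.1.trans hd2)
      rw [(Nat.prime_dvd_prime_iff_eq hp.1 (hS q hq1).1).1 hq2]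
      exact hq1
    have hd5 : d.Coprime 2 := by
      rw [Nat.coprime_comm, Nat.Prime.coprime_iff_not_dvd Nat.prime_two]
      intro h5
      have := hpS 2 (Nat.mem_primeFactors.2 ⟨Nat.prime_two, h5, hd0⟩)
      exact (five_ne L 2 (hS 2 this).2).1 rfl
    have hod := od_pos L d (Nat.pos_of_ne_zero hd0) hd5
    rw [← Nat.prod_primeFactors_of_squarefree hdsq]
    apply prod_dvd_prod_of_subset
    intro p hp
    rw [hS', mem_filter]
    refine ⟨hpS p hp, ?_⟩
    exact (Nat.le_of_dvd hod (od_dvd L p d (Nat.dvd_of_mem_primeFactors hp))).trans hd4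
  have e1 : ∑ d ∈ (∏ p ∈ S', p).divisors.erase 1, (1 : ℝ) / Nat.totient d =
      ∏ p ∈ S', (1 + 1 / ((p : ℝ) - 1)) - 1 := by
    rw [← tot_sum h1 S' hP, Finset.sum_erase_eq_sub (Nat.mem_divisors.2 ⟨one_dvd _, hP0⟩)]
    simp
  rw [← e1]
  refine le_trans (sum_le_sum_of_subset_of_nonneg hsub ?_) (sum_le_sum ?_)
  · intro d _ _; positivity
  · intro d hd
    rcases Nat.eq_zero_or_pos (od L d) with h | h
    · rw [h]; simp
    · rcases Nat.eq_zero_or_pos (Nat.totient d) with h' | h'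
      · rw [h']; simp
      · apply one_div_le_one_div_of_le (by exact_mod_cast h')
        have : (1 : ℝ) ≤ od L d := by exact_mod_cast h
        have : (0 : ℝ) < Nat.totient d := by exact_mod_cast h'
        nlinarith

theorem step4 (L k : ℕ) (S' : Finset ℕ) (hL : 1 ≤ L) (hk : 2 ≤ k)
    (hD : ∀ r : ℕ, r.Prime → r ≤ k → k ^ 4 < r ^ (L.factorization r + 1))
    (hS : ∀ p ∈ S', p.Prime ∧ ¬ p ∣ 2 * (2 ^ L - 1) ∧ od L p ≤ k) :
    ∑ p ∈ S', 1 / ((p : ℝ) - 1) ≤ (1 + Real.log (3 * L * k ^ 2)) / k ^ 3 := by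
  have hcard : S'.card ≤ 3 * L * k ^ 2 := by
    apply card_bound L k S' hL
    intro p hp
    obtain ⟨hp1, hp2, hp3⟩ := hS p hp
    obtain ⟨f1, f2, -⟩ := od_facts L p hL hp1 hp2
    exact ⟨hp1, od L p, by omega, hp3, f2⟩
  have hn1 : 1 ≤ 3 * L * k ^ 2 := by
    have : 0 < 3 * L * k ^ 2 := by positivity
    exact this
  have hp1R : ∀ p ∈ S', (0 : ℝ) < (p : ℝ) - 1 := by
    intro p hp
    have : (2 : ℝ) ≤ p := by exact_mod_cast (hS p hp).1.two_le
    linarith
  set D : ℕ → ℕ := fun r => r ^ (L.factorization r + 1) with hDdef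
  have hcov : ∀ p ∈ S', ∃ r ∈ (Icc 1 k).filter Nat.Prime, D r ∣ p - 1 := by
    intro p hp
    obtain ⟨hp1, hp2, hp3⟩ := hS p hp
    obtain ⟨f1, f2, f3⟩ := od_facts L p hL hp1 hp2
    have hr : (od L p).minFac.Prime := Nat.minFac_prime (by omega)
    have hrd := Nat.minFac_dvd (od L p)
    refine ⟨(od L p).minFac, ?_, f3 _ hr hrd⟩
    rw [mem_filter, mem_Icc]
    exact ⟨⟨hr.one_lt.le, (Nat.le_of_dvd (by omega) hrd).trans hp3⟩, hr⟩
  have h1 : ∑ p ∈ S', 1 / ((p : ℝ) - 1) ≤ ∑ r ∈ (Icc 1 k).filter Nat.Prime,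
      ∑ p ∈ S'.filter (fun p => D r ∣ p - 1), 1 / ((p : ℝ) - 1) := by
    simp_rw [sum_filter (fun p => D _ ∣ p - 1)]
    rw [sum_comm]
    apply sum_le_sum
    intro p hp
    obtain ⟨r, hr1, hr2⟩ := hcov p hp
    have hnn : ∀ r ∈ (Icc 1 k).filter Nat.Prime,
        0 ≤ (if D r ∣ p - 1 then 1 / ((p : ℝ) - 1) else 0) := by
      intro r _
      have := hp1R p hp
      split_ifs <;> positivity
    refine le_trans ?_ (single_le_sum hnn hr1)
    rw [if_pos hr2]
  have h2 : ∀ r ∈ (Icc 1 k).filter Nat.Prime,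
      ∑ p ∈ S'.filter (fun p => D r ∣ p - 1), 1 / ((p : ℝ) - 1) ≤
      (1 + Real.log (3 * L * k ^ 2)) / k ^ 4 := by
    intro r hr
    rw [mem_filter, mem_Icc] at hr
    have hDr : k ^ 4 < D r := hD r hr.2 hr.1.2
    have hDpos : 0 < D r := by omega
    have hinj : Set.InjOn (fun p => (p - 1) / D r) (S'.filter (fun p => D r ∣ p - 1)) := by
      intro p hp q hq hpq
      rw [coe_filter] at hp hq
      have h1 := Nat.div_mul_cancel hp.2
      have h2 := Nat.div_mul_cancel hq.2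
      simp only at hpq
      rw [hpq, h2] at h1
      have := (hS p hp.1).1.two_le
      have := (hS q hq.1).1.two_le
      omega
    have e : ∑ p ∈ S'.filter (fun p => D r ∣ p - 1), 1 / ((p : ℝ) - 1) =
        (1 / (D r : ℝ)) * ∑ j ∈ (S'.filter (fun p => D r ∣ p - 1)).image (fun p => (p - 1) / D r),
          (1 : ℝ) / j := by
      rw [sum_image hinj, mul_sum]
      apply sum_congr rfl
      intro p hp
      rw [mem_filter] at hp
      have h1 := Nat.div_mul_cancel hp.2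
      have h2 := (hS p hp.1).1.two_le
      have h3 : ((p : ℝ) - 1) = (((p - 1) / D r : ℕ) : ℝ) * (D r : ℝ) := by
        rw [← Nat.cast_mul, h1, Nat.cast_sub (by omega)]; simp
      rw [h3, one_div_mul_one_div, mul_comm]
    rw [e]
    have hlog : ∑ j ∈ (S'.filter (fun p => D r ∣ p - 1)).image (fun p => (p - 1) / D r),
          (1 : ℝ) / j ≤ 1 + Real.log ((3 * L * k ^ 2 : ℕ) : ℝ) := by
      apply sum_inv_log
      · intro j hj
        rw [mem_image] at hj
        obtain ⟨p, hp, rfl⟩ := hj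
        rw [mem_filter] at hp
        have h2 := (hS p hp.1).1.two_le
        exact Nat.div_pos (Nat.le_of_dvd (by omega) hp.2) hDpos
      · exact card_image_le.trans ((card_filter_le _ _).trans hcard)
    have hcast : ((3 * L * k ^ 2 : ℕ) : ℝ) = 3 * L * k ^ 2 := by push_cast; ring
    rw [hcast] at hlog
    have hlog0 : 0 ≤ Real.log (3 * L * k ^ 2) := by
      rw [← hcast]
      exact Real.log_nonneg (by exact_mod_cast hn1)
    have hk0 : (0 : ℝ) < (k : ℝ) ^ 4 := by positivity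
    have hDk : (k : ℝ) ^ 4 ≤ D r := by exact_mod_cast hDr.le
    calc (1 / (D r : ℝ)) * _ ≤ (1 / (D r : ℝ)) * (1 + Real.log (3 * L * k ^ 2)) := by
          apply mul_le_mul_of_nonneg_left hlog (by positivity)
      _ ≤ (1 / (k : ℝ) ^ 4) * (1 + Real.log (3 * L * k ^ 2)) := by
          apply mul_le_mul_of_nonneg_right _ (by linarith)
          exact one_div_le_one_div_of_le hk0 hDk
      _ = _ := by ring
  refine h1.trans ((sum_le_card_nsmul _ _ _ h2).trans ?_)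
  rw [nsmul_eq_mul]
  have hc : ((Icc 1 k).filter Nat.Prime).card ≤ k := by
    refine (card_filter_le _ _).trans ?_
    rw [Nat.card_Icc]; omega
  have hcast : ((3 * L * k ^ 2 : ℕ) : ℝ) = 3 * L * k ^ 2 := by push_cast; ring
  have hlog0 : 0 ≤ Real.log (3 * L * k ^ 2) := by
    rw [← hcast]
    exact Real.log_nonneg (by exact_mod_cast hn1)
  have hkR : (0 : ℝ) < k := by positivity
  have hc' : (((Icc 1 k).filter Nat.Prime).card : ℝ) ≤ k := by exact_mod_cast hc
  calc (((Icc 1 k).filter Nat.Prime).card : ℝ) * ((1 + Real.log (3 * L * k ^ 2)) / k ^ 4) ≤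
      k * ((1 + Real.log (3 * L * k ^ 2)) / k ^ 4) := by
        apply mul_le_mul_of_nonneg_right hc' (by positivity)
    _ = _ := by field_simp

end Pool.Agent.SPA.GS1_

namespace Pool.Agent.SPA

open GS1_ in
theorem p_GS1 (h1 : T_EXP) : T_GS1 := by
  intro L k S hL hk hD hS
  refine (step1 h1 L k S hL hS).trans ?_
  have hS' : ∀ p ∈ S.filter (fun p => od L p ≤ k), p.Prime ∧ ¬ p ∣ 2 * (2 ^ L - 1) ∧ od L p ≤ k := by
    intro p hp
    rw [mem_filter] at hp
    exact ⟨(hS p hp.1).1, (hS p hp.1).2, hp.2⟩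
  have h4 := step4 L k (S.filter (fun p => od L p ≤ k)) hL hk hD hS'
  have h5 : ∏ p ∈ S.filter (fun p => od L p ≤ k), (1 + 1 / ((p : ℝ) - 1)) ≤
      Real.exp (∑ p ∈ S.filter (fun p => od L p ≤ k), 1 / ((p : ℝ) - 1)) := by
    rw [Real.exp_sum]
    apply prod_le_prod
    · intro p hp
      have : (2 : ℝ) ≤ p := by exact_mod_cast (hS' p hp).1.two_le
      have : (0 : ℝ) < (p : ℝ) - 1 := by linarith
      positivity
    · intro p hp
      have := Real.add_one_le_exp (1 / ((p : ℝ) - 1))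
      linarith
  have h6 := Real.exp_le_exp.2 h4
  linarith

end Pool.Agent.SPA

namespace Pool.Agent.SPA

namespace GS2_

/-- `1 / φ`. -/
noncomputable def fphi : ArithmeticFunction ℝ := ⟨fun n => 1 / (Nat.totient n : ℝ), by simp⟩

theorem fphi_apply (n : ℕ) : fphi n = 1 / (Nat.totient n : ℝ) := rfl

theorem fphi_mult : fphi.IsMultiplicative := by
  refine ⟨by simp [fphi_apply], fun {m n} h => ?_⟩
  rw [fphi_apply, fphi_apply, fphi_apply, Nat.totient_mul h, Nat.cast_mul]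
  field_simp

theorem squarefree_prod (S : Finset ℕ) (hS : ∀ p ∈ S, p.Prime) : Squarefree (∏ p ∈ S, p) := by
  refine Finset.squarefree_prod_of_pairwise_isCoprime (fun p hp q hq hpq => ?_) (fun p hp => ?_)
  · rw [Function.onFun, ← Nat.coprime_iff_isRelPrime]
    exact (Nat.coprime_primes (hS p hp) (hS q hq)).2 hpq
  · exact (hS p hp).prime.irreducible.squarefree

theorem sum_phi (S : Finset ℕ) (hS : ∀ p ∈ S, p.Prime) :
    ∑ d ∈ (∏ p ∈ S, p).divisors, (1 : ℝ) / Nat.totient d = ∏ p ∈ S, (1 + 1 / ((p : ℝ) - 1)) := by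
  have h := fphi_mult.prodPrimeFactors_one_add_of_squarefree (squarefree_prod S hS)
  rw [Nat.primeFactors_prod hS] at h
  simp only [fphi_apply] at h
  rw [← h]
  refine prod_congr rfl (fun p hp => ?_)
  rw [Nat.totient_prime (hS p hp), Nat.cast_sub (hS p hp).one_lt.le, Nat.cast_one]

/-- the primes with small order -/
def Sj (S : Finset ℕ) (L E : ℕ) : Finset ℕ :=
  S.filter (fun p => p ∣ ∏ e ∈ Icc 1 E, (2 ^ (L * e) - 1))

theorem dvd_of_od {L d p : ℕ} (hp : p ∣ d) : (p : ℕ) ∣ 2 ^ (L * od L d) - 1 := by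
  have h1 : ((2 : ZMod d) ^ L) ^ od L d = 1 := pow_orderOf_eq_one _
  have h2 : ((2 : ZMod p) ^ L) ^ od L d = 1 := by
    have := congrArg (ZMod.castHom hp (ZMod p)) h1
    rw [map_pow, map_pow, map_one, map_ofNat] at this
    exact this
  rw [← pow_mul] at h2
  have h3 : ((2 ^ (L * od L d) : ℕ) : ZMod p) = ((1 : ℕ) : ZMod p) := by
    push_cast
    exact h2
  have h4 := (ZMod.natCast_eq_natCast_iff _ _ _).1 h3
  exact (Nat.modEq_iff_dvd' (Nat.one_le_pow _ _ (by norm_num))).1 h4.symm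

theorem dvd_prod_Sj {S : Finset ℕ} (hS : ∀ p ∈ S, p.Prime) {L E d : ℕ}
    (hd : d ∣ ∏ p ∈ S, p) (h1 : 1 ≤ od L d) (h2 : od L d ≤ E) : d ∣ ∏ p ∈ Sj S L E, p := by
  have hsq : Squarefree d := (squarefree_prod S hS).squarefree_of_dvd hd
  have hd0 : (∏ p ∈ S, p) ≠ 0 := prod_ne_zero_iff.2 (fun p hp => (hS p hp).ne_zero)
  rw [← Nat.prod_primeFactors_of_squarefree hsq]
  refine prod_dvd_prod_of_subset _ _ _ (fun p hp => ?_)
  have hpp := Nat.prime_of_mem_primeFactors hp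
  have hpd := Nat.dvd_of_mem_primeFactors hp
  have hpS : p ∈ S := by
    have := Nat.primeFactors_mono hd hd0 hp
    rwa [Nat.primeFactors_prod hS] at this
  refine mem_filter.2 ⟨hpS, ?_⟩
  exact (dvd_of_od hpd).trans (dvd_prod_of_mem _ (mem_Icc.2 ⟨h1, h2⟩))

theorem prod_le (L E : ℕ) : ∏ e ∈ Icc 1 E, (2 ^ (L * e) - 1) ≤ 2 ^ (L * E ^ 2) := by
  calc ∏ e ∈ Icc 1 E, (2 ^ (L * e) - 1) ≤ ∏ e ∈ Icc 1 E, 2 ^ (L * E) := by
        refine prod_le_prod' (fun e he => ?_)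
        refine (Nat.sub_le _ _).trans ?_
        exact Nat.pow_le_pow_right (by norm_num) (Nat.mul_le_mul_left _ (mem_Icc.1 he).2)
    _ = 2 ^ (L * E ^ 2) := by
        rw [prod_const, Nat.card_Icc, ← pow_mul]
        congr 1
        rw [Nat.add_sub_cancel]
        ring

theorem card_Sj {S : Finset ℕ} (hS : ∀ p ∈ S, p.Prime) {L E : ℕ} (hL : 1 ≤ L) :
    (Sj S L E).card ≤ 3 * L * E ^ 2 := by
  have hpos : 0 < ∏ e ∈ Icc 1 E, (2 ^ (L * e) - 1) := by
    refine prod_pos (fun e he => ?_)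
    have : 1 < 2 ^ (L * e) := Nat.one_lt_pow (by
      have := (mem_Icc.1 he).1
      positivity) (by norm_num)
    omega
  have h1 : ∏ p ∈ Sj S L E, p ∣ ∏ e ∈ Icc 1 E, (2 ^ (L * e) - 1) :=
    Finset.prod_primes_dvd _ (fun p hp => (hS p (mem_filter.1 hp).1).prime)
      (fun p hp => (mem_filter.1 hp).2)
  have h2 : 2 ^ (Sj S L E).card ≤ ∏ p ∈ Sj S L E, p := by
    rw [← prod_const]
    exact prod_le_prod' (fun p hp => (hS p (mem_filter.1 hp).1).two_le)
  have h3 : 2 ^ (Sj S L E).card ≤ 2 ^ (3 * L * E ^ 2) := by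
    calc 2 ^ (Sj S L E).card ≤ ∏ e ∈ Icc 1 E, (2 ^ (L * e) - 1) :=
          h2.trans (Nat.le_of_dvd hpos h1)
      _ ≤ 2 ^ (L * E ^ 2) := prod_le L E
      _ ≤ 8 ^ (L * E ^ 2) := Nat.pow_le_pow_left (by norm_num) _
      _ = 2 ^ (3 * L * E ^ 2) := by
          rw [show (8 : ℕ) = 2 ^ 3 by norm_num, ← pow_mul]
          congr 1
          ring
  exact (Nat.pow_le_pow_iff_right (by norm_num)).1 h3

theorem geo1 (J : ℕ) : ∑ j ∈ range J, (1 : ℝ) / 2 ^ j ≤ 2 := by
  have : ∑ j ∈ range J, (1 : ℝ) / 2 ^ j = 2 - 2 / 2 ^ J := by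
    induction J with
    | zero => simp
    | succ n ih =>
      rw [sum_range_succ, ih]
      field_simp
      ring
  rw [this]
  have : (0 : ℝ) < 2 / 2 ^ J := by positivity
  linarith

theorem geo2 (J : ℕ) : ∑ j ∈ range J, ((j : ℝ) + 1) / 2 ^ j ≤ 4 := by
  have : ∑ j ∈ range J, ((j : ℝ) + 1) / 2 ^ j = 4 - (2 * J + 4) / 2 ^ J := by
    induction J with
    | zero => simp
    | succ n ih =>
      rw [sum_range_succ, ih]
      push_cast
      field_simp
      ring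
  rw [this]
  have : (0 : ℝ) < (2 * J + 4) / 2 ^ J := by positivity
  linarith

/-- the dyadic index -/
theorem exists_j {k m J : ℕ} (h : k < m) (hJ : m ≤ 2 ^ J * k) :
    ∃ j < J, 2 ^ j * k < m ∧ m ≤ 2 ^ (j + 1) * k := by
  induction J with
  | zero =>
    simp at hJ
    omega
  | succ n ih =>
    by_cases h1 : m ≤ 2 ^ n * k
    · obtain ⟨j, hj, hj'⟩ := ih h1
      exact ⟨j, by omega, hj'⟩
    · exact ⟨n, by omega, by omega, hJ⟩

end GS2_

open GS2_ in
theorem p_GS2 (h1 : T_MER) : T_GS2 := by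
  obtain ⟨C0, hC0, hM⟩ := h1
  refine ⟨12 * C0, by positivity, ?_⟩
  intro L k S hL hk hS
  have hSp : ∀ p ∈ S, p.Prime := fun p hp => (hS p hp).1
  set P := ∏ p ∈ S, p with hP
  have hk0 : (0 : ℝ) < k := by exact_mod_cast (by omega : 0 < k)
  have hL0 : (0 : ℝ) < L := by exact_mod_cast (by omega : 0 < L)
  have hlk : 0 < Real.log k := Real.log_pos (by exact_mod_cast (by omega : 1 < k))
  have hl2 : Real.log 2 ≤ Real.log k := Real.log_le_log (by norm_num) (by exact_mod_cast hk)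
  -- a bound for the orders
  obtain ⟨J, hJ⟩ : ∃ J : ℕ, ∀ d ∈ P.divisors, od L d ≤ 2 ^ J * k := by
    obtain ⟨M, hMb⟩ : ∃ M : ℕ, ∀ d ∈ P.divisors, od L d ≤ M :=
      ⟨P.divisors.sup (od L), fun d hd => Finset.le_sup (f := od L) hd⟩
    refine ⟨M, fun d hd => (hMb d hd).trans ?_⟩
    calc M ≤ 2 ^ M := Nat.lt_two_pow_self.le
      _ ≤ 2 ^ M * k := Nat.le_mul_of_pos_right _ (by omega)
  -- the sums over the small orders
  have hB : ∀ j : ℕ, ∑ d ∈ P.divisors.filter (fun d => 1 ≤ od L d ∧ od L d ≤ 2 ^ (j + 1) * k),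
      (1 : ℝ) / Nat.totient d ≤
      C0 * (Real.log (3 * L) + 2 * Real.log k + 2 * (j + 1) * Real.log 2) / Real.log k := by
    intro j
    set E := 2 ^ (j + 1) * k with hE
    have hEk : k ≤ E := Nat.le_mul_of_pos_left _ (by positivity)
    have hkn : k ≤ 3 * L * E ^ 2 := by
      calc k ≤ E := hEk
        _ ≤ E ^ 2 := Nat.le_self_pow (by norm_num) _
        _ ≤ 3 * L * E ^ 2 := Nat.le_mul_of_pos_left _ (by positivity)
    have hSj : ∀ p ∈ Sj S L E, p.Prime ∧ k < p := fun p hp =>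
      ⟨(hS p (mem_filter.1 hp).1).1, (hS p (mem_filter.1 hp).1).2.2⟩
    have h2 := hM k (3 * L * E ^ 2) (Sj S L E) hk hkn (card_Sj hSp hL) hSj
    rw [← sum_phi (Sj S L E) (fun p hp => (hSj p hp).1)] at h2
    have hlog : Real.log ((3 * L * E ^ 2 : ℕ) : ℝ) =
        Real.log (3 * L) + 2 * Real.log k + 2 * (j + 1) * Real.log 2 := by
      have hE' : (E : ℝ) = 2 ^ (j + 1) * k := by rw [hE]; push_cast; ring
      push_cast
      rw [Real.log_mul (by positivity) (by rw [hE']; positivity), Real.log_pow, hE',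
        Real.log_mul (show ((2 : ℝ) ^ (j + 1)) ≠ 0 by positivity) hk0.ne', Real.log_pow]
      push_cast
      ring
    rw [hlog] at h2
    refine le_trans (sum_le_sum_of_subset_of_nonneg (fun d hd => ?_)
      (fun d _ _ => by positivity)) h2
    obtain ⟨hd1, hd2, hd3⟩ := mem_filter.1 hd
    refine Nat.mem_divisors.2 ⟨dvd_prod_Sj hSp (Nat.dvd_of_mem_divisors hd1) hd2 hd3, ?_⟩
    exact prod_ne_zero_iff.2 (fun p hp => (hSj p hp).1.ne_zero)
  -- dyadic decomposition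
  have key : ∑ d ∈ P.divisors.filter (fun d => k < od L d),
      (1 : ℝ) / (Nat.totient d * od L d) ≤
      ∑ j ∈ range J, 1 / (2 ^ j * (k : ℝ)) *
        ∑ d ∈ P.divisors.filter (fun d => 1 ≤ od L d ∧ od L d ≤ 2 ^ (j + 1) * k),
          (1 : ℝ) / Nat.totient d := by
    have e1 : ∀ j ∈ range J, 1 / (2 ^ j * (k : ℝ)) *
        ∑ d ∈ P.divisors.filter (fun d => 1 ≤ od L d ∧ od L d ≤ 2 ^ (j + 1) * k),
          (1 : ℝ) / Nat.totient d =
        ∑ d ∈ P.divisors, if (1 ≤ od L d ∧ od L d ≤ 2 ^ (j + 1) * k) then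
          1 / (2 ^ j * (k : ℝ)) * (1 / Nat.totient d) else 0 := by
      intro j _
      rw [mul_sum, sum_filter]
    rw [sum_congr rfl e1, sum_comm, sum_filter]
    refine sum_le_sum (fun d hd => ?_)
    have hnn : ∀ j ∈ range J, (0 : ℝ) ≤ if (1 ≤ od L d ∧ od L d ≤ 2 ^ (j + 1) * k) then
        1 / (2 ^ j * (k : ℝ)) * (1 / Nat.totient d) else 0 := by
      intro j _
      split_ifs
      · positivity
      · exact le_rfl
    split_ifs with h
    · obtain ⟨j, hj, hj1, hj2⟩ := exists_j h (hJ d hd)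
      refine le_trans ?_ (single_le_sum hnn (mem_range.2 hj))
      rw [if_pos ⟨by omega, hj2⟩]
      have h3 : (2 : ℝ) ^ j * k ≤ od L d := by exact_mod_cast hj1.le
      have h4 : (0 : ℝ) < 2 ^ j * k := by positivity
      have h5 : (1 : ℝ) / (od L d) ≤ 1 / (2 ^ j * k) := one_div_le_one_div_of_le h4 h3
      have h6 : (0 : ℝ) ≤ 1 / Nat.totient d := by positivity
      calc (1 : ℝ) / (Nat.totient d * od L d) = 1 / Nat.totient d * (1 / od L d) := by
            rw [one_div_mul_one_div]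
        _ ≤ 1 / Nat.totient d * (1 / (2 ^ j * k)) := mul_le_mul_of_nonneg_left h5 h6
        _ = _ := mul_comm _ _
    · exact sum_nonneg hnn
  refine key.trans ?_
  have hl3 : 0 ≤ Real.log (3 * L) := Real.log_nonneg (by
    have : (1 : ℝ) ≤ L := by exact_mod_cast hL
    linarith)
  calc ∑ j ∈ range J, 1 / (2 ^ j * (k : ℝ)) *
        ∑ d ∈ P.divisors.filter (fun d => 1 ≤ od L d ∧ od L d ≤ 2 ^ (j + 1) * k),
          (1 : ℝ) / Nat.totient d
      ≤ ∑ j ∈ range J, 1 / (2 ^ j * (k : ℝ)) *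
        (C0 * (Real.log (3 * L) + 2 * Real.log k + 2 * (j + 1) * Real.log 2) / Real.log k) :=
        sum_le_sum (fun j _ => mul_le_mul_of_nonneg_left (hB j) (by positivity))
    _ = C0 / (k * Real.log k) * ((Real.log (3 * L) + 2 * Real.log k) *
          (∑ j ∈ range J, (1 : ℝ) / 2 ^ j) +
          2 * Real.log 2 * ∑ j ∈ range J, ((j : ℝ) + 1) / 2 ^ j) := by
        rw [mul_sum, mul_sum, ← sum_add_distrib, mul_sum]
        refine sum_congr rfl (fun j _ => ?_)
        field_simp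
    _ ≤ C0 / (k * Real.log k) * ((Real.log (3 * L) + 2 * Real.log k) * 2 +
          2 * Real.log k * 4) := by
        refine mul_le_mul_of_nonneg_left ?_ (by positivity)
        have g1 := geo1 J
        have g2 := geo2 J
        have g3 : 0 ≤ ∑ j ∈ range J, ((j : ℝ) + 1) / 2 ^ j :=
          sum_nonneg (fun j _ => by positivity)
        have h7 : (Real.log (3 * L) + 2 * Real.log k) * (∑ j ∈ range J, (1 : ℝ) / 2 ^ j) ≤
            (Real.log (3 * L) + 2 * Real.log k) * 2 :=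
          mul_le_mul_of_nonneg_left g1 (by positivity)
        have h8 : 2 * Real.log 2 * ∑ j ∈ range J, ((j : ℝ) + 1) / 2 ^ j ≤ 2 * Real.log k * 4 :=
          mul_le_mul (by linarith) g2 g3 (by positivity)
        linarith
    _ ≤ 12 * C0 * (Real.log (3 * L) + Real.log k) / (k * Real.log k) := by
        rw [div_mul_eq_mul_div]
        refine div_le_div_of_nonneg_right ?_ (by positivity)
        nlinarith

end Pool.Agent.SPA

namespace Pool.Agent.SPA

namespace LCM_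

lemma dvd_lcmUpto {k m : ℕ} (h1 : 1 ≤ m) (h2 : m ≤ k) : m ∣ Nat.lcmUpto k :=
  Finset.dvd_lcm (f := id) (Finset.mem_Icc.2 ⟨h1, h2⟩)

lemma thirty {k : ℕ} (hk : 5 ≤ k) : 60 ∣ Nat.lcmUpto k := by
  have h2 : 4 ∣ Nat.lcmUpto k := dvd_lcmUpto (by norm_num) (by omega)
  have h3 : 3 ∣ Nat.lcmUpto k := dvd_lcmUpto (by norm_num) (by omega)
  have h5 : 5 ∣ Nat.lcmUpto k := dvd_lcmUpto (by norm_num) (by omega)
  omega

lemma log_le (k : ℕ) : Real.log ((Nat.lcmUpto k ^ 8 : ℕ) : ℝ) ≤ 8 * (Real.log 4 + 4) * k := by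
  have h1 := Chebyshev.psi_le_const_mul_self (x := (k : ℝ)) (Nat.cast_nonneg k)
  rw [Chebyshev.psi_eq_log_lcmUpto] at h1
  rw [Nat.cast_pow, Real.log_pow]
  push_cast
  linarith

lemma pow_lt {k r : ℕ} (hr : r.Prime) (hrk : r ≤ k) :
    k ^ 4 < r ^ ((Nat.lcmUpto k ^ 8).factorization r + 1) := by
  rw [Nat.factorization_pow, Finsupp.smul_apply, Nat.factorization_lcmUpto k hr, smul_eq_mul]
  have h1 : k < r ^ (Nat.log r k + 1) := Nat.lt_pow_succ_log_self hr.one_lt k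
  have h2 : 1 ≤ Nat.log r k := (Nat.le_log_iff_pow_le hr.one_lt (by
    have := hr.pos
    omega)).2 (by simpa using hrk)
  calc k ^ 4 < (r ^ (Nat.log r k + 1)) ^ 4 := Nat.pow_lt_pow_left h1 (by norm_num)
    _ = r ^ ((Nat.log r k + 1) * 4) := (pow_mul _ _ _).symm
    _ ≤ r ^ (8 * Nat.log r k + 1) := Nat.pow_le_pow_right hr.pos (by omega)

lemma prime_dvd {k p : ℕ} (hp : p.Prime) (hpk : p ≤ k) (h5 : p ≠ 2) :
    p ∣ 2 ^ (Nat.lcmUpto k ^ 8) - 1 := by
  have := Fact.mk hp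
  rcases Nat.lt_or_ge p 2 with h2 | h2
  · exact absurd hp.two_le (by omega)
  have h1 : p - 1 ∣ Nat.lcmUpto k ^ 8 :=
    dvd_pow (dvd_lcmUpto (by omega) (by omega)) (by norm_num)
  obtain ⟨m, hm⟩ := h1
  have h3 : (2 : ZMod p) ≠ 0 := by
    intro h0
    have h4 : ((2 : ℕ) : ZMod p) = 0 := by exact_mod_cast h0
    rw [ZMod.natCast_eq_zero_iff] at h4
    exact h5 ((Nat.prime_dvd_prime_iff_eq hp Nat.prime_two).1 h4)
  have h4 : (2 : ZMod p) ^ (Nat.lcmUpto k ^ 8) = 1 := by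
    rw [hm, pow_mul, ZMod.pow_card_sub_one_eq_one h3, one_pow]
  rw [← ZMod.natCast_eq_zero_iff, Nat.cast_sub (Nat.one_le_pow _ _ (by norm_num))]
  push_cast
  rw [h4, sub_self]

end LCM_

theorem p_LCM : T_LCM := by
  refine ⟨8 * (Real.log 4 + 4), ?_, ?_⟩
  · have := Real.log_nonneg (by norm_num : (1 : ℝ) ≤ 4)
    linarith
  · intro k hk
    have hpos : 1 ≤ Nat.lcmUpto k ^ 8 := Nat.one_le_pow _ _ (Nat.lcmUpto_pos k)
    refine ⟨Nat.lcmUpto k ^ 8, hpos, dvd_pow (LCM_.thirty hk) (by norm_num), LCM_.log_le k,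
      fun r hr hrk => LCM_.pow_lt hr hrk, ?_⟩
    intro p hp hpk
    rcases eq_or_ne p 2 with h2 | h2
    · rw [h2]
      exact Dvd.intro _ rfl
    · apply dvd_mul_of_dvd_right
      exact LCM_.prime_dvd hp hpk h2

end Pool.Agent.SPA

namespace Pool.Agent.SPA

open Filter Topology in
theorem p_GSM' (h1 : T_GS1) (h2 : T_GS2) (h3 : T_LCM) : T_GSM := by
  intro ε hε
  obtain ⟨C2, hC2, hG2⟩ := h2
  obtain ⟨C, hC, hL⟩ := h3
  have t1 : Tendsto (fun k : ℕ => Real.exp ((C + 7) / (k : ℝ)) - 1) atTop (𝓝 0) := by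
    have h := (Real.continuous_exp.tendsto 0).comp (tendsto_const_div_atTop_nhds_zero_nat (C + 7))
    rw [Real.exp_zero] at h
    simpa using h.sub_const 1
  have t2 : Tendsto (fun k : ℕ => C2 * (C + 4) / Real.log (k : ℝ)) atTop (𝓝 0) :=
    (Real.tendsto_log_atTop.comp tendsto_natCast_atTop_atTop).const_div_atTop _
  obtain ⟨k, hk5, hk1, hk2⟩ := ((eventually_ge_atTop 5).and
    (((t1.eventually (gt_mem_nhds (half_pos hε)))).and
      (t2.eventually (gt_mem_nhds (half_pos hε))))).exists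
  obtain ⟨L, hL1, hL30, hLlog, hLr, hLp⟩ := hL k hk5
  refine ⟨L, hL1, hL30, fun S hS => ?_⟩
  have hk0 : (0 : ℝ) < k := by exact_mod_cast (by omega : 0 < k)
  have hk1' : (1 : ℝ) ≤ k := by exact_mod_cast (by omega : 1 ≤ k)
  have hL0 : (0 : ℝ) < L := by exact_mod_cast (by omega : 0 < L)
  have hlk : 0 < Real.log k := Real.log_pos (by exact_mod_cast (by omega : 1 < k))
  have hlkk : Real.log k ≤ k := (Real.log_le_sub_one_of_pos hk0).trans (by linarith)
  have hl3 : Real.log 3 ≤ 2 := (Real.log_le_sub_one_of_pos (by norm_num)).trans (by norm_num)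
  have g1 := h1 L k S hL1 (by omega) hLr hS
  have g2 := hG2 L k S hL1 (by omega) (fun p hp => by
    refine ⟨(hS p hp).1, (hS p hp).2, ?_⟩
    by_contra hcon
    exact (hS p hp).2 (hLp p (hS p hp).1 (by omega)))
  have hsplit : GS L S ≤ ∑ d ∈ ((∏ p ∈ S, p).divisors.erase 1).filter (fun d => od L d ≤ k),
      (1 : ℝ) / (Nat.totient d * od L d) + ∑ d ∈ (∏ p ∈ S, p).divisors.filter
        (fun d => k < od L d), (1 : ℝ) / (Nat.totient d * od L d) := by
    rw [GS, ← sum_filter_add_sum_filter_not _ (fun d => od L d ≤ k)]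
    refine add_le_add le_rfl ?_
    refine sum_le_sum_of_subset_of_nonneg (fun d hd => ?_) (fun d _ _ => by positivity)
    obtain ⟨hd1, hd2⟩ := mem_filter.1 hd
    exact mem_filter.2 ⟨(mem_erase.1 hd1).2, not_le.1 hd2⟩
  have e1 : Real.exp ((1 + Real.log (3 * L * k ^ 2)) / k ^ 3) - 1 ≤
      Real.exp ((C + 7) / (k : ℝ)) - 1 := by
    refine sub_le_sub_right (Real.exp_le_exp.2 ?_) 1
    have : Real.log (3 * L * k ^ 2) = Real.log 3 + Real.log L + 2 * Real.log k := by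
      rw [Real.log_mul (by positivity) (by positivity), Real.log_mul (by norm_num) hL0.ne',
        Real.log_pow]
      push_cast
      ring
    rw [this, div_le_div_iff₀ (by positivity) hk0]
    have h4 : 1 + (Real.log 3 + Real.log L + 2 * Real.log k) ≤ (C + 7) * k := by nlinarith
    have h5 : (k : ℝ) ≤ k ^ 2 := by nlinarith
    calc (1 + (Real.log 3 + Real.log L + 2 * Real.log k)) * k ≤ (C + 7) * k * k :=
          mul_le_mul_of_nonneg_right h4 hk0.le
      _ = (C + 7) * k ^ 2 := by ring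
      _ ≤ (C + 7) * k ^ 3 := by
          refine mul_le_mul_of_nonneg_left ?_ (by positivity)
          exact pow_le_pow_right₀ hk1' (by norm_num)
  have e2 : C2 * (Real.log (3 * L) + Real.log k) / (k * Real.log k) ≤
      C2 * (C + 4) / Real.log (k : ℝ) := by
    rw [Real.log_mul (by norm_num) hL0.ne', div_le_div_iff₀ (by positivity) hlk]
    have h4 : Real.log 3 + Real.log L + Real.log k ≤ (C + 4) * k := by nlinarith
    calc C2 * (Real.log 3 + Real.log L + Real.log k) * Real.log k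
        ≤ C2 * ((C + 4) * k) * Real.log k := by
          refine mul_le_mul_of_nonneg_right (mul_le_mul_of_nonneg_left h4 hC2.le) hlk.le
      _ = C2 * (C + 4) * (k * Real.log k) := by ring
  linarith

theorem p_GSM (h1 : T_MER) (h2 : T_EXP) : T_GSM := p_GSM' (p_GS1 h2) (p_GS2 h1) p_LCM

end Pool.Agent.SPA
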