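import Pool.Agent.SPA.Targets

/-!
SPA: MOM, the second moment (MP_315051_nt).
-/

set_option autoImplicit false

open Finset
open Pool.Agent.TSP (Per rho)
open Pool.Agent.Tri5 (T_MER T_EXP)

namespace Pool.Agent.SPA

namespace MOM_

theorem sym_sum (C : ℕ → ℕ → ℝ) (hC : ∀ s t, C s t = C t s) (T : ℕ) :
    ∑ t ∈ range T, ∑ u ∈ range T, C t u =
      ∑ t ∈ range T, C t t + 2 * ∑ t ∈ range T, ∑ u ∈ range t, C u t := by
  induction T with
  | zero => simp
  | succ T ih =>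
    have h1 : ∑ t ∈ range (T + 1), ∑ u ∈ range (T + 1), C t u =
        ∑ t ∈ range T, ∑ u ∈ range T, C t u + ∑ t ∈ range T, C t T
          + (∑ u ∈ range T, C T u + C T T) := by
      rw [sum_range_succ, sum_range_succ (fun u => C T u)]
      congr 1
      rw [← sum_add_distrib]
      refine sum_congr rfl fun t _ => ?_
      rw [sum_range_succ]
    have h2 : ∑ u ∈ range T, C T u = ∑ t ∈ range T, C t T :=
      sum_congr rfl fun u _ => hC T u
    rw [h1, ih, h2, sum_range_succ (fun t => C t t),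
      sum_range_succ (fun t => ∑ u ∈ range t, C u t)]
    ring

theorem sum_id (T : ℕ) : 2 * ∑ t ∈ range T, (t : ℝ) ≤ (T : ℝ) ^ 2 := by
  induction T with
  | zero => simp
  | succ T ih =>
    rw [sum_range_succ]
    push_cast
    nlinarith

theorem reindex (F : ℕ → ℝ) (t : ℕ) :
    ∑ u ∈ range t, F (t - u) = ∑ h ∈ Icc 1 t, F h := by
  refine sum_nbij' (fun u => t - u) (fun h => t - h) ?_ ?_ ?_ ?_ ?_
  · intro u hu
    rw [mem_range] at hu
    simp only [mem_Icc]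
    omega
  · intro h hh
    rw [mem_Icc] at hh
    simp only [mem_range]
    omega
  · intro u hu
    rw [mem_range] at hu
    omega
  · intro h hh
    rw [mem_Icc] at hh
    omega
  · intro u _
    rfl

theorem dvd15 (L : ℕ) (h : 60 ∣ L) : 15 ∣ 2 ^ L - 1 := by
  obtain ⟨m, rfl⟩ := h
  have h1 := Nat.sub_dvd_pow_sub_pow (2 ^ 4) 1 (15 * m)
  rw [one_pow, ← pow_mul] at h1
  have h2 : 4 * (15 * m) = 60 * m := by ring
  rw [h2] at h1
  norm_num at h1
  exact h1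

theorem seven_le (L p : ℕ) (hL : 60 ∣ L) (hp : p.Prime) (h : ¬ p ∣ 2 * (2 ^ L - 1)) :
    7 ≤ p := by
  by_contra hc
  have h15 := dvd15 L hL
  have h3 : 3 ∣ 2 * (2 ^ L - 1) := Dvd.dvd.mul_left (dvd_trans (by norm_num) h15) 2
  have h5 : 5 ∣ 2 * (2 ^ L - 1) := Dvd.dvd.mul_left (dvd_trans (by norm_num) h15) 2
  have h2 : 2 ∣ 2 * (2 ^ L - 1) := dvd_mul_right _ _
  have hlt : p < 7 := by omega
  interval_cases p
  · exact absurd hp (by norm_num)
  · exact absurd hp (by norm_num)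
  · exact h h2
  · exact h h3
  · exact absurd hp (by norm_num)
  · exact h h5
  · exact absurd hp (by norm_num)

end MOM_

open MOM_ in
theorem p_MOM (h1 : T_GSM) (h2 : T_SH) (h3 : T_FL) (h4 : T_RH1) (h5 : T_RH2) (h6 : T_PR2) :
    T_MOM := by
  classical
  intro ε hε
  obtain ⟨e, he0, he1, heε⟩ : ∃ e : ℝ, 0 < e ∧ e ≤ 1 ∧ e ≤ ε :=
    ⟨min ε 1, lt_min hε one_pos, min_le_right _ _, min_le_left _ _⟩
  obtain ⟨δ, hδ⟩ : ∃ δ : ℝ, δ = e / 16 := ⟨_, rfl⟩
  have hδ0 : 0 < δ := by rw [hδ]; positivity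
  have hδ1 : δ ≤ 1 / 16 := by rw [hδ]; linarith
  obtain ⟨L, hL1, hL60, hBG⟩ := h1 δ hδ0
  obtain ⟨s, z0, hs, hfl⟩ := h3 δ hδ0
  refine ⟨L, s, max z0 1, 1 / δ, hL1, hs, by positivity, ?_⟩
  intro z Y T κ a hz hY hB
  have hz0 : z0 ≤ z := le_trans (le_max_left _ _) hz
  have hz1 : 1 ≤ z := le_trans (le_max_right _ _) hz
  have hY1 : 1 ≤ Y := le_trans (Nat.one_le_pow _ _ hz1) hY
  have hY0 : (0 : ℝ) < Y := by exact_mod_cast hY1
  have hS : ∀ p ∈ PS L z, p.Prime ∧ 7 ≤ p ∧ p ≤ z ∧ ¬ p ∣ 2 * (2 ^ L - 1) := by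
    intro p hp
    rw [PS, mem_filter, mem_Icc] at hp
    exact ⟨hp.2.1, seven_le L p hL60 hp.2.1 hp.2.2, hp.1.2, hp.2.2⟩
  have hV0 : 0 < VV L z := by
    refine prod_pos fun p hp => ?_
    have h7 : (7 : ℝ) ≤ p := by exact_mod_cast (hS p hp).2.1
    have : 1 / (p : ℝ) < 1 := by
      rw [div_lt_one (by linarith)]
      linarith
    linarith
  obtain ⟨V, hV⟩ : ∃ V : ℝ, V = VV L z := ⟨_, rfl⟩
  rw [← hV] at hB hV0
  have hT0 : (0 : ℝ) < T := by
    by_contra hc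
    have hc' : (T : ℝ) ≤ 0 := not_lt.1 hc
    have h0 : (0 : ℝ) < 1 / δ := by positivity
    have := mul_nonpos_of_nonpos_of_nonneg hc' hV0.le
    linarith
  -- no prime of the sieve divides the modulus
  have hM : ∀ p ∈ PS L z, ∀ n : ℕ, ¬ p ∣ MM L * 2 ^ n := by
    intro p hp n hd
    rcases (Nat.Prime.dvd_mul (hS p hp).1).1 hd with h | h
    · exact (hS p hp).2.2.2 h
    · have h2' := (hS p hp).1.dvd_of_dvd_pow h
      exact (hS p hp).2.2.2 (h2'.trans (dvd_mul_right _ _))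
  have hM2 : ∀ p ∈ PS L z, ¬ p ∣ 2 * MM L := by
    intro p hp hd
    have := hM p hp 1
    rw [pow_one, mul_comm] at this
    exact this hd
  -- the indicator
  obtain ⟨G, hG⟩ : ∃ G : ℕ → ℕ → ℝ, G = fun t j =>
      xx (fun p j => p ∣ (κ + MM L * j) * 2 ^ (a + L * t) + 1) (PS L z) j := ⟨_, rfl⟩
  have hG01 : ∀ t j, G t j = 0 ∨ G t j = 1 := by
    intro t j
    rw [hG]
    simp only [xx]
    split_ifs
    · exact Or.inr rfl
    · exact Or.inl rfl
  have hG0 : ∀ t j, ¬ Gd L z a (κ + MM L * j) t → G t j = 0 := by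
    intro t j h
    rw [hG]
    simp only [xx]
    rw [if_neg]
    exact h
  have hGsq : ∀ t j, G t j * G t j = G t j := by
    intro t j
    rcases hG01 t j with h | h <;> rw [h] <;> norm_num
  -- the first moment
  have hfirst : ∀ t, |∑ j ∈ Ioc 0 Y, G t j - Y * V| ≤ δ * (Y * V) := by
    intro t
    have hr : ∀ p ∈ PS L z,
        rho (fun p j => p ∣ (κ + MM L * j) * 2 ^ (a + L * t) + 1) p = 1 := fun p hp =>
      (h4 κ (MM L) (2 ^ (a + L * t))).2 p (hS p hp).1 (hM p hp _)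
    have h := hfl (fun p j => p ∣ (κ + MM L * j) * 2 ^ (a + L * t) + 1)
      (h4 κ (MM L) (2 ^ (a + L * t))).1 (PS L z) z 0 Y hz0 hY (fun p hp =>
        ⟨(hS p hp).1, (hS p hp).2.1, (hS p hp).2.2.1, by rw [hr p hp]; norm_num⟩)
    rw [zero_add] at h
    have hp : ∏ p ∈ PS L z,
        (1 - ((rho (fun p j => p ∣ (κ + MM L * j) * 2 ^ (a + L * t) + 1) p : ℕ) : ℝ) / p) = V := by
      rw [hV, VV]
      refine prod_congr rfl fun p hp => ?_
      rw [hr p hp]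
      norm_num
    rw [hp] at h
    rw [hG]
    exact h
  -- the pairs
  obtain ⟨F, hF⟩ : ∃ F : ℕ → ℝ, F = fun h =>
      ∏ p ∈ (PS L z).filter (fun p => p ∣ 2 ^ (L * h) - 1), (1 + 1 / ((p : ℝ) - 1)) := ⟨_, rfl⟩
  have hpair : ∀ u h, ∑ j ∈ Ioc 0 Y, G u j * G (u + h) j ≤ (1 + δ) * Y * V ^ 2 * F h := by
    intro u h
    have hr : ∀ p ∈ PS L z,
        rho (fun p j => p ∣ (κ + MM L * j) * 2 ^ (a + L * u) + 1 ∨
          p ∣ (κ + MM L * j) * 2 ^ (a + L * u + L * h) + 1) p =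
          if p ∣ 2 ^ (L * h) - 1 then 1 else 2 := fun p hp =>
      (h5 κ (MM L) (a + L * u) (L * h)).2 p (hS p hp).1 (hM2 p hp)
    have hh := hfl (fun p j => p ∣ (κ + MM L * j) * 2 ^ (a + L * u) + 1 ∨
          p ∣ (κ + MM L * j) * 2 ^ (a + L * u + L * h) + 1)
      (h5 κ (MM L) (a + L * u) (L * h)).1 (PS L z) z 0 Y hz0 hY (fun p hp =>
        ⟨(hS p hp).1, (hS p hp).2.1, (hS p hp).2.2.1, by
          rw [hr p hp]
          split_ifs <;> norm_num⟩)
    rw [zero_add] at hh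
    have hp : ∏ p ∈ PS L z,
        (1 - ((rho (fun p j => p ∣ (κ + MM L * j) * 2 ^ (a + L * u) + 1 ∨
          p ∣ (κ + MM L * j) * 2 ^ (a + L * u + L * h) + 1) p : ℕ) : ℝ) / p) ≤ V ^ 2 * F h := by
      have h6' := h6 (PS L z) (2 ^ (L * h) - 1) (fun p hp =>
        ⟨(hS p hp).1, le_trans (by norm_num) (hS p hp).2.1⟩)
      have hl : ∏ p ∈ PS L z,
        (1 - ((rho (fun p j => p ∣ (κ + MM L * j) * 2 ^ (a + L * u) + 1 ∨
          p ∣ (κ + MM L * j) * 2 ^ (a + L * u + L * h) + 1) p : ℕ) : ℝ) / p) =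
        ∏ p ∈ PS L z, (1 - ((if p ∣ 2 ^ (L * h) - 1 then 1 else 2 : ℕ) : ℝ) / p) :=
        prod_congr rfl fun p hp => by rw [hr p hp]
      rw [hl, hV, VV, hF]
      exact h6'
    have hx : ∀ j, G u j * G (u + h) j = xx (fun p j =>
          p ∣ (κ + MM L * j) * 2 ^ (a + L * u) + 1 ∨
          p ∣ (κ + MM L * j) * 2 ^ (a + L * u + L * h) + 1) (PS L z) j := by
      intro j
      have hadd : a + L * (u + h) = a + L * u + L * h := by ring
      rw [hG]
      simp only [xx, hadd]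
      by_cases hA : ∀ l ∈ PS L z, ¬ l ∣ (κ + MM L * j) * 2 ^ (a + L * u) + 1
      · by_cases hB' : ∀ l ∈ PS L z, ¬ l ∣ (κ + MM L * j) * 2 ^ (a + L * u + L * h) + 1
        · rw [if_pos hA, if_pos hB', if_pos, mul_one]
          intro l hl hc
          rcases hc with hc | hc
          · exact hA l hl hc
          · exact hB' l hl hc
        · have hneg : ¬ ∀ l ∈ PS L z, ¬ (l ∣ (κ + MM L * j) * 2 ^ (a + L * u) + 1 ∨
              l ∣ (κ + MM L * j) * 2 ^ (a + L * u + L * h) + 1) := fun hc =>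
            hB' fun l hl hd => hc l hl (Or.inr hd)
          rw [if_neg hB', if_neg hneg, mul_zero]
      · have hneg : ¬ ∀ l ∈ PS L z, ¬ (l ∣ (κ + MM L * j) * 2 ^ (a + L * u) + 1 ∨
            l ∣ (κ + MM L * j) * 2 ^ (a + L * u + L * h) + 1) := fun hc =>
          hA fun l hl hd => hc l hl (Or.inl hd)
        rw [if_neg hA, if_neg hneg, zero_mul]
    have hup := (abs_le.1 hh).2
    rw [sum_congr rfl fun j _ => hx j]
    have hY' : (0 : ℝ) ≤ (1 + δ) * Y := by positivity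
    have := mul_le_mul_of_nonneg_left hp hY'
    nlinarith [this, hup]
  -- sum over the smaller index
  have hinner : ∀ t, ∑ u ∈ range t, ∑ j ∈ Ioc 0 Y, G u j * G t j ≤
      (1 + δ) * Y * V ^ 2 * (t * (1 + δ)) := by
    intro t
    have hle : ∀ u ∈ range t, ∑ j ∈ Ioc 0 Y, G u j * G t j ≤
        (1 + δ) * Y * V ^ 2 * F (t - u) := by
      intro u hu
      have hu' := mem_range.1 hu
      have := hpair u (t - u)
      rw [Nat.add_sub_cancel' hu'.le] at this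
      exact this
    refine le_trans (sum_le_sum hle) ?_
    rw [← mul_sum, reindex F t, hF]
    refine mul_le_mul_of_nonneg_left ?_ (by positivity)
    exact h2 L δ hL1 hBG (PS L z) (fun p hp => ⟨(hS p hp).1, (hS p hp).2.2.2⟩) t
  -- the second moment
  obtain ⟨R, hR⟩ : ∃ R : ℕ → ℝ, R = fun j => ∑ t ∈ range T, G t j := ⟨_, rfl⟩
  have hsq : ∑ j ∈ Ioc 0 Y, R j ^ 2 ≤ (1 + δ) * Y * (T * V) ^ 2 * (1 + 2 * δ) := by
    have e1 : ∑ j ∈ Ioc 0 Y, R j ^ 2 =
        ∑ t ∈ range T, ∑ u ∈ range T, ∑ j ∈ Ioc 0 Y, G t j * G u j := by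
      have : ∀ j, R j ^ 2 = ∑ t ∈ range T, ∑ u ∈ range T, G t j * G u j := by
        intro j
        rw [hR, sq, sum_mul_sum]
      rw [sum_congr rfl fun j _ => this j, sum_comm]
      refine sum_congr rfl fun t _ => ?_
      rw [sum_comm]
    rw [e1, sym_sum (fun t u => ∑ j ∈ Ioc 0 Y, G t j * G u j)
      (fun s t => sum_congr rfl fun j _ => mul_comm _ _) T]
    have d1 : ∑ t ∈ range T, ∑ j ∈ Ioc 0 Y, G t j * G t j ≤ T * ((1 + δ) * Y * V) := by
      have : ∀ t ∈ range T, ∑ j ∈ Ioc 0 Y, G t j * G t j ≤ (1 + δ) * Y * V := by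
        intro t _
        rw [sum_congr rfl fun j _ => hGsq t j]
        have := (abs_le.1 (hfirst t)).2
        linarith
      refine le_trans (sum_le_sum this) ?_
      rw [sum_const, card_range, nsmul_eq_mul]
    have d2 : ∑ t ∈ range T, ∑ u ∈ range t, ∑ j ∈ Ioc 0 Y, G u j * G t j ≤
        (1 + δ) * Y * V ^ 2 * (1 + δ) * ∑ t ∈ range T, (t : ℝ) := by
      refine le_trans (sum_le_sum fun t _ => hinner t) ?_
      rw [mul_sum]
      refine sum_le_sum fun t _ => ?_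
      linarith
    have d3 := sum_id T
    have hc : (0 : ℝ) ≤ (1 + δ) * Y * V ^ 2 * (1 + δ) := by positivity
    have d4 := mul_le_mul_of_nonneg_left d3 hc
    have d5 : (T : ℝ) * V ≤ δ * (T * V) ^ 2 := by
      have hTV : 0 < (T : ℝ) * V := mul_pos hT0 hV0
      have : 1 ≤ δ * (T * V) := by
        have := mul_le_mul_of_nonneg_left hB hδ0.le
        rwa [mul_one_div_cancel hδ0.ne'] at this
      nlinarith
    have d6 := mul_le_mul_of_nonneg_left d5 (show (0 : ℝ) ≤ (1 + δ) * Y by positivity)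
    nlinarith
  -- the first moment of R
  have hsum : (1 - δ) * (T * (Y * V)) ≤ ∑ j ∈ Ioc 0 Y, R j := by
    rw [hR]
    rw [sum_comm]
    have : ∀ t ∈ range T, (1 - δ) * (Y * V) ≤ ∑ j ∈ Ioc 0 Y, G t j := by
      intro t _
      have := (abs_le.1 (hfirst t)).1
      linarith
    refine le_trans ?_ (sum_le_sum this)
    rw [sum_const, card_range, nsmul_eq_mul]
    linarith
  -- Cauchy-Schwarz
  obtain ⟨E, hE⟩ : ∃ E : Finset ℕ, E = (Ioc 0 Y).filter fun j =>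
      ∀ t < T, ¬ Gd L z a (κ + MM L * j) t := ⟨_, rfl⟩
  have hEsub : E ⊆ Ioc 0 Y := by rw [hE]; exact filter_subset _ _
  have hRE : ∀ j ∈ E, R j = 0 := by
    intro j hj
    rw [hE, mem_filter] at hj
    rw [hR]
    refine sum_eq_zero fun t ht => ?_
    exact hG0 t j (hj.2 t (mem_range.1 ht))
  have hcard : ((Ioc 0 Y \ E).card : ℝ) = Y - E.card := by
    rw [card_sdiff_of_subset hEsub, Nat.card_Ioc, Nat.sub_zero, Nat.cast_sub]
    have := card_le_card hEsub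
    rwa [Nat.card_Ioc, Nat.sub_zero] at this
  have hsumJ : ∑ j ∈ Ioc 0 Y \ E, R j = ∑ j ∈ Ioc 0 Y, R j := by
    refine sum_subset sdiff_subset fun j hj hj' => ?_
    refine hRE j ?_
    by_contra hc
    exact hj' (mem_sdiff.2 ⟨hj, hc⟩)
  have hcs : (∑ j ∈ Ioc 0 Y, R j) ^ 2 ≤ (Y - E.card) * ∑ j ∈ Ioc 0 Y, R j ^ 2 := by
    rw [← hsumJ, ← hcard]
    refine le_trans sq_sum_le_card_mul_sum_sq ?_
    refine mul_le_mul_of_nonneg_left ?_ (by positivity)
    exact sum_le_sum_of_subset_of_nonneg sdiff_subset fun j _ _ => sq_nonneg _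
  have hJ0 : (0 : ℝ) ≤ Y - E.card := by rw [← hcard]; positivity
  have hTV : 0 < (T : ℝ) * V := mul_pos hT0 hV0
  have hδ1' : 0 ≤ 1 - δ := by linarith
  have hlow : ((1 - δ) * (T * (Y * V))) ^ 2 ≤ (∑ j ∈ Ioc 0 Y, R j) ^ 2 := by
    refine pow_le_pow_left₀ ?_ hsum 2
    positivity
  have hfin : ((1 - δ) * (T * (Y * V))) ^ 2 ≤
      (Y - E.card) * ((1 + δ) * Y * (T * V) ^ 2 * (1 + 2 * δ)) :=
    hlow.trans (hcs.trans (mul_le_mul_of_nonneg_left hsq hJ0))
  have hfin2 : (1 - δ) ^ 2 * Y ≤ (Y - E.card) * ((1 + δ) * (1 + 2 * δ)) := by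
    have hq : (0 : ℝ) < Y * (T * V) ^ 2 := by positivity
    refine le_of_mul_le_mul_right ?_ hq
    calc (1 - δ) ^ 2 * Y * (Y * (T * V) ^ 2) = ((1 - δ) * (T * (Y * V))) ^ 2 := by ring
      _ ≤ _ := hfin
      _ = _ := by ring
  have hgoal : (E.card : ℝ) ≤ ε * Y := by
    have hpoly : (1 - 16 * δ) * ((1 + δ) * (1 + 2 * δ)) ≤ (1 - δ) ^ 2 := by
      nlinarith [sq_nonneg δ, mul_pos hδ0 (mul_pos hδ0 hδ0)]
    have h7 : (1 - 16 * δ) * Y * ((1 + δ) * (1 + 2 * δ)) ≤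
        (Y - E.card) * ((1 + δ) * (1 + 2 * δ)) := by
      refine le_trans ?_ hfin2
      have := mul_le_mul_of_nonneg_right hpoly hY0.le
      linarith
    have h8 : (1 - 16 * δ) * Y ≤ Y - E.card :=
      le_of_mul_le_mul_right h7 (by positivity)
    have h9 : 16 * δ = e := by rw [hδ]; ring
    have h10 : e * Y ≤ ε * Y := mul_le_mul_of_nonneg_right heε hY0.le
    rw [h9] at h8
    linarith
  rw [hE] at hgoal
  convert hgoal

end Pool.Agent.SPA
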