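import Pool.Agent.SPA.Targets

/-!
OPC: a number which is not open is covered by the primes dividing `2 ^ L - 1`.
-/

set_option autoImplicit false

open Finset

namespace Pool.Agent.SPA

theorem p_OPC : T_OPC := by
  intro L k hL hop n hn
  have ha1 : 1 ≤ (n - 1) % L + 1 := by omega
  have haL : (n - 1) % L + 1 ≤ L := by
    have := Nat.mod_lt (n - 1) (show 0 < L by omega)
    omega
  have hn' : n = ((n - 1) % L + 1) + L * ((n - 1) / L) := by
    have := Nat.mod_add_div (n - 1) L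
    omega
  generalize (n - 1) % L + 1 = a at ha1 haL hn'
  generalize (n - 1) / L = t at hn'
  have hc : ¬ Nat.Coprime (k * 2 ^ a + 1) (2 ^ L - 1) := fun h => hop ⟨a, ha1, haL, h⟩
  obtain ⟨p, hp, h1, h2⟩ := Nat.Prime.not_coprime_iff_dvd.1 hc
  refine ⟨p, hp, h2, ?_⟩
  have h3 : 2 ^ L ≡ 1 [MOD p] :=
    ((Nat.modEq_iff_dvd' (Nat.one_le_two_pow)).2 h2).symm
  have h4 : k * 2 ^ n + 1 ≡ k * 2 ^ a + 1 [MOD p] := by
    rw [hn', pow_add, pow_mul]
    have h5 : (2 ^ L) ^ t ≡ 1 [MOD p] := by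
      have := h3.pow t
      rwa [one_pow] at this
    have h6 := ((h5.mul_left (2 ^ a)).mul_left k).add_right 1
    rwa [mul_one] at h6
  exact (Nat.modEq_zero_iff_dvd).1 (h4.trans (Nat.modEq_zero_iff_dvd.2 h1))

end Pool.Agent.SPA
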