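import Pool.Agent.SPA.Targets

/-!
SPA: POS, positivity of the constant (MP_315051_nt).
-/

set_option autoImplicit false

open Finset
open Pool.Agent.TSP (Per rho)
open Pool.Agent.Tri5 (T_MER T_EXP)

namespace Pool.Agent.SPA

namespace POS_

theorem sym_sum (C : ℕ → ℕ → ℝ) (hC : ∀ s t, C s t = C t s) (T : ℕ) :
    ∑ t ∈ range T, ∑ u ∈ range T, C t u =
      ∑ t ∈ range T, C t t + 2 * ∑ t ∈ range T, ∑ u ∈ range t, C u t := by
  induction T with
  | zero => simp
  | succ T ih =>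
    have h1 : ∑ t ∈ range (T + 1), ∑ u ∈ range (T + 1), C t u =
        ∑ t ∈ range T, ∑ u ∈ range T, C t u + ∑ t ∈ range T, C t T
          + (∑ u ∈ range T, C T u + C T T) := by
      rw [sum_range_succ, sum_range_succ (fun u => C T u)]
      congr 1
      rw [← sum_add_distrib]
      refine sum_congr rfl fun t _ => ?_
      rw [sum_range_succ]
    have h2 : ∑ u ∈ range T, C T u = ∑ t ∈ range T, C t T :=
      sum_congr rfl fun u _ => hC T u
    rw [h1, ih, h2, sum_range_succ (fun t => C t t),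
      sum_range_succ (fun t => ∑ u ∈ range t, C u t)]
    ring

theorem sum_id (T : ℕ) : 2 * ∑ t ∈ range T, (t : ℝ) ≤ (T : ℝ) ^ 2 := by
  induction T with
  | zero => simp
  | succ T ih =>
    rw [sum_range_succ]
    push_cast
    nlinarith

theorem reindex (F : ℕ → ℝ) (t : ℕ) :
    ∑ u ∈ range t, F (t - u) = ∑ h ∈ Icc 1 t, F h := by
  refine sum_nbij' (fun u => t - u) (fun h => t - h) ?_ ?_ ?_ ?_ ?_
  · intro u hu
    rw [mem_range] at hu
    simp only [mem_Icc]
    omega
  · intro h hh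
    rw [mem_Icc] at hh
    simp only [mem_range]
    omega
  · intro u hu
    rw [mem_range] at hu
    omega
  · intro h hh
    rw [mem_Icc] at hh
    omega
  · intro u _
    rfl

theorem prod_low (S : Finset ℕ) : (∀ p ∈ S, 2 ≤ p) →
    1 / ((S.card : ℝ) + 1) ≤ ∏ p ∈ S, (1 - 1 / (p : ℝ)) := by
  refine Finset.induction_on_max S (by simp) ?_
  · intro a s ha ih h2
    have has : a ∉ s := fun h => lt_irrefl _ (ha a h)
    have ih' := ih (fun p hp => h2 p (mem_insert_of_mem hp))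
    have hcard : s.card + 2 ≤ a := by
      have hsub : s ⊆ Ico 2 a := fun p hp => mem_Ico.2 ⟨h2 p (mem_insert_of_mem hp), ha p hp⟩
      have h3 := card_le_card hsub
      rw [Nat.card_Ico] at h3
      have ha2 := h2 a (mem_insert_self _ _)
      omega
    rw [prod_insert has, card_insert_of_notMem has]
    push_cast
    have ha' : (s.card : ℝ) + 2 ≤ a := by exact_mod_cast hcard
    have hs0 : (0 : ℝ) ≤ s.card := Nat.cast_nonneg _
    have h1 : 1 - 1 / ((s.card : ℝ) + 2) ≤ 1 - 1 / (a : ℝ) := by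
      have : 1 / (a : ℝ) ≤ 1 / ((s.card : ℝ) + 2) :=
        one_div_le_one_div_of_le (by linarith) ha'
      linarith
    have h0 : 0 ≤ 1 - 1 / ((s.card : ℝ) + 2) := by
      have : 1 / ((s.card : ℝ) + 2) ≤ 1 := by
        rw [div_le_one (by linarith)]
        linarith
      linarith
    calc 1 / ((s.card : ℝ) + 1 + 1)
        = (1 - 1 / ((s.card : ℝ) + 2)) * (1 / ((s.card : ℝ) + 1)) := by
          have e1 : (s.card : ℝ) + 1 ≠ 0 := by linarith
          have e2 : (s.card : ℝ) + 2 ≠ 0 := by linarith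
          have e3 : (s.card : ℝ) + 1 + 1 ≠ 0 := by linarith
          field_simp
          ring
      _ ≤ (1 - 1 / (a : ℝ)) * ∏ p ∈ s, (1 - 1 / (p : ℝ)) :=
          mul_le_mul h1 ih' (by positivity) (le_trans h0 h1)

theorem card_mul (P : ℕ → Prop) [DecidablePred P] (Q t : ℕ) (hp : ∀ n, P (Q + n) ↔ P n) :
    ((range (Q * t)).filter P).card = t * ((range Q).filter P).card := by
  rw [← Nat.count_eq_card_filter_range, ← Nat.count_eq_card_filter_range]
  induction t with
  | zero => simp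
  | succ t ih =>
    have h1 : Q * (t + 1) = Q + Q * t := by ring
    rw [h1, Nat.count_add]
    simp only [hp]
    rw [ih]
    ring

theorem cnt_good (bad : ℕ → ℕ → Prop) (hper : Per bad) (S : Finset ℕ)
    (hS : ∀ p ∈ S, p.Prime) (d : DecidablePred fun k => ∀ p ∈ S, ¬ bad p k) :
    (((range (∏ p ∈ S, p)).filter (fun k => ∀ p ∈ S, ¬ bad p k)).card : ℝ) =
      (∏ p ∈ S, (p : ℝ)) * ∏ p ∈ S, (1 - (rho bad p : ℝ) / p) := by
  classical
  have h := Pool.Agent.TSP.card_period (bad := fun p k => ¬ bad p k)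
    (fun l n => not_congr (hper l n)) S hS
  have h' : ((range (∏ p ∈ S, p)).filter (fun k => ∀ p ∈ S, ¬ bad p k)).card =
      ∏ p ∈ S, rho (fun p k => ¬ bad p k) p := by
    rw [← h]
    congr
  rw [h']
  push_cast
  rw [← prod_mul_distrib]
  apply prod_congr rfl
  intro p hp
  have hp0 : (p : ℝ) ≠ 0 := by
    exact_mod_cast (hS p hp).pos.ne'
  have h2 : rho bad p + rho (fun p k => ¬ bad p k) p = p := by
    unfold rho
    have h3 := card_filter_add_card_filter_not (s := range p) (bad p)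
    rw [card_range] at h3
    convert h3 using 2
    congr!
  have h4 : (rho bad p : ℝ) + (rho (fun p k => ¬ bad p k) p : ℝ) = p := by exact_mod_cast h2
  field_simp
  linarith

theorem odd_m (L : ℕ) (hL : 1 ≤ L) : ¬ 2 ∣ 2 ^ L - 1 := by
  intro h
  have h1 : 2 ∣ 2 ^ L := dvd_pow_self 2 (by omega)
  have h2 : 1 ≤ 2 ^ L := Nat.one_le_two_pow
  omega

end POS_

open POS_ in
theorem p_POS (h1 : T_BG1) (h2 : T_SH) (h3 : T_RH2) (h4 : T_PR2) : T_POS := by
  classical
  obtain ⟨g, hg, hBG⟩ := h1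
  refine ⟨1 / (2 * (5 + g)), by positivity, ?_⟩
  intro L hL
  obtain ⟨m, hm⟩ : ∃ m : ℕ, m = 2 ^ L - 1 := ⟨_, rfl⟩
  have hm2 : ¬ 2 ∣ m := hm ▸ odd_m L hL
  have hm1 : 1 ≤ m := by
    rcases Nat.eq_zero_or_pos m with h | h
    · exact absurd (h ▸ dvd_zero 2) hm2
    · exact h
  obtain ⟨S, hS⟩ : ∃ S : Finset ℕ, S = m.primeFactors := ⟨_, rfl⟩
  have hSp : ∀ p ∈ S, p.Prime := fun p hp => by
    rw [hS] at hp
    exact Nat.prime_of_mem_primeFactors hp
  have hSd : ∀ p ∈ S, p ∣ m := fun p hp => by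
    rw [hS] at hp
    exact Nat.dvd_of_mem_primeFactors hp
  have hS2 : ∀ p ∈ S, p ≠ 2 := by
    rintro p hp rfl
    exact hm2 (hSd 2 hp)
  have hS3 : ∀ p ∈ S, 3 ≤ p := fun p hp => by
    have a1 := (hSp p hp).two_le
    have a2 := hS2 p hp
    omega
  have hSn : ∀ p ∈ S, ¬ p ∣ 2 := fun p hp h => by
    have a1 := Nat.le_of_dvd (by norm_num) h
    have a2 := hS3 p hp
    omega
  obtain ⟨Q, hQ⟩ : ∃ Q : ℕ, Q = ∏ p ∈ S, p := ⟨_, rfl⟩
  obtain ⟨V, hV⟩ : ∃ V : ℝ, V = ∏ p ∈ S, (1 - 1 / (p : ℝ)) := ⟨_, rfl⟩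
  have hQm : Q ∣ m := by
    rw [hQ, hS]
    exact Nat.prod_primeFactors_dvd m
  have hQ1 : 1 ≤ Q := by
    rw [hQ]
    exact Finset.prod_pos fun p hp => (hSp p hp).pos
  have hQ0 : (0 : ℝ) < Q := by exact_mod_cast hQ1
  have hQr : (Q : ℝ) = ∏ p ∈ S, (p : ℝ) := by
    rw [hQ]
    push_cast
    rfl
  -- the size of V
  have hcard : S.card ≤ L := by
    have a1 : 2 ^ S.card ≤ Q := by
      rw [hQ]
      exact Finset.pow_card_le_prod S (fun p : ℕ => p) 2 (fun p hp => (hSp p hp).two_le)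
    have a2 : Q ≤ m := Nat.le_of_dvd hm1 hQm
    have a3 : 2 ^ S.card ≤ 2 ^ L := by
      have : m ≤ 2 ^ L := by rw [hm]; exact Nat.sub_le _ _
      exact a1.trans (a2.trans this)
    exact (Nat.pow_le_pow_iff_right (by norm_num)).1 a3
  have hL0 : (1 : ℝ) ≤ L := by exact_mod_cast hL
  have hLV : 1 / 4 ≤ L * V := by
    have a1 := prod_low S (fun p hp => (hSp p hp).two_le)
    rw [← hV] at a1
    have a2 : (S.card : ℝ) ≤ L := by exact_mod_cast hcard
    have a3 : 1 / ((L : ℝ) + 1) ≤ 1 / ((S.card : ℝ) + 1) :=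
      one_div_le_one_div_of_le (by positivity) (by linarith)
    have a4 : 1 / ((L : ℝ) + 1) ≤ V := a3.trans a1
    have a5 : (L : ℝ) * (1 / ((L : ℝ) + 1)) ≤ L * V :=
      mul_le_mul_of_nonneg_left a4 (by linarith)
    have a6 : (1 : ℝ) / 4 ≤ (L : ℝ) * (1 / ((L : ℝ) + 1)) := by
      rw [mul_one_div, le_div_iff₀ (by linarith)]
      linarith
    exact a6.trans a5
  -- the indicators
  obtain ⟨G, hG⟩ : ∃ G : ℕ → ℕ → ℝ, G = fun t k =>
      if ∀ p ∈ S, ¬ p ∣ k * 2 ^ (t + 1) + 1 then 1 else 0 := ⟨_, rfl⟩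
  obtain ⟨C, hC⟩ : ∃ C : ℕ → ℕ → ℝ, C = fun u t => ∑ k ∈ range Q, G u k * G t k := ⟨_, rfl⟩
  have hCv : ∀ u t, u ≤ t → C u t = Q * ∏ p ∈ S,
      (1 - ((if p ∣ 2 ^ (t - u) - 1 then 1 else 2 : ℕ) : ℝ) / p) := by
    intro u t hut
    have r1 := h3 0 1 (u + 1) (t - u)
    have r2 := cnt_good _ r1.1 S hSp (Classical.decPred _)
    have r3 : ∏ p ∈ S, (1 - ((if p ∣ 2 ^ (t - u) - 1 then 1 else 2 : ℕ) : ℝ) / p) =
        ∏ p ∈ S, (1 - (rho (fun p j => p ∣ (0 + 1 * j) * 2 ^ (u + 1) + 1 ∨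
          p ∣ (0 + 1 * j) * 2 ^ (u + 1 + (t - u)) + 1) p : ℝ) / p) := by
      refine prod_congr rfl fun p hp => ?_
      rw [r1.2 p (hSp p hp) (by rw [mul_one]; exact hSn p hp)]
    rw [r3, hQr, ← r2, ← hQ, hC]
    simp only
    rw [card_filter]
    push_cast
    refine sum_congr rfl fun k _ => ?_
    have e1 : u + 1 + (t - u) = t + 1 := by omega
    rw [hG]
    simp only [zero_add, one_mul, e1]
    by_cases a : ∀ p ∈ S, ¬ p ∣ k * 2 ^ (u + 1) + 1
    · by_cases b : ∀ p ∈ S, ¬ p ∣ k * 2 ^ (t + 1) + 1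
      · rw [if_pos a, if_pos b, if_pos (fun p hp h => h.elim (a p hp) (b p hp))]
        norm_num
      · rw [if_pos a, if_neg b, if_neg (fun h => b fun p hp hd => h p hp (Or.inr hd))]
        norm_num
    · have a' : ¬ ∀ p ∈ S, ¬ (p ∣ k * 2 ^ (u + 1) + 1 ∨ p ∣ k * 2 ^ (t + 1) + 1) :=
        fun h => a fun p hp hd => h p hp (Or.inl hd)
      rw [if_neg a, if_neg a']
      norm_num
  have hCd : ∀ t, C t t = Q * V := by
    intro t
    rw [hCv t t le_rfl, hV]
    simp
  have hGG : ∀ t k, G t k * G t k = G t k := by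
    intro t k
    rw [hG]
    simp only
    split_ifs <;> norm_num
  obtain ⟨F, hF⟩ : ∃ F : ℕ → ℝ, F = fun h =>
      ∏ p ∈ S.filter (fun p => p ∣ 2 ^ h - 1), (1 + 1 / ((p : ℝ) - 1)) := ⟨_, rfl⟩
  have hCl : ∀ u t, u < t → C u t ≤ Q * V ^ 2 * F (t - u) := by
    intro u t hut
    rw [hCv u t hut.le, mul_assoc]
    apply mul_le_mul_of_nonneg_left _ hQ0.le
    rw [hV, hF]
    exact h4 S (2 ^ (t - u) - 1) (fun p hp => ⟨hSp p hp, hS3 p hp⟩)
  have hFs : ∀ t, ∑ h ∈ Icc 1 t, F h ≤ t * (1 + g) := by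
    intro t
    have r := h2 1 g le_rfl hBG S (fun p hp => ⟨hSp p hp, by
      norm_num
      exact hSn p hp⟩) t
    rw [hF]
    simpa using r
  -- the counting function
  obtain ⟨R, hR⟩ : ∃ R : ℕ → ℝ, R = fun k => ∑ t ∈ range L, G t k := ⟨_, rfl⟩
  have hR1 : ∑ k ∈ range Q, R k = L * (Q * V) := by
    rw [hR]
    simp only
    rw [sum_comm]
    have : ∀ t ∈ range L, ∑ k ∈ range Q, G t k = Q * V := by
      intro t _
      rw [← hCd t, hC]
      simp only [hGG]
    rw [sum_congr rfl this, sum_const, card_range, nsmul_eq_mul]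
  have hR2 : ∑ k ∈ range Q, R k ^ 2 ≤ L * (Q * V) + Q * V ^ 2 * ((1 + g) * L ^ 2) := by
    have e1 : ∑ k ∈ range Q, R k ^ 2 = ∑ t ∈ range L, ∑ u ∈ range L, C t u := by
      rw [hR, hC]
      simp only [sq, sum_mul_sum]
      rw [sum_comm]
      exact sum_congr rfl fun t _ => sum_comm
    rw [e1, sym_sum C (by
      intro s t
      rw [hC]
      exact sum_congr rfl fun k _ => mul_comm _ _) L]
    have e2 : ∑ t ∈ range L, C t t = L * (Q * V) := by
      rw [sum_congr rfl fun t _ => hCd t, sum_const, card_range, nsmul_eq_mul]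
    have e3 : ∑ t ∈ range L, ∑ u ∈ range t, C u t ≤
        ∑ t ∈ range L, Q * V ^ 2 * ((1 + g) * t) := by
      refine sum_le_sum fun t _ => ?_
      calc ∑ u ∈ range t, C u t ≤ ∑ u ∈ range t, Q * V ^ 2 * F (t - u) :=
            sum_le_sum fun u hu => hCl u t (mem_range.1 hu)
        _ = Q * V ^ 2 * ∑ h ∈ Icc 1 t, F h := by rw [← mul_sum, reindex]
        _ ≤ Q * V ^ 2 * ((1 + g) * t) := by
            apply mul_le_mul_of_nonneg_left _ (by positivity)
            have := hFs t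
            linarith
    have e4 : 2 * ∑ t ∈ range L, Q * V ^ 2 * ((1 + g) * (t : ℝ)) ≤
        Q * V ^ 2 * ((1 + g) * L ^ 2) := by
      rw [← mul_sum, ← mul_sum]
      have := sum_id L
      have h0 : 0 ≤ Q * V ^ 2 * (1 + g) := by positivity
      have := mul_le_mul_of_nonneg_left this h0
      linarith
    rw [e2]
    linarith
  -- Cauchy and Schwarz
  obtain ⟨A, hA⟩ : ∃ A : Finset ℕ, A = (range Q).filter fun k => R k ≠ 0 := ⟨_, rfl⟩
  have hCS : (L * (Q * V)) ^ 2 ≤ A.card * (L * (Q * V) + Q * V ^ 2 * ((1 + g) * L ^ 2)) := by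
    have e1 : ∑ k ∈ A, R k = L * (Q * V) := by
      rw [← hR1, hA, sum_filter_ne_zero]
    have e2 : ∑ k ∈ A, R k ^ 2 ≤ ∑ k ∈ range Q, R k ^ 2 := by
      apply sum_le_sum_of_subset_of_nonneg
      · rw [hA]
        exact filter_subset _ _
      · intro k _ _
        positivity
    have e3 := sq_sum_le_card_mul_sum_sq (s := A) (f := R)
    rw [e1] at e3
    exact e3.trans (mul_le_mul_of_nonneg_left (e2.trans hR2) (Nat.cast_nonneg _))
  have hAQ : (Q : ℝ) ≤ A.card * (5 + g) := by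
    obtain ⟨x, hx⟩ : ∃ x : ℝ, x = L * V := ⟨_, rfl⟩
    rw [← hx] at hLV
    have e1 : (L * (Q * V)) ^ 2 = (Q * x) * (Q * x) := by rw [hx]; ring
    have e2 : A.card * (L * (Q * V) + Q * V ^ 2 * ((1 + g) * L ^ 2)) =
        (A.card * (1 + (1 + g) * x)) * (Q * x) := by rw [hx]; ring
    rw [e1, e2] at hCS
    have e3 : 0 < Q * x := by positivity
    have e4 : Q * x ≤ A.card * (1 + (1 + g) * x) := le_of_mul_le_mul_right hCS e3
    have e5 : A.card * (1 + (1 + g) * x) ≤ A.card * ((5 + g) * x) := by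
      apply mul_le_mul_of_nonneg_left _ (Nat.cast_nonneg _)
      linarith
    have e6 : Q * x ≤ (A.card * (5 + g)) * x := by linarith
    exact le_of_mul_le_mul_right e6 (by linarith)
  -- from R to Opn
  have hcop : ∀ n : ℕ, Nat.Coprime n m ↔ ∀ p ∈ S, ¬ p ∣ n := by
    intro n
    constructor
    · intro h p hp hd
      exact Nat.Prime.not_coprime_iff_dvd.2 ⟨p, hSp p hp, hd, hSd p hp⟩ h
    · intro h
      by_contra hc
      obtain ⟨p, hp, hd, hd2⟩ := Nat.Prime.not_coprime_iff_dvd.1 hc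
      refine h p ?_ hd
      rw [hS]
      exact Nat.mem_primeFactors.2 ⟨hp, hd2, by omega⟩
  have hG0 : ∀ t k, 0 ≤ G t k := by
    intro t k
    rw [← hGG t k]
    exact mul_self_nonneg _
  have hOpn : ∀ k, Opn L k ↔ R k ≠ 0 := by
    intro k
    constructor
    · rintro ⟨a, ha1, haL, hac⟩ h0
      rw [hR] at h0
      simp only at h0
      have e1 := (sum_eq_zero_iff_of_nonneg (fun t _ => hG0 t k)).1 h0 (a - 1)
        (mem_range.2 (by omega))
      rw [hG] at e1
      simp only at e1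
      rw [show a - 1 + 1 = a by omega, if_pos ((hcop _).1 (hm ▸ hac))] at e1
      exact one_ne_zero e1
    · intro h0
      rw [hR] at h0
      obtain ⟨t, ht, h1'⟩ := exists_ne_zero_of_sum_ne_zero h0
      rw [hG] at h1'
      simp only at h1'
      rw [mem_range] at ht
      refine ⟨t + 1, by omega, by omega, ?_⟩
      rw [← hm, hcop]
      by_contra hc
      rw [if_neg hc] at h1'
      exact h1' rfl
  have hpp : ∀ q : ℕ, (∀ p ∈ S, p ∣ q) → ∀ k, Opn L (q + k) ↔ Opn L k := by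
    intro q hq k
    unfold Opn
    rw [← hm]
    simp only [hcop]
    refine exists_congr fun a => and_congr_right fun _ => and_congr_right fun _ =>
      forall_congr' fun p => imp_congr_right fun hp => not_congr ?_
    have e1 : (q + k) * 2 ^ a + 1 = q * 2 ^ a + (k * 2 ^ a + 1) := by ring
    rw [e1]
    exact Nat.dvd_add_right (Dvd.dvd.mul_right (hq p hp) _)
  have hper : ∀ k, Opn L (Q + k) ↔ Opn L k :=
    hpp Q fun p hp => hQ ▸ dvd_prod_of_mem _ hp
  have hcm : ((range m).filter (Opn L)).card * Q = A.card * m := by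
    obtain ⟨t, ht⟩ := hQm
    have e1 := card_mul (Opn L) Q t hper
    rw [← ht] at e1
    have e2 : (range Q).filter (Opn L) = A := by
      rw [hA]
      exact filter_congr fun k _ => hOpn k
    rw [e1, e2, ht]
    ring
  have hodd : ((range m).filter (Opn L)).card ≤
      ((range (MM L)).filter fun k => Odd k ∧ Opn L k).card := by
    have hmo : Odd m := Nat.not_even_iff_odd.1 fun h => hm2 h.two_dvd
    apply card_le_card_of_injOn (fun k => if Odd k then k else m + k)
    · intro k hk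
      rw [mem_coe, mem_filter, mem_range] at hk
      rw [mem_coe, mem_filter, mem_range, MM, ← hm]
      simp only
      split_ifs with h
      · exact ⟨by omega, h, hk.2⟩
      · refine ⟨by omega, ?_, (hpp m hSd k).2 hk.2⟩
        exact hmo.add_even (Nat.not_odd_iff_even.1 h)
    · intro k hk k' hk' h
      rw [mem_coe, mem_filter, mem_range] at hk hk'
      simp only at h
      split_ifs at h <;> omega
  have hm0 : (0 : ℝ) < m := by exact_mod_cast hm1
  have hcm' : (((range m).filter (Opn L)).card : ℝ) * Q = A.card * m := by exact_mod_cast hcm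
  have hodd' : (((range m).filter (Opn L)).card : ℝ) ≤
      ((range (MM L)).filter fun k => Odd k ∧ Opn L k).card := by exact_mod_cast hodd
  have hMM : (MM L : ℝ) = 2 * m := by
    rw [MM, ← hm]
    push_cast
    ring
  have f1 : (m : ℝ) ≤ ((range m).filter (Opn L)).card * (5 + g) := by
    have e1 : (m : ℝ) * Q ≤ (((range m).filter (Opn L)).card * (5 + g)) * Q := by
      calc (m : ℝ) * Q ≤ m * (A.card * (5 + g)) := mul_le_mul_of_nonneg_left hAQ hm0.le
        _ = (A.card * m) * (5 + g) := by ring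
        _ = (((range m).filter (Opn L)).card * (5 + g)) * Q := by rw [← hcm']; ring
    exact le_of_mul_le_mul_right e1 hQ0
  have f2 : (((range m).filter (Opn L)).card : ℝ) * (5 + g) ≤
      ((range (MM L)).filter fun k => Odd k ∧ Opn L k).card * (5 + g) :=
    mul_le_mul_of_nonneg_right hodd' (by linarith)
  unfold dens
  rw [div_le_div_iff₀ (by positivity) (by rw [hMM]; positivity), hMM]
  linarith

end Pool.Agent.SPA
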