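import Pool.Agent.SPA.Targets

/-!
SPA: the target PR2
-/

set_option autoImplicit false

open Finset
open Pool.Agent.TSP (Per rho)
open Pool.Agent.Tri5 (T_MER T_EXP)

namespace Pool.Agent.SPA

theorem p_PR2 : T_PR2 := by
  intro S N hS
  rw [prod_filter, ← prod_pow, ← prod_mul_distrib]
  refine prod_le_prod (fun p hp => ?_) (fun p hp => ?_)
  · have h3 : (3 : ℝ) ≤ p := by exact_mod_cast (hS p hp).2
    have hp0 : (0 : ℝ) < p := by linarith
    split_ifs with h
    · have : (1 : ℝ) / p ≤ 1 := (div_le_one hp0).2 (by linarith)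
      push_cast; linarith
    · have : (2 : ℝ) / p ≤ 1 := (div_le_one hp0).2 (by linarith)
      push_cast; linarith
  · have h3 : (3 : ℝ) ≤ p := by exact_mod_cast (hS p hp).2
    have hp0 : (0 : ℝ) < p := by linarith
    have hp1 : (0 : ℝ) < (p : ℝ) - 1 := by linarith
    split_ifs with h
    · have : (1 - 1 / (p : ℝ)) ^ 2 * (1 + 1 / ((p : ℝ) - 1)) = 1 - 1 / p := by
        field_simp
        ring
      rw [this]
      push_cast
      exact le_refl _
    · have h2 : (1 - 1 / (p : ℝ)) ^ 2 * 1 = 1 - 2 / p + (1 / (p : ℝ)) ^ 2 := by ring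
      rw [h2]
      push_cast
      have : 0 ≤ (1 / (p : ℝ)) ^ 2 := by positivity
      linarith

end Pool.Agent.SPA
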