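import Pool.Agent.SPA.Targets

/-!
SPA: target PTW
-/

set_option autoImplicit false

open Finset
open Pool.Agent.TSP (Per rho)
open Pool.Agent.Tri5 (T_MER T_EXP)

namespace Pool.Agent.SPA

namespace PTW_

open Classical in
/-- The bad primes of `P`. -/
noncomputable def WW (bad : ℕ → ℕ → Prop) (P : Finset ℕ) (n : ℕ) : Finset ℕ :=
  P.filter fun l => bad l n

theorem red (bad : ℕ → ℕ → Prop) (P : Finset ℕ) (n : ℕ) (f : ℕ → ℝ) :
    ∑ D ∈ P.powerset, f D.card * ind bad D n = ∑ D ∈ (WW bad P n).powerset, f D.card := by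
  classical
  have e1 : ∑ D ∈ P.powerset, f D.card * ind bad D n =
      ∑ D ∈ P.powerset.filter (fun D => ∀ l ∈ D, bad l n), f D.card := by
    rw [Finset.sum_filter]
    apply Finset.sum_congr rfl
    intro D _
    unfold ind
    by_cases h : ∀ l ∈ D, bad l n
    · rw [if_pos h, if_pos h, mul_one]
    · rw [if_neg h, if_neg h, mul_zero]
  rw [e1]
  apply Finset.sum_congr _ (fun _ _ => rfl)
  ext D
  rw [mem_filter, mem_powerset, mem_powerset]
  unfold WW
  constructor
  · rintro ⟨h, h'⟩ l hl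
    exact mem_filter.2 ⟨h hl, h' l hl⟩
  · intro h
    exact ⟨h.trans (Finset.filter_subset _ _), fun l hl => (mem_filter.1 (h hl)).2⟩

theorem xx_eq (bad : ℕ → ℕ → Prop) (P : Finset ℕ) (n : ℕ) :
    xx bad P n = if WW bad P n = ∅ then (1 : ℝ) else 0 := by
  classical
  unfold xx
  have h : (∀ l ∈ P, ¬ bad l n) ↔ WW bad P n = ∅ := by
    unfold WW
    rw [Finset.filter_eq_empty_iff]
  by_cases h1 : WW bad P n = ∅
  · rw [if_pos h1, if_pos (h.2 h1)]
  · rw [if_neg h1, if_neg (fun h2 => h1 (h.1 h2))]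

theorem TT_eq (bad : ℕ → ℕ → Prop) (P : Finset ℕ) (m n : ℕ) :
    TT bad P m n = ∑ D ∈ (WW bad P n).powerset,
      if D.card ≤ 2 * m then (-1 : ℝ) ^ D.card else 0 :=
  red bad P n (fun j => if j ≤ 2 * m then (-1 : ℝ) ^ j else 0)

theorem EE_eq (bad : ℕ → ℕ → Prop) (P : Finset ℕ) (m n : ℕ) :
    EE bad P m n = ((WW bad P n).card.choose (2 * m + 1) : ℝ) := by
  have h := red bad P n (fun j => if j = 2 * m + 1 then (1 : ℝ) else 0)
  unfold EE
  rw [h]
  rw [← Finset.sum_filter, Finset.sum_const, nsmul_eq_mul, mul_one]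
  congr 1
  rw [← Finset.card_powersetCard]
  congr 1
  ext D
  rw [mem_filter, mem_powerset, mem_powersetCard]

/-- The alternating sum for a nonempty set. -/
theorem alt (W : Finset ℕ) (r w : ℕ) (hw : W.card = w + 1) :
    (∑ T ∈ W.powerset, if T.card ≤ 2 * r then (-1 : ℝ) ^ T.card else 0) =
      (w.choose (2 * r) : ℝ) := by
  rw [Finset.sum_powerset_apply_card (fun j => if j ≤ 2 * r then (-1 : ℝ) ^ j else 0)]
  have h1 : ∑ m ∈ range (W.card + 1), W.card.choose m • (if m ≤ 2 * r then (-1 : ℝ) ^ m else 0)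
      = ∑ m ∈ range (W.card + 2 * r + 1),
        W.card.choose m • (if m ≤ 2 * r then (-1 : ℝ) ^ m else 0) := by
    apply Finset.sum_subset
    · intro m hm; rw [mem_range] at hm ⊢; omega
    · intro m _ hm
      rw [mem_range, not_lt] at hm
      rw [Nat.choose_eq_zero_of_lt (by omega), zero_smul]
  have h2 : ∑ m ∈ range (2 * r + 1), (-1 : ℝ) ^ m * (W.card.choose m : ℝ)
      = ∑ m ∈ range (W.card + 2 * r + 1),
        W.card.choose m • (if m ≤ 2 * r then (-1 : ℝ) ^ m else 0) := by
    have h3 : ∑ m ∈ range (2 * r + 1), (-1 : ℝ) ^ m * (W.card.choose m : ℝ)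
        = ∑ m ∈ range (2 * r + 1),
          W.card.choose m • (if m ≤ 2 * r then (-1 : ℝ) ^ m else 0) := by
      apply Finset.sum_congr rfl
      intro m hm
      rw [mem_range] at hm
      rw [if_pos (by omega), nsmul_eq_mul, mul_comm]
    rw [h3]
    apply Finset.sum_subset
    · intro m hm; rw [mem_range] at hm ⊢; omega
    · intro m _ hm
      rw [mem_range, not_lt] at hm
      rw [if_neg (by omega), smul_zero]
  rw [h1, ← h2, hw]
  have h := Int.alternating_sum_range_choose_eq_choose (n := w) (m := 2 * r)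
  have h' : ∑ m ∈ range (2 * r + 1), (-1 : ℝ) ^ m * (((w + 1).choose m : ℕ) : ℝ)
      = (-1) ^ (2 * r) * (w.choose (2 * r) : ℝ) := by exact_mod_cast h
  rw [h', pow_mul]
  norm_num

end PTW_

open PTW_ in
theorem p_PTW : T_PTW := by
  classical
  intro bad P m n
  have hE : EE bad P m n = ((WW bad P n).card.choose (2 * m + 1) : ℝ) := EE_eq bad P m n
  have hE0 : 0 ≤ EE bad P m n := by rw [hE]; positivity
  have hx : xx bad P n = if WW bad P n = ∅ then (1 : ℝ) else 0 := xx_eq bad P n
  have hT := TT_eq bad P m n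
  refine ⟨?_, ?_, ?_, hE0⟩
  · rw [hx]; split_ifs <;> norm_num
  · rw [hx, hT]
    exact Pool.Agent.TSP.bonf _ m
  · rcases Nat.eq_zero_or_pos (WW bad P n).card with h0 | hpos
    · have hW : WW bad P n = ∅ := Finset.card_eq_zero.1 h0
      rw [hx, hT, if_pos hW, hW, Finset.powerset_empty, Finset.sum_singleton,
        if_pos (by rw [Finset.card_empty]; exact Nat.zero_le _), Finset.card_empty, pow_zero]
      linarith
    · obtain ⟨w, hw⟩ := Nat.exists_eq_succ_of_ne_zero hpos.ne'
      have hW : WW bad P n ≠ ∅ := by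
        intro h
        rw [h] at hpos
        simp at hpos
      rw [hx, if_neg hW, zero_add, hT, alt _ m w hw, hE, hw]
      have : (w + 1).choose (2 * m + 1) = w.choose (2 * m) + w.choose (2 * m + 1) :=
        Nat.choose_succ_succ _ _
      rw [Nat.succ_eq_add_one, this]
      push_cast
      have h0 : (0 : ℝ) ≤ (w.choose (2 * m + 1) : ℝ) := by positivity
      linarith

end Pool.Agent.SPA
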