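import Pool.Agent.SPA.Targets

/-!
RH1: the number of the bad classes for one condition.
-/

set_option autoImplicit false

open Finset

namespace Pool.Agent.SPA

open Pool.Agent.TSP (Per rho)

namespace RH1_

lemma per1 (κ M A l n : ℕ) :
    l ∣ (κ + M * (n % l)) * A + 1 ↔ l ∣ (κ + M * n) * A + 1 := by
  have h1 : (κ + M * (n % l)) * A + 1 ≡ (κ + M * n) * A + 1 [MOD l] :=
    (((Nat.mod_modEq n l).mul_left M).add_left κ).mul_right A |>.add_right 1
  exact h1.dvd_iff dvd_rfl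

lemma key {κ M A p : ℕ} (hp : p.Prime) (h : ¬ p ∣ M * A) :
    ∃ j0 < p, ∀ j < p, p ∣ (κ + M * j) * A + 1 ↔ j = j0 := by
  have : Fact p.Prime := ⟨hp⟩
  have hMA : ((M : ZMod p) * (A : ZMod p)) ≠ 0 := by
    intro h0
    apply h
    rw [← ZMod.natCast_eq_zero_iff]
    push_cast
    exact h0
  obtain ⟨x, hx⟩ : ∃ x : ZMod p, x = -(1 + κ * A) / (M * A) := ⟨_, rfl⟩
  refine ⟨x.val, ZMod.val_lt x, fun j hj => ?_⟩
  rw [← ZMod.natCast_eq_zero_iff]
  push_cast
  have h1 : ((κ : ZMod p) + M * j) * A + 1 = (M * A) * (j - x) := by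
    have h2 : (M * A : ZMod p) * x = -(1 + κ * A) := by
      rw [hx, mul_div_cancel₀ _ hMA]
    rw [mul_sub, h2]
    ring
  rw [h1, mul_eq_zero, or_iff_right hMA, sub_eq_zero]
  constructor
  · intro h2
    rw [← h2, ZMod.val_natCast, Nat.mod_eq_of_lt hj]
  · rintro rfl
    rw [ZMod.natCast_zmod_val]

end RH1_

theorem p_RH1 : T_RH1 := by
  intro κ M A
  refine ⟨fun l n => RH1_.per1 κ M A l n, fun p hp h => ?_⟩
  obtain ⟨j0, hj0, hj⟩ := RH1_.key (κ := κ) hp h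
  unfold rho
  rw [card_eq_one]
  refine ⟨j0, ?_⟩
  ext j
  simp only [mem_filter, mem_range, mem_singleton]
  constructor
  · rintro ⟨h1, h2⟩
    exact (hj j h1).1 h2
  · rintro rfl
    exact ⟨hj0, (hj _ hj0).2 rfl⟩

end Pool.Agent.SPA
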