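import Pool.Agent.SPA.Targets

set_option autoImplicit false

/-!
SPA: the number of the bad classes for a pair of exponents (RH2)
-/

open Finset

namespace Pool.Agent.SPA

open Pool.Agent.TSP (Per rho)
open Pool.Agent.Tri5 (T_MER T_EXP)

namespace RH2_

lemma not_dvd_mul_pow {p M n : ℕ} (hp : p.Prime) (h : ¬ p ∣ 2 * M) : ¬ p ∣ M * 2 ^ n := by
  intro h1
  rcases (Nat.Prime.dvd_mul hp).1 h1 with h2 | h2
  · exact h (Dvd.dvd.mul_left h2 2)
  · exact h (Dvd.dvd.mul_right (hp.dvd_of_dvd_pow h2) M)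

lemma split_pow (B d : ℕ) : B * 2 ^ d + 1 = (B + 1) + B * (2 ^ d - 1) := by
  obtain ⟨t, ht⟩ : ∃ t, 2 ^ d = t + 1 := ⟨2 ^ d - 1, by have := Nat.one_le_two_pow (n := d); omega⟩
  rw [ht, Nat.add_sub_cancel]
  ring

lemma same {p B d : ℕ} (h : p ∣ 2 ^ d - 1) : p ∣ B * 2 ^ d + 1 ↔ p ∣ B + 1 := by
  rw [split_pow]
  exact (Nat.dvd_add_iff_left (Dvd.dvd.mul_left h B)).symm

lemma differ {p B d : ℕ} (hp : p.Prime) (h : ¬ p ∣ 2 ^ d - 1) (h1 : p ∣ B + 1) :
    ¬ p ∣ B * 2 ^ d + 1 := by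
  intro h2
  rw [split_pow] at h2
  have h3 : p ∣ B * (2 ^ d - 1) := (Nat.dvd_add_right h1).1 h2
  rcases (Nat.Prime.dvd_mul hp).1 h3 with h4 | h4
  · exact hp.one_lt.ne' (Nat.dvd_one.1 ((Nat.dvd_add_right h4).1 h1))
  · exact h h4

end RH2_

open RH2_ in
theorem p_RH2 (h : T_RH1) : T_RH2 := by
  classical
  intro κ M n d
  obtain ⟨hp1, hr1⟩ := h κ M (2 ^ n)
  obtain ⟨hp2, hr2⟩ := h κ M (2 ^ (n + d))
  refine ⟨fun l m => ?_, fun p hp hpM => ?_⟩
  · exact or_congr (hp1 l m) (hp2 l m)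
  · have e1 := hr1 p hp (not_dvd_mul_pow hp hpM)
    have e2 := hr2 p hp (not_dvd_mul_pow hp hpM)
    have hB : ∀ j : ℕ, (κ + M * j) * 2 ^ (n + d) + 1 = ((κ + M * j) * 2 ^ n) * 2 ^ d + 1 := by
      intro j
      rw [pow_add, mul_assoc]
    unfold rho at e1 e2 ⊢
    split_ifs with hd
    · have hs : (range p).filter (fun j => p ∣ (κ + M * j) * 2 ^ n + 1 ∨
          p ∣ (κ + M * j) * 2 ^ (n + d) + 1) =
          (range p).filter (fun j => p ∣ (κ + M * j) * 2 ^ n + 1) := by
        ext j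
        simp only [Finset.mem_filter]
        refine and_congr_right fun _ => ?_
        rw [hB, same hd, or_self]
      have e1' : ((range p).filter (fun j => p ∣ (κ + M * j) * 2 ^ n + 1)).card = 1 := by
        convert e1
      rw [← hs] at e1'
      convert e1'
    · have hu : (range p).filter (fun j => p ∣ (κ + M * j) * 2 ^ n + 1 ∨
          p ∣ (κ + M * j) * 2 ^ (n + d) + 1) =
          (range p).filter (fun j => p ∣ (κ + M * j) * 2 ^ n + 1) ∪
            (range p).filter (fun j => p ∣ (κ + M * j) * 2 ^ (n + d) + 1) := by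
        rw [Finset.filter_or]
      have hdis : Disjoint ((range p).filter (fun j => p ∣ (κ + M * j) * 2 ^ n + 1))
          ((range p).filter (fun j => p ∣ (κ + M * j) * 2 ^ (n + d) + 1)) := by
        rw [Finset.disjoint_left]
        intro j hj1 hj2
        rw [Finset.mem_filter] at hj1 hj2
        have h3 := hj2.2
        rw [hB] at h3
        exact differ hp hd hj1.2 h3
      have hc := Finset.card_union_of_disjoint hdis
      rw [← hu] at hc
      have e1' : ((range p).filter (fun j => p ∣ (κ + M * j) * 2 ^ n + 1)).card = 1 := by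
        convert e1
      have e2' : ((range p).filter (fun j => p ∣ (κ + M * j) * 2 ^ (n + d) + 1)).card = 1 := by
        convert e2
      rw [e1', e2'] at hc
      convert hc

end Pool.Agent.SPA
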