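import Pool.Agent.SPA.Targets

/-!
# T_RNK: Rankin's trick
-/

set_option autoImplicit false

open Finset

namespace Pool.Agent.SPA

open Pool.Agent.TSP (Per rho)
open Pool.Agent.Tri5 (T_MER T_EXP)

namespace RNK_

/-- `∏ (1 + f) ≤ exp (∑ f)`. -/
theorem prod_le_exp (f : ℕ → ℝ) (P : Finset ℕ) (hf : ∀ l ∈ P, 0 ≤ f l) :
    ∏ l ∈ P, (1 + f l) ≤ Real.exp (∑ l ∈ P, f l) := by
  rw [Real.exp_sum]
  refine Finset.prod_le_prod (fun l hl => ?_) (fun l hl => ?_)
  · have := hf l hl
    linarith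
  · have := Real.add_one_le_exp (f l)
    linarith

theorem sum_prod_le (f : ℕ → ℝ) (P : Finset ℕ) (hf : ∀ l ∈ P, 0 ≤ f l) :
    ∑ D ∈ P.powerset, ∏ l ∈ D, f l ≤ Real.exp (∑ l ∈ P, f l) := by
  rw [← Finset.prod_one_add]
  exact prod_le_exp f P hf

end RNK_

open RNK_ in
theorem p_RNK : T_RNK := by
  intro g P k hg
  have hD : ∀ D ∈ P.powerset, 0 ≤ ∏ l ∈ D, g l := fun D hD =>
    Finset.prod_nonneg fun l hl => hg l (Finset.mem_powerset.1 hD hl)
  constructor
  · have h1 : ee g P k ≤ ∑ D ∈ P.powerset, (1 / 2 : ℝ) ^ k * ∏ l ∈ D, (2 * g l) := by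
      unfold ee
      refine Finset.sum_le_sum fun D hDP => ?_
      have h0 := hD D hDP
      have h2 : ∏ l ∈ D, (2 * g l) = 2 ^ D.card * ∏ l ∈ D, g l := by
        rw [Finset.prod_mul_distrib, Finset.prod_const]
      rw [h2]
      split_ifs with h
      · rw [h, ← mul_assoc, ← mul_pow]
        norm_num
      · rw [zero_mul]
        positivity
    refine h1.trans ?_
    have h3 : 2 * ∑ l ∈ P, g l = ∑ l ∈ P, 2 * g l := Finset.mul_sum _ _ _
    have h4 : (0 : ℝ) ≤ (1 / 2) ^ k := by positivity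
    rw [← Finset.mul_sum, h3]
    refine mul_le_mul_of_nonneg_left ?_ h4
    exact sum_prod_le (fun l => 2 * g l) P fun l hl => mul_nonneg (by norm_num) (hg l hl)
  · intro w hw
    have hw0 : 0 < w := by linarith
    have h1 : ∑ D ∈ P.powerset, (if D.card ≤ k then (1 : ℝ) else 0) * ∏ l ∈ D, g l ≤
        ∑ D ∈ P.powerset, w ^ k * ∏ l ∈ D, (g l / w) := by
      refine Finset.sum_le_sum fun D hDP => ?_
      have h0 := hD D hDP
      have h2 : ∏ l ∈ D, (g l / w) = (∏ l ∈ D, g l) / w ^ D.card := by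
        rw [Finset.prod_div_distrib, Finset.prod_const]
      rw [h2]
      split_ifs with h
      · rw [one_mul, ← mul_div_assoc, le_div_iff₀ (by positivity), mul_comm]
        exact mul_le_mul_of_nonneg_right (pow_le_pow_right₀ hw h) h0
      · rw [zero_mul]
        positivity
    refine h1.trans ?_
    have h3 : (∑ l ∈ P, g l) / w = ∑ l ∈ P, g l / w := Finset.sum_div _ _ _
    have h4 : 0 ≤ w ^ k := by positivity
    rw [← Finset.mul_sum, h3]
    refine mul_le_mul_of_nonneg_left ?_ h4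
    exact sum_prod_le (fun l => g l / w) P fun l hl => div_nonneg (hg l hl) hw0.le

end Pool.Agent.SPA
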