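import Pool.Agent.SPA.Targets

set_option autoImplicit false

/-!
SPA (MP_315051_nt), job RPW: the product of the levels of the blocks
-/

open Finset

namespace Pool.Agent.SPA

open Pool.Agent.TSP (Per rho)
open Pool.Agent.Tri5 (T_MER T_EXP)

namespace RPW_

/-- The exponent after `I` factors. -/
noncomputable def ex (b I : ℕ) : ℝ :=
  (2 * b + 3) * (2 - 2 * (1 / 2 : ℝ) ^ I) + 2 * (2 - (2 * I + 2) * (1 / 2 : ℝ) ^ I)

theorem prod_eq (z b I : ℕ) (hz : 1 ≤ z) :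
    ∏ i ∈ range I, yy z i ^ (2 * (b + i) + 3) = (z : ℝ) ^ ex b I := by
  have hz0 : (0 : ℝ) < z := by exact_mod_cast (lt_of_lt_of_le Nat.zero_lt_one hz)
  induction I with
  | zero => simp [ex]
  | succ I ih =>
    rw [prod_range_succ, ih]
    unfold yy
    rw [← Real.rpow_natCast, ← Real.rpow_mul hz0.le, ← Real.rpow_add hz0]
    congr 1
    unfold ex
    push_cast
    ring

theorem ex_le (b I : ℕ) : ex b I ≤ 4 * b + 10 := by
  unfold ex
  have h1 : (0 : ℝ) ≤ (1 / 2 : ℝ) ^ I := by positivity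
  have h2 : (0 : ℝ) ≤ (b : ℝ) := Nat.cast_nonneg b
  have h3 : (0 : ℝ) ≤ (I : ℝ) := Nat.cast_nonneg I
  have h4 : (0 : ℝ) ≤ (2 * b + 3) * (2 * (1 / 2 : ℝ) ^ I) := by positivity
  have h5 : (0 : ℝ) ≤ (2 * I + 2) * (1 / 2 : ℝ) ^ I := by positivity
  nlinarith

end RPW_

theorem p_RPW : T_RPW := by
  intro z b I hz
  rw [RPW_.prod_eq z b I hz]
  have hz1 : (1 : ℝ) ≤ z := by exact_mod_cast hz
  have h : (z : ℝ) ^ RPW_.ex b I ≤ (z : ℝ) ^ ((4 * b + 10 : ℕ) : ℝ) := by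
    apply Real.rpow_le_rpow_of_exponent_le hz1
    have := RPW_.ex_le b I
    push_cast
    exact this
  rw [Real.rpow_natCast] at h
  exact h

end Pool.Agent.SPA
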