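import Pool.Agent.SPA.Targets

/-!
SPA, target SFB: the truncated sums are sieve functions
-/

set_option autoImplicit false

open Finset
open Pool.Agent.TSP (Per rho)
open Pool.Agent.Tri5 (T_MER T_EXP)

namespace Pool.Agent.SPA

namespace SFB_

/-- The remainder. -/
theorem bnd (h : T_RNK) (bad : ℕ → ℕ → Prop) (P : Finset ℕ) (m : ℕ) (w : ℝ) (hw : 1 ≤ w)
    (h7 : P.Nonempty → 7 ≤ w) (hP : (P.card : ℝ) ≤ w) (hr : ∀ l ∈ P, rho bad l ≤ 2)
    (c : Finset ℕ → ℝ) (hc : ∀ D : Finset ℕ, |c D| ≤ if D.card ≤ 2 * m + 1 then (1 : ℝ) else 0) :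
    ∑ D ∈ P.powerset, |c D| * rr bad D ≤ w ^ (2 * m + 3) := by
  rcases P.eq_empty_or_nonempty with he | hne
  · subst he
    have h1 : |c ∅| ≤ 1 := by
      have := hc ∅
      simpa using this
    have h2 : (1 : ℝ) ≤ w ^ (2 * m + 3) := one_le_pow₀ hw
    simp only [powerset_empty, sum_singleton, rr, prod_empty, mul_one]
    linarith
  · have hw7 := h7 hne
    have hw0 : (0 : ℝ) < w := by linarith
    have h1 : ∑ D ∈ P.powerset, |c D| * rr bad D ≤
        ∑ D ∈ P.powerset, (if D.card ≤ 2 * m + 1 then (1 : ℝ) else 0) *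
          ∏ l ∈ D, (rho bad l : ℝ) := by
      refine sum_le_sum fun D _ => ?_
      unfold rr
      exact mul_le_mul_of_nonneg_right (hc D) (prod_nonneg fun l _ => Nat.cast_nonneg _)
    have h2 := (h (fun l => (rho bad l : ℝ)) P (2 * m + 1)
      (fun l _ => Nat.cast_nonneg _)).2 w hw
    have h3 : (∑ l ∈ P, (rho bad l : ℝ)) / w ≤ 2 := by
      rw [div_le_iff₀ hw0]
      calc ∑ l ∈ P, (rho bad l : ℝ) ≤ ∑ _l ∈ P, (2 : ℝ) :=
            sum_le_sum fun l hl => by exact_mod_cast hr l hl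
        _ = 2 * (P.card : ℝ) := by rw [sum_const, nsmul_eq_mul]; ring
        _ ≤ 2 * w := by linarith
    have h4 : Real.exp ((∑ l ∈ P, (rho bad l : ℝ)) / w) ≤ w ^ 2 := by
      have e1 : Real.exp ((∑ l ∈ P, (rho bad l : ℝ)) / w) ≤ Real.exp 2 :=
        Real.exp_le_exp.2 h3
      have e2 : Real.exp 2 ≤ 49 := by
        have e3 : Real.exp 2 = Real.exp 1 * Real.exp 1 := by
          rw [← Real.exp_add]; norm_num
        have e4 := Real.exp_one_lt_d9
        have e5 := Real.exp_pos 1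
        rw [e3]
        nlinarith
      nlinarith
    calc ∑ D ∈ P.powerset, |c D| * rr bad D
        ≤ w ^ (2 * m + 1) * Real.exp ((∑ l ∈ P, (rho bad l : ℝ)) / w) := h1.trans h2
      _ ≤ w ^ (2 * m + 1) * w ^ 2 := mul_le_mul_of_nonneg_left h4 (by positivity)
      _ = w ^ (2 * m + 3) := by rw [← pow_add]

end SFB_

/-- SFB. -/
theorem p_SFB (h : T_RNK) : T_SFB := by
  intro bad P m w hw h7 hP hr
  constructor
  · refine ⟨fun D => if D.card ≤ 2 * m then (-1 : ℝ) ^ D.card else 0, fun n => rfl, rfl, ?_⟩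
    refine SFB_.bnd h bad P m w hw h7 hP hr _ fun D => ?_
    by_cases h1 : D.card ≤ 2 * m
    · rw [if_pos h1, if_pos (by omega), abs_pow, abs_neg, abs_one, one_pow]
    · rw [if_neg h1, abs_zero]
      split_ifs <;> norm_num
  · refine ⟨fun D => if D.card = 2 * m + 1 then (1 : ℝ) else 0, fun n => rfl, rfl, ?_⟩
    refine SFB_.bnd h bad P m w hw h7 hP hr _ fun D => ?_
    by_cases h1 : D.card = 2 * m + 1
    · rw [if_pos h1, if_pos (by omega), abs_one]
    · rw [if_neg h1, abs_zero]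
      split_ifs <;> norm_num

end Pool.Agent.SPA
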