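import Pool.Agent.SPA.Targets

/-!
SFC: the sum of a sieve function over an interval.
-/

set_option autoImplicit false

open Finset

namespace Pool.Agent.SPA

theorem p_SFC : T_SFC := by
  intro bad hper P F μ R hP hSF X Y
  obtain ⟨c, hF, hμ, hR⟩ := hSF
  have h1 : ∑ n ∈ Ioc X (X + Y), F n - Y * μ =
      ∑ D ∈ P.powerset, c D * (∑ n ∈ Ioc X (X + Y), ind bad D n - Y * gg bad D) := by
    simp_rw [hF]
    rw [sum_comm, hμ, mul_sum, ← sum_sub_distrib]
    apply sum_congr rfl
    intro D _
    rw [← mul_sum]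
    ring
  rw [h1]
  refine (abs_sum_le_sum_abs _ _).trans (le_trans (sum_le_sum ?_) hR)
  intro D hD
  rw [abs_mul]
  apply mul_le_mul_of_nonneg_left _ (abs_nonneg _)
  have h2 := Pool.Agent.TSP.count_bad hper D (fun l hl => hP l (mem_powerset.1 hD hl)) X Y
  unfold gg rr ind
  classical
  rw [← sum_filter, sum_const, nsmul_eq_mul, mul_one]
  exact h2

end Pool.Agent.SPA
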