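import Pool.Agent.SPA.Targets

/-!
SFM: products of sieve functions; SFP: finite products.
-/

set_option autoImplicit false

open Finset

namespace Pool.Agent.SPA

namespace SFM_

/-- sums over the subsets of a disjoint union -/
theorem sum_union (P P' : Finset ℕ) (hd : Disjoint P P') (f : Finset ℕ → ℝ)
    (a b : Finset ℕ → ℝ)
    (hf : ∀ D ⊆ P, ∀ D' ⊆ P', f (D ∪ D') = a D * b D') :
    ∑ D ∈ (P ∪ P').powerset, f D = (∑ D ∈ P.powerset, a D) * ∑ D' ∈ P'.powerset, b D' := by
  rw [Finset.sum_mul_sum, ← Finset.sum_product']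
  symm
  apply Finset.sum_nbij' (fun q : Finset ℕ × Finset ℕ => q.1 ∪ q.2)
    (fun D => (D ∩ P, D ∩ P'))
  · rintro ⟨D, D'⟩ h
    rw [mem_product, mem_powerset, mem_powerset] at h
    rw [mem_powerset]
    exact union_subset_union h.1 h.2
  · intro D _
    rw [mem_product, mem_powerset, mem_powerset]
    exact ⟨inter_subset_right, inter_subset_right⟩
  · rintro ⟨D, D'⟩ h
    rw [mem_product, mem_powerset, mem_powerset] at h
    have h1 : D' ∩ P = ∅ := by
      rw [← disjoint_iff_inter_eq_empty]
      exact (hd.mono_right h.2).symm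
    have h2 : D ∩ P' = ∅ := by
      rw [← disjoint_iff_inter_eq_empty]
      exact hd.mono_left h.1
    simp only
    rw [union_inter_distrib_right, union_inter_distrib_right, h1, h2, union_empty, empty_union,
      inter_eq_left.2 h.1, inter_eq_left.2 h.2]
  · intro D h
    rw [mem_powerset] at h
    simp only
    rw [← inter_union_distrib_left, inter_eq_left.2 h]
  · rintro ⟨D, D'⟩ h
    rw [mem_product, mem_powerset, mem_powerset] at h
    exact (hf D h.1 D' h.2).symm

theorem ind_union (bad : ℕ → ℕ → Prop) (D D' : Finset ℕ) (n : ℕ) :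
    ind bad (D ∪ D') n = ind bad D n * ind bad D' n := by
  unfold ind
  by_cases h1 : ∀ l ∈ D, bad l n
  · by_cases h2 : ∀ l ∈ D', bad l n
    · rw [if_pos h1, if_pos h2, if_pos, mul_one]
      intro l hl
      rcases mem_union.1 hl with h | h
      · exact h1 l h
      · exact h2 l h
    · rw [if_neg h2, if_neg, mul_zero]
      intro h
      exact h2 (fun l hl => h l (mem_union_right _ hl))
  · rw [if_neg h1, if_neg, zero_mul]
    intro h
    exact h1 (fun l hl => h l (mem_union_left _ hl))

end SFM_

open SFM_ in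
theorem p_SFM : T_SFM := by
  intro bad P P' F F' μ μ' R R' hd h h'
  obtain ⟨c, hF, hμ, hR⟩ := h
  obtain ⟨c', hF', hμ', hR'⟩ := h'
  have key : ∀ D ⊆ P, ∀ D' ⊆ P', (D ∪ D') ∩ P = D ∧ (D ∪ D') ∩ P' = D' ∧ Disjoint D D' := by
    intro D hD D' hD'
    have h1 : D' ∩ P = ∅ := by
      rw [← disjoint_iff_inter_eq_empty]
      exact (hd.mono_right hD').symm
    have h2 : D ∩ P' = ∅ := by
      rw [← disjoint_iff_inter_eq_empty]
      exact hd.mono_left hD
    refine ⟨?_, ?_, hd.mono hD hD'⟩
    · rw [union_inter_distrib_right, h1, union_empty, inter_eq_left.2 hD]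
    · rw [union_inter_distrib_right, h2, empty_union, inter_eq_left.2 hD']
  refine ⟨fun D => c (D ∩ P) * c' (D ∩ P'), ?_, ?_, ?_⟩
  · intro n
    simp only
    rw [hF, hF']
    symm
    apply sum_union P P' hd
    intro D hD D' hD'
    obtain ⟨h1, h2, _⟩ := key D hD D' hD'
    rw [h1, h2, ind_union]
    ring
  · rw [hμ, hμ']
    symm
    apply sum_union P P' hd
    intro D hD D' hD'
    obtain ⟨h1, h2, h3⟩ := key D hD D' hD'
    simp only
    rw [h1, h2]
    unfold gg
    rw [prod_union h3]
    ring
  · have e : ∑ D ∈ (P ∪ P').powerset, |c (D ∩ P) * c' (D ∩ P')| * rr bad D =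
        (∑ D ∈ P.powerset, |c D| * rr bad D) * ∑ D' ∈ P'.powerset, |c' D'| * rr bad D' := by
      apply sum_union P P' hd
      intro D hD D' hD'
      obtain ⟨h1, h2, h3⟩ := key D hD D' hD'
      rw [h1, h2, abs_mul]
      unfold rr
      rw [prod_union h3]
      ring
    rw [e]
    have h0 : ∀ D : Finset ℕ, 0 ≤ rr bad D := fun D => prod_nonneg (fun l _ => by positivity)
    have h1 : 0 ≤ ∑ D ∈ P.powerset, |c D| * rr bad D :=
      sum_nonneg (fun D _ => mul_nonneg (abs_nonneg _) (h0 D))
    have h2 : 0 ≤ ∑ D ∈ P'.powerset, |c' D| * rr bad D :=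
      sum_nonneg (fun D _ => mul_nonneg (abs_nonneg _) (h0 D))
    exact mul_le_mul hR hR' h2 (h1.trans hR)

theorem p_SFP (h : T_SFM) : T_SFP := by
  intro bad I P F μ R
  induction I with
  | zero =>
    intro _ _
    refine ⟨fun _ => 1, ?_, ?_, ?_⟩
    · intro n
      have h0 : ∀ l ∈ (∅ : Finset ℕ), bad l n := fun l hl => absurd hl (notMem_empty l)
      have h1 : ind bad ∅ n = 1 := by
        unfold ind
        rw [if_pos h0]
      simp [h1]
    · simp [gg]
    · simp [rr]
  | succ I ih =>
    intro hd hS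
    have h1 := ih (fun i hi j hj => hd i (by omega) j (by omega)) (fun i hi => hS i (by omega))
    have h2 := hS I (by omega)
    have h3 : Disjoint ((range I).biUnion P) (P I) := by
      rw [disjoint_biUnion_left]
      intro i hi
      rw [mem_range] at hi
      exact hd i (by omega) I (by omega) (by omega)
    have h4 := h bad _ _ _ _ _ _ _ _ h3 h1 h2
    rw [range_add_one, biUnion_insert, union_comm (P I)]
    rw [← range_add_one]
    simp only [prod_range_succ]
    exact h4

end Pool.Agent.SPA
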