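import Pool.Agent.SPA.Targets

/-!
SH: the singular series on average.
-/

set_option autoImplicit false

open Finset
open Pool.Agent.Tri5 (T_MER T_EXP)

namespace Pool.Agent.SPA

namespace SH_

theorem cast_dvd (d n : ℕ) : (d : ℤ) ∣ (2 : ℤ) ^ n - 1 ↔ d ∣ 2 ^ n - 1 := by
  have h : ((2 ^ n - 1 : ℕ) : ℤ) = (2 : ℤ) ^ n - 1 := by
    rw [Nat.cast_sub (Nat.one_le_pow _ _ (by norm_num))]
    push_cast
    ring
  rw [← h]
  exact Int.natCast_dvd_natCast

theorem dvd_iff (d L u : ℕ) : d ∣ 2 ^ (L * u) - 1 ↔ od L d ∣ u := by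
  unfold od
  rw [orderOf_dvd_iff_pow_eq_one, ← pow_mul, ← ZMod.natCast_eq_zero_iff,
    Nat.cast_sub (Nat.one_le_pow _ _ (by norm_num)), sub_eq_zero]
  push_cast
  rfl

theorem od_pos (L d : ℕ) (hd : 1 ≤ d) (h2 : d.Coprime 2) : 1 ≤ od L d := by
  have : NeZero d := ⟨by omega⟩
  have hu : IsUnit (2 : ZMod d) := by
    have := (ZMod.isUnit_iff_coprime 2 d).2 h2.symm
    exact_mod_cast this
  obtain ⟨u, hu⟩ := hu
  unfold od
  rw [← hu, ← Units.val_pow_eq_pow_val, orderOf_units]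
  exact orderOf_pos _

theorem card_le (d L T : ℕ) (ho : 1 ≤ od L d) :
    (((Icc 1 T).filter (fun u => d ∣ 2 ^ (L * u) - 1)).card : ℝ) ≤ T / od L d := by
  have h1 : (Icc 1 T).filter (fun u => d ∣ 2 ^ (L * u) - 1) =
      (Ioc 0 T).filter (fun u => od L d ∣ u) := by
    ext u
    rw [mem_filter, mem_filter, dvd_iff, mem_Icc, mem_Ioc]
    exact Iff.rfl
  rw [h1, Nat.Ioc_filter_dvd_card_eq_div]
  exact Nat.cast_div_le

end SH_

open SH_ in
theorem p_SH (h : T_EXP) : T_SH := by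
  intro L g hL hBG S hS T
  have hp : ∀ p ∈ S, p.Prime := fun p hp => (hS p hp).1
  have e := h ℕ (Icc 1 T) (fun u => (2 : ℤ) ^ (L * u) - 1) S hp
  simp only [cast_dvd] at e
  have hP0 : ∏ p ∈ S, p ≠ 0 := prod_ne_zero_iff.2 (fun p hpS => (hp p hpS).ne_zero)
  have hcop : Nat.Coprime (∏ p ∈ S, p) 2 := by
    apply Nat.Coprime.prod_left
    intro p hpS
    rw [Nat.coprime_primes (hp p hpS) Nat.prime_two]
    rintro rfl
    exact (hS _ hpS).2 (dvd_mul_right _ _)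
  rw [e, ← Finset.add_sum_erase _ _ (Nat.mem_divisors.2 ⟨one_dvd _, hP0⟩)]
  have h1 : (1 : ℝ) / Nat.totient 1 *
      (((Icc 1 T).filter (fun u => 1 ∣ 2 ^ (L * u) - 1)).card : ℝ) ≤ T := by
    rw [Nat.totient_one, Nat.cast_one, div_one, one_mul]
    have : ((Icc 1 T).filter (fun u => 1 ∣ 2 ^ (L * u) - 1)).card ≤ T := by
      refine (card_filter_le _ _).trans ?_
      rw [Nat.card_Icc]; omega
    exact_mod_cast this
  have h2 : ∑ d ∈ (∏ p ∈ S, p).divisors.erase 1, (1 : ℝ) / Nat.totient d *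
      (((Icc 1 T).filter (fun u => d ∣ 2 ^ (L * u) - 1)).card : ℝ) ≤ T * GS L S := by
    unfold GS
    rw [mul_sum]
    apply sum_le_sum
    intro d hd
    rw [mem_erase, Nat.mem_divisors] at hd
    have hd0 : 1 ≤ d := Nat.pos_of_dvd_of_pos hd.2.1 (Nat.pos_of_ne_zero hP0)
    have ho := od_pos L d hd0 (Nat.Coprime.coprime_dvd_left hd.2.1 hcop)
    calc (1 : ℝ) / Nat.totient d * _ ≤ 1 / Nat.totient d * (T / od L d) :=
          mul_le_mul_of_nonneg_left (card_le d L T ho) (by positivity)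
      _ = T * (1 / (Nat.totient d * od L d)) := by
          rw [div_mul_div_comm, one_mul, mul_one_div]
  have h3 : (T : ℝ) * GS L S ≤ T * g := mul_le_mul_of_nonneg_left (hBG S hS) (by positivity)
  linarith

end Pool.Agent.SPA
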