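import Pool.Agent.SPA.Targets

set_option autoImplicit false

open Finset

open Pool.Agent.TSP (Per rho)

open Pool.Agent.Tri5 (T_MER T_EXP)

namespace Pool.Agent.SPA

theorem p_TEL : T_TEL := by
  intro I x T E
  induction I with
  | zero =>
    intro _
    simp
  | succ I ih =>
    intro h
    have h' : ∀ i < I, 0 ≤ x i ∧ x i ≤ T i ∧ T i ≤ x i + E i ∧ 0 ≤ E i :=
      fun i hi => h i (Nat.lt_succ_of_lt hi)
    obtain ⟨h1, h2, h3, h4⟩ := h I (Nat.lt_succ_self I)
    have ih' := ih h'
    have hT : 0 ≤ ∏ i ∈ range I, T i := by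
      refine Finset.prod_nonneg ?_
      intro i hi
      have hi' := h' i (Finset.mem_range.1 hi)
      exact le_trans hi'.1 hi'.2.1
    have hS : 0 ≤ ∑ i ∈ range I, ∏ l ∈ range I, (if l = i then E l else T l) := by
      refine Finset.sum_nonneg ?_
      intro i _
      refine Finset.prod_nonneg ?_
      intro l hl
      have hl' := h' l (Finset.mem_range.1 hl)
      split_ifs
      · exact hl'.2.2.2
      · exact le_trans hl'.1 hl'.2.1
    have hlast : ∏ l ∈ range I, (if l = I then E l else T l) = ∏ l ∈ range I, T l := by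
      refine Finset.prod_congr rfl ?_
      intro l hl
      rw [if_neg (Finset.mem_range.1 hl).ne]
    have hsum : ∑ i ∈ range (I + 1), ∏ l ∈ range (I + 1), (if l = i then E l else T l) =
        (∑ i ∈ range I, ∏ l ∈ range I, (if l = i then E l else T l)) * T I +
          (∏ i ∈ range I, T i) * E I := by
      rw [Finset.sum_range_succ, Finset.prod_range_succ, hlast, if_pos rfl, Finset.sum_mul]
      congr 1
      refine Finset.sum_congr rfl ?_
      intro i hi
      rw [Finset.prod_range_succ, if_neg (Finset.mem_range.1 hi).ne']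
    rw [hsum, Finset.prod_range_succ, Finset.prod_range_succ]
    have a1 : (∏ i ∈ range I, T i) * T I ≤ (∏ i ∈ range I, T i) * (x I + E I) :=
      mul_le_mul_of_nonneg_left h3 hT
    have a2 := mul_le_mul_of_nonneg_right ih' h1
    have a3 := mul_le_mul_of_nonneg_left h2 hS
    nlinarith [a1, a2, a3]

end Pool.Agent.SPA
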