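import Pool.Agent.SPA.Targets

set_option autoImplicit false

open Finset

namespace Pool.Agent.SPA

open Pool.Agent.TSP (Per rho)
open Pool.Agent.Tri5 (T_MER T_EXP)

namespace VLO_

lemma card_le (z : ℕ) (P : Finset ℕ) (hP : ∀ p ∈ P, p.Prime ∧ 3 ≤ p ∧ p ≤ z) : P.card ≤ z := by
  have : P ⊆ Icc 1 z := fun p hp => by
    have h := hP p hp
    rw [mem_Icc]
    omega
  calc P.card ≤ (Icc 1 z).card := card_le_card this
    _ = z := by simp

lemma fac (p : ℕ) (hp : 3 ≤ p) : 1 - 1 / (p : ℝ) = (1 + 1 / ((p : ℝ) - 1))⁻¹ := by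
  have h3 : (3 : ℝ) ≤ p := by exact_mod_cast hp
  have h1 : (p : ℝ) ≠ 0 := by linarith
  have h2 : (p : ℝ) - 1 ≠ 0 := by
    intro h
    linarith
  have h4 : 1 + 1 / ((p : ℝ) - 1) = p / (p - 1) := by
    field_simp
    ring
  rw [h4, inv_div]
  field_simp

lemma cube (p : ℕ) (hp : 3 ≤ p) : (1 - 1 / (p : ℝ)) ^ 3 ≤ 1 - 2 / (p : ℝ) := by
  have h3 : (3 : ℝ) ≤ p := by exact_mod_cast hp
  have h0 : (0 : ℝ) < p := by linarith
  obtain ⟨t, ht⟩ : ∃ t : ℝ, t = 1 / (p : ℝ) := ⟨_, rfl⟩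
  have ht0 : 0 ≤ t := by rw [ht]; positivity
  have ht1 : t ≤ 1 / 3 := by
    rw [ht]
    exact one_div_le_one_div_of_le (by norm_num) h3
  have h2 : 2 / (p : ℝ) = 2 * t := by rw [ht]; ring
  rw [h2, ← ht]
  nlinarith [mul_nonneg ht0 (by linarith : (0 : ℝ) ≤ 1 / 3 - t),
    mul_nonneg (mul_nonneg ht0 ht0) ht0,
    mul_nonneg (mul_nonneg ht0 ht0) (by linarith : (0 : ℝ) ≤ 1 / 3 - t)]

end VLO_

open VLO_

theorem p_VLO (h : T_MER) : T_VLO := by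
  obtain ⟨C, hC, h⟩ := h
  have hl2 : 0 < Real.log 2 := Real.log_pos (by norm_num)
  refine ⟨C / Real.log 2, div_pos hC hl2, fun z P hz hP => ?_⟩
  have hz' : (2 : ℝ) ≤ z := by exact_mod_cast hz
  have hlz : 0 < Real.log z := Real.log_pos (by linarith)
  have key := h 2 z P le_rfl hz (card_le z P hP) (fun p hp => ⟨(hP p hp).1, by
    have := (hP p hp).2.1
    omega⟩)
  have hpos : 0 < ∏ p ∈ P, (1 + 1 / ((p : ℝ) - 1)) := by
    refine prod_pos fun p hp => ?_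
    have h3 : (3 : ℝ) ≤ p := by exact_mod_cast (hP p hp).2.1
    have : 0 < (p : ℝ) - 1 := by linarith
    positivity
  have e1 : ∏ p ∈ P, (1 - 1 / (p : ℝ)) = (∏ p ∈ P, (1 + 1 / ((p : ℝ) - 1)))⁻¹ := by
    rw [← prod_inv_distrib]
    exact prod_congr rfl fun p hp => fac p (hP p hp).2.1
  have first : 1 / (C / Real.log 2 * Real.log z) ≤ ∏ p ∈ P, (1 - 1 / (p : ℝ)) := by
    rw [e1, ← one_div]
    refine one_div_le_one_div_of_le hpos ?_
    calc ∏ p ∈ P, (1 + 1 / ((p : ℝ) - 1)) ≤ C * Real.log z / Real.log (2 : ℕ) := key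
      _ = C / Real.log 2 * Real.log z := by push_cast; ring
  refine ⟨first, ?_⟩
  have h0 : 0 ≤ 1 / (C / Real.log 2 * Real.log z) := by positivity
  calc (1 / (C / Real.log 2 * Real.log z)) ^ 3 ≤ (∏ p ∈ P, (1 - 1 / (p : ℝ))) ^ 3 :=
        pow_le_pow_left₀ h0 first 3
    _ = ∏ p ∈ P, (1 - 1 / (p : ℝ)) ^ 3 := by rw [prod_pow]
    _ ≤ ∏ p ∈ P, (1 - 2 / (p : ℝ)) := by
        refine prod_le_prod (fun p hp => ?_) fun p hp => cube p (hP p hp).2.1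
        have h3 : (3 : ℝ) ≤ p := by exact_mod_cast (hP p hp).2.1
        have : 1 / (p : ℝ) ≤ 1 / 3 := one_div_le_one_div_of_le (by norm_num) h3
        have : 0 ≤ 1 - 1 / (p : ℝ) := by linarith
        positivity

end Pool.Agent.SPA
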