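import Pool.Agent.SPA.Targets
import Pool.Agent.Tri5.MER
import Pool.Agent.Tri5.EXP
import Pool.Agent.SPA.P_GSM
import Pool.Agent.SPA.P_SH
import Pool.Agent.SPA.P_SFC
import Pool.Agent.SPA.P_SFM
import Pool.Agent.SPA.P_PTW
import Pool.Agent.SPA.P_ALT
import Pool.Agent.SPA.P_RNK
import Pool.Agent.SPA.P_SFB
import Pool.Agent.SPA.P_BLK
import Pool.Agent.SPA.P_VLO
import Pool.Agent.SPA.P_TEL
import Pool.Agent.SPA.P_RPW
import Pool.Agent.SPA.P_FLM
import Pool.Agent.SPA.P_FL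
import Pool.Agent.SPA.P_RH1
import Pool.Agent.SPA.P_RH2
import Pool.Agent.SPA.P_PR2
import Pool.Agent.SPA.P_MOM
import Pool.Agent.SPA.P_GAP
import Pool.Agent.SPA.P_MAIN
import Pool.Agent.SPA.P_OPC
import Pool.Agent.SPA.P_DEN
import Pool.Agent.SPA.P_FIN
import Pool.Agent.SPA.P_BG1
import Pool.Agent.SPA.P_POS
import Pool.Agent.SPA.Fin2

/-!
SPA: assembly.
-/

set_option autoImplicit false

namespace Pool.Agent.SPA

open Pool.Agent.Tri5 (p_MER p_EXP)

theorem gsm_all : T_GSM := p_GSM p_MER p_EXP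

theorem sh_all : T_SH := p_SH p_EXP

theorem fl_all : T_FL :=
  p_FL p_SFC (p_SFP p_SFM) p_PTW (p_SFB p_RNK) (p_BLK p_MER) (p_VLO p_MER) p_TEL p_RPW
    (p_FLM p_ALT p_RNK (p_BLK p_MER))

theorem mom_all : T_MOM := p_MOM gsm_all sh_all fl_all p_RH1 (p_RH2 p_RH1) p_PR2

theorem main_all : T_MAIN := p_MAIN mom_all (p_VLO p_MER) p_GAP

theorem fin_all : T_FIN := p_FIN main_all p_OPC p_DEN

theorem pos_all : T_POS := p_POS (p_BG1 gsm_all) sh_all (p_RH2 p_RH1) p_PR2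

theorem a_all : T_A := p_A main_all p_OPC

theorem b_all : T_B := p_B fin_all p_OPC p_DEN pos_all

end Pool.Agent.SPA
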