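import Mathlib
import Pool.Agent.TSP.Brun

/-!
SPA: almost primes among the numbers `k * 2 ^ n + 1` (MP_315051_nt): definitions
-/

set_option autoImplicit false

open Finset

namespace Pool.Agent.SPA

open Pool.Agent.TSP (Per rho)

/-! ### The result -/

/-- `k` is covered: finitely many primes are such that every `k * 2 ^ n + 1`, `n ≥ 1`, is divisible
by one of them. -/
def Covered (k : ℕ) : Prop :=
  ∃ P : Finset ℕ, (∀ p ∈ P, p.Prime) ∧ ∀ n : ℕ, 1 ≤ n → ∃ p ∈ P, p ∣ k * 2 ^ n + 1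

/-- For some `n ≥ 1` the number `k * 2 ^ n + 1` is a product of at most `r` primes, all larger than
`k ^ c`. -/
def AlmostPrime (c : ℝ) (r k : ℕ) : Prop :=
  ∃ n : ℕ, 1 ≤ n ∧ (k * 2 ^ n + 1).primeFactorsList.length ≤ r ∧
    ∀ p : ℕ, p.Prime → p ∣ k * 2 ^ n + 1 → (k : ℝ) ^ c < p

/-- For some `n ≥ 1` all prime factors of `k * 2 ^ n + 1` are larger than `k ^ c`. -/
def NoSmall (c : ℝ) (k : ℕ) : Prop :=
  ∃ n : ℕ, 1 ≤ n ∧ ∀ p : ℕ, p.Prime → p ∣ k * 2 ^ n + 1 → (k : ℝ) ^ c < p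

/-- For some `n ≥ 1` the number `k * 2 ^ n + 1` is prime. -/
def HasPrime (k : ℕ) : Prop := ∃ n : ℕ, 1 ≤ n ∧ (k * 2 ^ n + 1).Prime

/-- Some `a ≤ L` is such that `k * 2 ^ a + 1` is coprime to `2 ^ L - 1`. -/
def Opn (L k : ℕ) : Prop := ∃ a : ℕ, 1 ≤ a ∧ a ≤ L ∧ Nat.Coprime (k * 2 ^ a + 1) (2 ^ L - 1)

open Classical in
/-- The number of the `k ≤ x` with the property `P`. -/
noncomputable def cnt (P : ℕ → Prop) (x : ℕ) : ℝ := (((range (x + 1)).filter P).card : ℝ)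

/-- The modulus. -/
def MM (L : ℕ) : ℕ := 2 * (2 ^ L - 1)

open Classical in
/-- The density of the odd `k` with `Opn L k`. -/
noncomputable def dens (L : ℕ) : ℝ :=
  (((range (MM L)).filter fun k => Odd k ∧ Opn L k).card : ℝ) / MM L

/-! ### The Romanoff series -/

/-- The order of `2 ^ L` modulo `d`. -/
noncomputable def od (L d : ℕ) : ℕ := orderOf ((2 : ZMod d) ^ L)

/-- The Romanoff series over the squarefree numbers composed of the primes of `S`, without the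
term `1`. -/
noncomputable def GS (L : ℕ) (S : Finset ℕ) : ℝ :=
  ∑ d ∈ (∏ p ∈ S, p).divisors.erase 1, (1 : ℝ) / (Nat.totient d * od L d)

/-- The Romanoff series of `L` is at most `g`. -/
def BG (L : ℕ) (g : ℝ) : Prop :=
  ∀ S : Finset ℕ, (∀ p ∈ S, p.Prime ∧ ¬ p ∣ 2 * (2 ^ L - 1)) → GS L S ≤ g

/-! ### Sieve functions -/

open Classical in
/-- The indicator of `all primes of D are bad for n`. -/
noncomputable def ind (bad : ℕ → ℕ → Prop) (D : Finset ℕ) (n : ℕ) : ℝ :=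
  if ∀ l ∈ D, bad l n then 1 else 0

/-- The density belonging to `D`. -/
noncomputable def gg (bad : ℕ → ℕ → Prop) (D : Finset ℕ) : ℝ := ∏ l ∈ D, ((rho bad l : ℝ) / l)

/-- The number of classes belonging to `D`. -/
noncomputable def rr (bad : ℕ → ℕ → Prop) (D : Finset ℕ) : ℝ := ∏ l ∈ D, (rho bad l : ℝ)

/-- `F` is a sieve function over `P` with mean `μ` and remainder at most `R`. -/
def SF (bad : ℕ → ℕ → Prop) (P : Finset ℕ) (F : ℕ → ℝ) (μ R : ℝ) : Prop :=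
  ∃ c : Finset ℕ → ℝ, (∀ n, F n = ∑ D ∈ P.powerset, c D * ind bad D n) ∧
    μ = ∑ D ∈ P.powerset, c D * gg bad D ∧ ∑ D ∈ P.powerset, |c D| * rr bad D ≤ R

open Classical in
/-- The indicator of `no prime of P is bad for n`. -/
noncomputable def xx (bad : ℕ → ℕ → Prop) (P : Finset ℕ) (n : ℕ) : ℝ :=
  if ∀ l ∈ P, ¬ bad l n then 1 else 0

/-- Truncated inclusion and exclusion. -/
noncomputable def TT (bad : ℕ → ℕ → Prop) (P : Finset ℕ) (m n : ℕ) : ℝ :=
  ∑ D ∈ P.powerset, (if D.card ≤ 2 * m then (-1 : ℝ) ^ D.card else 0) * ind bad D n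

/-- The number of the `2 m + 1`-subsets of bad primes. -/
noncomputable def EE (bad : ℕ → ℕ → Prop) (P : Finset ℕ) (m n : ℕ) : ℝ :=
  ∑ D ∈ P.powerset, (if D.card = 2 * m + 1 then (1 : ℝ) else 0) * ind bad D n

/-- The mean of `TT`. -/
noncomputable def UU (g : ℕ → ℝ) (P : Finset ℕ) (m : ℕ) : ℝ :=
  ∑ D ∈ P.powerset, (if D.card ≤ 2 * m then (-1 : ℝ) ^ D.card else 0) * ∏ l ∈ D, g l

/-- Elementary symmetric functions. -/
noncomputable def ee (g : ℕ → ℝ) (P : Finset ℕ) (k : ℕ) : ℝ :=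
  ∑ D ∈ P.powerset, (if D.card = k then (1 : ℝ) else 0) * ∏ l ∈ D, g l

/-- The boundaries `z ^ (2 ^ (-i))` of the blocks. -/
noncomputable def yy (z i : ℕ) : ℝ := (z : ℝ) ^ ((1 / 2 : ℝ) ^ i)

open Classical in
/-- The block number `i`. -/
noncomputable def Bk (P : Finset ℕ) (z i : ℕ) : Finset ℕ :=
  P.filter fun p => yy z (i + 1) < p ∧ (p : ℝ) ≤ yy z i

/-! ### The second moment -/

/-- The primes up to `z` which do not divide `2 (2 ^ L - 1)`. -/
def PS (L z : ℕ) : Finset ℕ := (Icc 1 z).filter fun p => p.Prime ∧ ¬ p ∣ 2 * (2 ^ L - 1)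

/-- The product of `1 - 1/p` over these primes. -/
noncomputable def VV (L z : ℕ) : ℝ := ∏ p ∈ PS L z, (1 - 1 / (p : ℝ))

/-- No prime of `PS L z` divides `k * 2 ^ (a + L * t) + 1`. -/
def Gd (L z a k t : ℕ) : Prop := ∀ p ∈ PS L z, ¬ p ∣ k * 2 ^ (a + L * t) + 1

end Pool.Agent.SPA
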