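import Pool.Agent.SPA.Targets

/-!
FL: the fundamental lemma.
-/

set_option autoImplicit false

open Finset

namespace Pool.Agent.SPA

open Pool.Agent.TSP (Per rho)
open Pool.Agent.Tri5 (T_MER T_EXP)

namespace FL_

theorem xx_biUnion (bad : ℕ → ℕ → Prop) (I : ℕ) (Q : ℕ → Finset ℕ) (n : ℕ) :
    xx bad ((range I).biUnion Q) n = ∏ i ∈ range I, xx bad (Q i) n := by
  classical
  unfold xx
  rw [prod_ite_zero, prod_const_one]
  have e : (∀ l ∈ (range I).biUnion Q, ¬ bad l n) ↔ ∀ i ∈ range I, ∀ l ∈ Q i, ¬ bad l n := by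
    constructor
    · intro h i hi l hl
      exact h l (mem_biUnion.2 ⟨i, hi, hl⟩)
    · intro h l hl
      obtain ⟨i, hi, hl'⟩ := mem_biUnion.1 hl
      exact h i hi l hl'
  by_cases h : ∀ l ∈ (range I).biUnion Q, ¬ bad l n
  · rw [if_pos h, if_pos (e.1 h)]
  · rw [if_neg h, if_neg (fun h' => h (e.2 h'))]

/-- powers of the logarithm are small -/
theorem log_small (C : ℝ) : ∃ z1 : ℕ, ∀ z : ℕ, z1 ≤ z → (C * Real.log z) ^ 3 ≤ z := by
  have h := (Real.isLittleO_pow_log_id_atTop (n := 3)).bound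
    (show (0 : ℝ) < 1 / (|C| ^ 3 + 1) by positivity)
  have h2 := tendsto_natCast_atTop_atTop (R := ℝ) |>.eventually h
  obtain ⟨z1, hz1⟩ := Filter.eventually_atTop.1 h2
  refine ⟨max z1 1, fun z hz => ?_⟩
  have h3 := hz1 z (le_trans (le_max_left _ _) hz)
  have hz' : 1 ≤ z := le_trans (le_max_right _ _) hz
  simp only [id, Real.norm_eq_abs, abs_pow, Nat.abs_cast] at h3
  have hlog : 0 ≤ Real.log z := Real.log_natCast_nonneg z
  rw [abs_of_nonneg hlog] at h3
  have h4 : (C * Real.log z) ^ 3 ≤ (|C| ^ 3 + 1) * Real.log z ^ 3 := by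
    rw [mul_pow]
    apply mul_le_mul_of_nonneg_right _ (pow_nonneg hlog 3)
    have : C ^ 3 ≤ |C ^ 3| := le_abs_self _
    rw [abs_pow] at this
    linarith
  refine h4.trans ?_
  have h5 : (|C| ^ 3 + 1) * Real.log z ^ 3 ≤ (|C| ^ 3 + 1) * (1 / (|C| ^ 3 + 1) * z) :=
    mul_le_mul_of_nonneg_left h3 (by positivity)
  refine h5.trans (le_of_eq ?_)
  have : |C| ^ 3 + 1 ≠ 0 := by positivity
  field_simp

end FL_

open FL_ in
theorem p_FL (h1 : T_SFC) (h2 : T_SFP) (h3 : T_PTW) (h4 : T_SFB) (h5 : T_BLK) (h6 : T_VLO)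
    (h7 : T_TEL) (h8 : T_RPW) (h9 : T_FLM) : T_FL := by
  intro δ hδ
  obtain ⟨b, hb⟩ := h9 (δ / 4) (by positivity)
  obtain ⟨G, hG0, hG⟩ := h5
  obtain ⟨C, hC0, hC⟩ := h6
  obtain ⟨z1, hz1⟩ := log_small C
  refine ⟨4 * b + 14, max (max z1 2) (⌈8 / δ⌉₊ + 1), by omega, ?_⟩
  intro bad hper P z X Y hz hY hP
  have hzz1 : z1 ≤ z := le_trans (le_trans (le_max_left _ _) (le_max_left _ _)) hz
  have hz2 : 2 ≤ z := le_trans (le_trans (le_max_right _ _) (le_max_left _ _)) hz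
  have hz3 : ⌈8 / δ⌉₊ + 1 ≤ z := le_trans (le_max_right _ _) hz
  have hzR : (2 : ℝ) ≤ z := by exact_mod_cast hz2
  have hz8 : 8 / δ ≤ z := by
    have a1 : 8 / δ ≤ ⌈8 / δ⌉₊ := Nat.le_ceil _
    have a2 : ((⌈8 / δ⌉₊ + 1 : ℕ) : ℝ) ≤ z := by exact_mod_cast hz3
    push_cast at a2
    linarith
  obtain ⟨hBu, hBd, hBk⟩ := hG z P hz2 (fun p hp => ⟨(hP p hp).1, (hP p hp).2.1, (hP p hp).2.2.1⟩)
  set g : ℕ → ℝ := fun l => (rho bad l : ℝ) / l with hg
  set V : ℝ := ∏ p ∈ P, (1 - (rho bad p : ℝ) / p) with hV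
  have hgP : ∀ p ∈ P, 0 ≤ g p ∧ g p ≤ 2 / p := by
    intro p hp
    obtain ⟨_, hp7, _, hr⟩ := hP p hp
    refine ⟨by positivity, ?_⟩
    have : (rho bad p : ℝ) ≤ 2 := by exact_mod_cast hr
    exact div_le_div_of_nonneg_right this (by positivity)
  obtain ⟨hU1, hU2, hU3⟩ := hb z P g hz2
    (fun p hp => ⟨(hP p hp).1, (hP p hp).2.1, (hP p hp).2.2.1, (hgP p hp).1, (hgP p hp).2⟩)
  change V ≤ _ at hU1
  change _ ≤ (1 + δ / 4) * V at hU2
  change _ ≤ δ / 4 * V at hU3
  -- the sieve functions of the blocks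
  have hsub : ∀ i, Bk P z i ⊆ P := fun i => by
    unfold Bk
    exact filter_subset _ _
  have hSF : ∀ i, SF bad (Bk P z i) (TT bad (Bk P z i) (b + i)) (UU g (Bk P z i) (b + i))
      (yy z i ^ (2 * (b + i) + 3)) ∧ SF bad (Bk P z i) (EE bad (Bk P z i) (b + i))
      (ee g (Bk P z i) (2 * (b + i) + 1)) (yy z i ^ (2 * (b + i) + 3)) := by
    intro i
    obtain ⟨a1, a2, a3, _⟩ := hBk i
    exact h4 bad (Bk P z i) (b + i) (yy z i) a1 a2 a3 (fun l hl => (hP l (hsub i hl)).2.2.2)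
  set R : ℝ := ∏ i ∈ range z, yy z i ^ (2 * (b + i) + 3) with hR
  have hRle : R ≤ (z : ℝ) ^ (4 * b + 10) := h8 z b z (by omega)
  have hPr : ∀ p ∈ (range z).biUnion (Bk P z), p.Prime := by
    rw [hBu]
    exact fun p hp => (hP p hp).1
  have hdis : ∀ i < z, ∀ j < z, i ≠ j → Disjoint (Bk P z i) (Bk P z j) :=
    fun i _ j _ hij => hBd i j hij
  -- the main sum
  have m1 : |∑ n ∈ Ioc X (X + Y), ∏ i ∈ range z, TT bad (Bk P z i) (b + i) n -
      Y * ∏ i ∈ range z, UU g (Bk P z i) (b + i)| ≤ R :=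
    h1 bad hper _ _ _ _ hPr (h2 bad z (Bk P z) (fun i => TT bad (Bk P z i) (b + i))
      (fun i => UU g (Bk P z i) (b + i)) (fun i => yy z i ^ (2 * (b + i) + 3)) hdis
      (fun i _ => (hSF i).1)) X Y
  -- the error sums
  have m2 : ∀ i : ℕ, |∑ n ∈ Ioc X (X + Y), ∏ l ∈ range z, (if l = i then
      EE bad (Bk P z l) (b + l) n else TT bad (Bk P z l) (b + l) n) -
      Y * ∏ l ∈ range z, (if l = i then ee g (Bk P z l) (2 * (b + l) + 1)
        else UU g (Bk P z l) (b + l))| ≤ R := by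
    intro i
    have a := h1 bad hper _ _ _ _ hPr (h2 bad z (Bk P z)
      (fun l n => if l = i then EE bad (Bk P z l) (b + l) n else TT bad (Bk P z l) (b + l) n)
      (fun l => if l = i then ee g (Bk P z l) (2 * (b + l) + 1) else UU g (Bk P z l) (b + l))
      (fun i => yy z i ^ (2 * (b + i) + 3)) hdis (fun l _ => by
        by_cases hl : l = i
        · simp only [if_pos hl]
          exact (hSF l).2
        · simp only [if_neg hl]
          exact (hSF l).1)) X Y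
    exact a
  -- pointwise
  have hxx : ∀ n, xx bad P n = ∏ i ∈ range z, xx bad (Bk P z i) n := by
    intro n
    rw [← xx_biUnion, hBu]
  have p1 : ∀ n, xx bad P n ≤ ∏ i ∈ range z, TT bad (Bk P z i) (b + i) n := by
    intro n
    rw [hxx]
    exact prod_le_prod (fun i _ => (h3 bad (Bk P z i) (b + i) n).1)
      (fun i _ => (h3 bad (Bk P z i) (b + i) n).2.1)
  have p2 : ∀ n, ∏ i ∈ range z, TT bad (Bk P z i) (b + i) n ≤ xx bad P n +
      ∑ i ∈ range z, ∏ l ∈ range z, (if l = i then EE bad (Bk P z l) (b + l) n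
        else TT bad (Bk P z l) (b + l) n) := by
    intro n
    rw [hxx]
    exact h7 z (fun i => xx bad (Bk P z i) n) (fun i => TT bad (Bk P z i) (b + i) n)
      (fun i => EE bad (Bk P z i) (b + i) n) (fun i _ => h3 bad (Bk P z i) (b + i) n)
  -- summation
  have s1 : ∑ n ∈ Ioc X (X + Y), xx bad P n ≤
      ∑ n ∈ Ioc X (X + Y), ∏ i ∈ range z, TT bad (Bk P z i) (b + i) n :=
    sum_le_sum (fun n _ => p1 n)
  have s2 : ∑ n ∈ Ioc X (X + Y), ∏ i ∈ range z, TT bad (Bk P z i) (b + i) n ≤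
      ∑ n ∈ Ioc X (X + Y), xx bad P n + ∑ i ∈ range z, ∑ n ∈ Ioc X (X + Y),
        ∏ l ∈ range z, (if l = i then EE bad (Bk P z l) (b + l) n
          else TT bad (Bk P z l) (b + l) n) := by
    rw [sum_comm, ← sum_add_distrib]
    exact sum_le_sum (fun n _ => p2 n)
  have s3 : ∑ i ∈ range z, ∑ n ∈ Ioc X (X + Y), ∏ l ∈ range z, (if l = i then
      EE bad (Bk P z l) (b + l) n else TT bad (Bk P z l) (b + l) n) ≤
      Y * (δ / 4 * V) + z * R := by
    have a1 : ∀ i ∈ range z, ∑ n ∈ Ioc X (X + Y), ∏ l ∈ range z, (if l = i then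
        EE bad (Bk P z l) (b + l) n else TT bad (Bk P z l) (b + l) n) ≤
        Y * ∏ l ∈ range z, (if l = i then ee g (Bk P z l) (2 * (b + l) + 1)
          else UU g (Bk P z l) (b + l)) + R := by
      intro i _
      have := (abs_le.1 (m2 i)).2
      linarith
    refine (sum_le_sum a1).trans ?_
    rw [sum_add_distrib, ← mul_sum, sum_const, card_range, nsmul_eq_mul]
    have a2 : (Y : ℝ) * ∑ i ∈ range z, ∏ l ∈ range z, (if l = i then
        ee g (Bk P z l) (2 * (b + l) + 1) else UU g (Bk P z l) (b + l)) ≤ Y * (δ / 4 * V) :=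
      mul_le_mul_of_nonneg_left hU3 (Nat.cast_nonneg Y)
    linarith
  -- the size of V
  have hVz : 1 / (z : ℝ) ≤ V := by
    have a1 := (hC z P hz2 (fun p hp => ⟨(hP p hp).1, le_trans (by norm_num) (hP p hp).2.1,
      (hP p hp).2.2.1⟩)).2
    have a2 : ∏ p ∈ P, (1 - 2 / (p : ℝ)) ≤ V := by
      apply prod_le_prod
      · intro p hp
        have : (7 : ℝ) ≤ p := by exact_mod_cast (hP p hp).2.1
        have : 2 / (p : ℝ) ≤ 1 := by
          rw [div_le_one (by linarith)]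
          linarith
        linarith
      · intro p hp
        have := (hgP p hp).2
        simp only [hg] at this
        linarith
    have hlog : 0 < Real.log z := Real.log_pos (by linarith)
    have a3 : 1 / (z : ℝ) ≤ (1 / (C * Real.log z)) ^ 3 := by
      rw [div_pow, one_pow]
      apply one_div_le_one_div_of_le
      · positivity
      · exact hz1 z hzz1
    linarith
  have hz0 : (0 : ℝ) < z := by linarith
  have hV0 : 0 < V := lt_of_lt_of_le (by positivity) hVz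
  have hYR : (z : ℝ) ^ (4 * b + 14) ≤ Y := by exact_mod_cast hY
  have hY0 : (0 : ℝ) ≤ Y := Nat.cast_nonneg Y
  -- the remainder
  have hrem : (z + 1) * R ≤ δ / 4 * (Y * V) := by
    have b1 : (z + 1) * R ≤ (2 * z) * (z : ℝ) ^ (4 * b + 10) := by
      apply mul_le_mul (by linarith) hRle _ (by positivity)
      exact prod_nonneg (fun i _ => pow_nonneg (le_trans zero_le_one (hBk i).1) _)
    have b2 : (2 * z) * (z : ℝ) ^ (4 * b + 10) * z ^ 3 ≤ 2 * Y := by
      have : (2 * z) * (z : ℝ) ^ (4 * b + 10) * z ^ 3 = 2 * (z : ℝ) ^ (4 * b + 14) := by ring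
      rw [this]
      linarith
    have b3 : 2 * (Y : ℝ) ≤ δ / 4 * (Y * V) * z ^ 3 := by
      have c1 : 1 ≤ V * z := by
        rw [div_le_iff₀ hz0] at hVz
        exact hVz
      have c2 : 8 ≤ δ * z := by
        rw [div_le_iff₀ hδ] at hz8
        linarith
      have c3 : 8 ≤ δ * z * (V * z) * z := by
        have d1 : δ * z ≤ δ * z * (V * z) := le_mul_of_one_le_right (by positivity) c1
        have d2 : δ * z * (V * z) ≤ δ * z * (V * z) * z :=
          le_mul_of_one_le_right (by positivity) (by linarith)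
        linarith
      calc 2 * (Y : ℝ) = Y / 4 * 8 := by ring
        _ ≤ Y / 4 * (δ * z * (V * z) * z) := mul_le_mul_of_nonneg_left c3 (by positivity)
        _ = δ / 4 * (Y * V) * z ^ 3 := by ring
    have b4 : (2 * z) * (z : ℝ) ^ (4 * b + 10) * z ^ 3 ≤ δ / 4 * (Y * V) * z ^ 3 :=
      b2.trans b3
    exact b1.trans (le_of_mul_le_mul_right b4 (by positivity))
  have hR0 : 0 ≤ R := prod_nonneg (fun i _ => pow_nonneg (le_trans zero_le_one (hBk i).1) _)
  have m1' := abs_le.1 m1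
  have u1 : (Y : ℝ) * ∏ i ∈ range z, UU g (Bk P z i) (b + i) ≤ Y * ((1 + δ / 4) * V) :=
    mul_le_mul_of_nonneg_left hU2 hY0
  have u2 : (Y : ℝ) * V ≤ Y * ∏ i ∈ range z, UU g (Bk P z i) (b + i) :=
    mul_le_mul_of_nonneg_left hU1 hY0
  have hzR' : R ≤ (z + 1) * R := le_mul_of_one_le_left hR0 (by linarith)
  have hYV : 0 ≤ Y * V := by positivity
  rw [abs_le]
  constructor
  · nlinarith [m1'.1, s2, s3, u2, hrem, hzR', hYV, hδ]
  · nlinarith [m1'.2, s1, u1, hrem, hzR', hYV, hδ]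

end Pool.Agent.SPA
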