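import Pool.Agent.SPA.Defs
import Pool.Agent.Tri5.Targets

/-!
SPA: targets (MP_315051_nt)

Almost every odd `k` without a covering set has an `n` such that `k 2^n + 1` is a product of at
most `r` primes, all larger than `k^c`. The proof of every target is in its docstring. Each target
`T_X` is to be proved in `Pool/Agent/SPA/P_X.lean` as `theorem p_X : T_X`, with the other targets
named in the docstring as hypotheses, exactly as said there.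

Existing tools: `Pool.Agent.TSP.Brun` (`Per`, `rho`, `count_bad`, `bonf`), `Pool.Agent.Tri5`
(`T_MER`, `T_EXP` and the files GS1, GS2, LCM, GSM, which do the base `5` case of part 1).
-/

set_option autoImplicit false

open Finset

namespace Pool.Agent.SPA

open Pool.Agent.TSP (Per rho)
open Pool.Agent.Tri5 (T_MER T_EXP)

/-! ## Part 1: the Romanoff series of `2 ^ L` -/

/-- GSM (`theorem p_GSM (h1 : T_MER) (h2 : T_EXP) : T_GSM`). PROOF. Copy the files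
`Pool/Agent/Tri5/GS1.lean, GS2.lean, LCM.lean, GSM.lean` with the base `5` replaced by the base `2`:
`od L d = orderOf ((2 : ZMod d) ^ L)`, and instead of `¬ p ∣ 2 * Qf L` the condition is
`¬ p ∣ 2 * (2 ^ L - 1)` (so `five_ne` becomes: `p ≠ 2` and `¬ p ∣ 2 ^ L - 1`; `d.Coprime 5` becomes
`d.Coprime 2`; `5 ^ (L e) ≤ 8 ^ ..` becomes `2 ^ (L e) ≤ 8 ^ ..`, the constants `3 L k ^ 2` may be
kept; `QF` is not needed). `L = (lcmUpto k) ^ 8`, `k ≥ 5`, so `60 ∣ L`. -/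
def T_GSM : Prop := ∀ ε : ℝ, 0 < ε → ∃ L : ℕ, 1 ≤ L ∧ 60 ∣ L ∧ BG L ε

/-- SH (`theorem p_SH (h : T_EXP) : T_SH`). PROOF. `T_EXP` with `U = Icc 1 T`,
`h u = 2 ^ (L u) - 1` (an integer): the sum is `∑_{d ∣ ∏ S} (1/φ(d)) #{h ≤ T : d ∣ 2^(L h) - 1}`.
For such `d` (odd, `d ≥ 1`) `d ∣ 2^(L h) - 1` iff `od L d ∣ h` (`orderOf_dvd_iff_pow_eq_one` in
`ZMod d`), and `od L d ≥ 1`, so the number is at most `T / od L d` (multiples of `od L d` in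
`Icc 1 T`). The term `d = 1` is at most `T`; the others are `T * GS L S ≤ T g`. -/
def T_SH : Prop := ∀ (L : ℕ) (g : ℝ), 1 ≤ L → BG L g → ∀ S : Finset ℕ,
  (∀ p ∈ S, p.Prime ∧ ¬ p ∣ 2 * (2 ^ L - 1)) → ∀ T : ℕ,
  ∑ h ∈ Icc 1 T, ∏ p ∈ S.filter (fun p => p ∣ 2 ^ (L * h) - 1), (1 + 1 / ((p : ℝ) - 1)) ≤
    T * (1 + g)

/-! ## Part 2: sieve functions -/

/-- SFC. PROOF. Let `F n = ∑_D c D * ind D n`. Exchange the sums: `∑_n ind bad D n` is the number of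
`n` in the interval which are bad for all primes of `D`; by `Pool.Agent.TSP.count_bad` it differs
from `Y * gg bad D` by at most `rr bad D`. Multiply by `|c D|` and add up. -/
def T_SFC : Prop := ∀ (bad : ℕ → ℕ → Prop), Per bad → ∀ (P : Finset ℕ) (F : ℕ → ℝ) (μ R : ℝ),
  (∀ p ∈ P, p.Prime) → SF bad P F μ R → ∀ X Y : ℕ, |∑ n ∈ Ioc X (X + Y), F n - Y * μ| ≤ R

/-- SFM. PROOF. Take `c'' D = c (D ∩ P) * c' (D ∩ P')`. The map `D ↦ (D ∩ P, D ∩ P')` is a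
bijection of `(P ∪ P').powerset` onto `P.powerset ×ˢ P'.powerset` (inverse: union), and `ind`,
`gg`, `rr` are multiplicative for disjoint unions (`Finset.prod_union`); the sums over the
product factor (`Finset.sum_product`, `Finset.sum_mul_sum`). For the remainder:
`(∑ |c| rr) * (∑ |c'| rr) ≤ R * R'`, all terms being nonnegative. -/
def T_SFM : Prop := ∀ (bad : ℕ → ℕ → Prop) (P P' : Finset ℕ) (F F' : ℕ → ℝ) (μ μ' R R' : ℝ),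
  Disjoint P P' → SF bad P F μ R → SF bad P' F' μ' R' →
  SF bad (P ∪ P') (fun n => F n * F' n) (μ * μ') (R * R')

/-- SFP (`theorem p_SFP (h : T_SFM) : T_SFP`). PROOF. Induction on `I` with T_SFM; for `I = 0`:
`SF bad ∅ (fun _ => 1) 1 1` with `c = fun _ => 1`. The union over `range I` is disjoint
from `P I`. -/
def T_SFP : Prop := ∀ (bad : ℕ → ℕ → Prop) (I : ℕ) (P : ℕ → Finset ℕ) (F : ℕ → ℕ → ℝ)
  (μ R : ℕ → ℝ), (∀ i < I, ∀ j < I, i ≠ j → Disjoint (P i) (P j)) →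
  (∀ i < I, SF bad (P i) (F i) (μ i) (R i)) →
  SF bad ((range I).biUnion P) (fun n => ∏ i ∈ range I, F i n) (∏ i ∈ range I, μ i)
    (∏ i ∈ range I, R i)

/-- PTW. PROOF. Let `W` be the set of the `l ∈ P` with `bad l n`, `w = W.card`. The sets `D ⊆ P`
with `ind bad D n = 1` are the subsets of `W`. So `xx = 1` if `w = 0`, else `0`;
`TT = ∑_{j ≤ 2m} (-1)^j C(w, j)`, which is `1` for `w = 0` and `C(w-1, 2m)` for `w ≥ 1`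
(`Int.alternating_sum_range_choose_eq_choose`, as in `Pool.Agent.TSP.bonf`; the inequality
`xx ≤ TT` is `bonf`); `EE = C(w, 2m+1) = C(w-1, 2m) + C(w-1, 2m+1)`. -/
def T_PTW : Prop := ∀ (bad : ℕ → ℕ → Prop) (P : Finset ℕ) (m n : ℕ),
  0 ≤ xx bad P n ∧ xx bad P n ≤ TT bad P m n ∧ TT bad P m n ≤ xx bad P n + EE bad P m n ∧
    0 ≤ EE bad P m n

/-- ALT. PROOF. Let `W P k = ∑_{D ⊆ P, |D| ≤ k} (-1)^|D| ∏_D g`, `V P = ∏_P (1 - g)`. Claim: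
`0 ≤ (-1)^k (W P k - V P) ≤ ee g P (k+1)` for all `k`, by induction on `P`. `P = ∅`: `W = V = 1`.
Adding `p`: `W (P ∪ p) k = W P k - g p * W P (k-1)` for `k ≥ 1` (`Finset.sum_powerset_insert`),
`W (P ∪ p) 0 = 1 = W P 0`, `V (P ∪ p) = (1 - g p) V P`,
`ee (P ∪ p) (k+1) = ee P (k+1) + g p * ee P k`. So
`(-1)^k (W' k - V') = (-1)^k (W k - V) + g p (-1)^(k-1) (W (k-1) - V)` for `k ≥ 1`, and
`W' 0 - V' = (W 0 - V) + g p V` with `V ≤ 1 = ee P 0`. Take `k = 2 m`. -/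
def T_ALT : Prop := ∀ (g : ℕ → ℝ) (P : Finset ℕ) (m : ℕ), (∀ l ∈ P, 0 ≤ g l ∧ g l ≤ 1) →
  ∏ l ∈ P, (1 - g l) ≤ UU g P m ∧ UU g P m ≤ ∏ l ∈ P, (1 - g l) + ee g P (2 * m + 1)

/-- RNK (Rankin's trick). PROOF. First: `1 = (1/2)^k 2^|D|` if `|D| = k`, so
`ee g P k ≤ (1/2)^k ∑_D ∏_D (2 g) = (1/2)^k ∏_P (1 + 2 g) ≤ (1/2)^k exp (2 ∑ g)`
(`Finset.prod_one_add`, `Real.add_one_le_exp`). Second: `1 ≤ w^k (1/w)^|D|` if `|D| ≤ k`, so the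
sum is at most `w^k ∏_P (1 + ρ/w) ≤ w^k exp ((∑ ρ)/w)`. -/
def T_RNK : Prop := ∀ (g : ℕ → ℝ) (P : Finset ℕ) (k : ℕ), (∀ l ∈ P, 0 ≤ g l) →
  ee g P k ≤ (1 / 2) ^ k * Real.exp (2 * ∑ l ∈ P, g l) ∧ ∀ w : ℝ, 1 ≤ w →
  ∑ D ∈ P.powerset, (if D.card ≤ k then (1 : ℝ) else 0) * ∏ l ∈ D, g l ≤
    w ^ k * Real.exp ((∑ l ∈ P, g l) / w)

/-- SFB (`theorem p_SFB (h : T_RNK) : T_SFB`). PROOF. The coefficients of `TT` and `EE` are bounded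
by the indicator of `|D| ≤ 2m+1`, the means are `UU`, `ee` by definition (`gg bad D = ∏ ρ/l`). By
the second part of T_RNK with `g = ρ` the remainder is at most `w^(2m+1) exp (∑ρ / w)`, and
`∑ ρ ≤ 2 |P| ≤ 2 w`. If `P` is nonempty then `w ≥ 7` and `exp 2 ≤ 49 ≤ w^2`. If `P` is empty then
the only `D` is `∅`, the remainder is at most `1 ≤ w^(2m+3)`. -/
def T_SFB : Prop := ∀ (bad : ℕ → ℕ → Prop) (P : Finset ℕ) (m : ℕ) (w : ℝ), 1 ≤ w →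
  (P.Nonempty → 7 ≤ w) → (P.card : ℝ) ≤ w → (∀ l ∈ P, rho bad l ≤ 2) →
  SF bad P (TT bad P m) (UU (fun l => (rho bad l : ℝ) / l) P m) (w ^ (2 * m + 3)) ∧
  SF bad P (EE bad P m) (ee (fun l => (rho bad l : ℝ) / l) P (2 * m + 1)) (w ^ (2 * m + 3))

/-- BLK (`theorem p_BLK (h : T_MER) : T_BLK`). PROOF. `yy z 0 = z`, `yy z (i+1) ^ 2 = yy z i`
(`Real.rpow_natCast`, `Real.rpow_mul`), `yy` is decreasing in `i` and `≥ 1`, and `yy z z ≤ 2`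
because `z ≤ 2^(2^z)`. So every `p ∈ P` (`7 ≤ p ≤ z`) lies in exactly one block `i < z` (the largest
`i` with `p ≤ yy z i`). Blocks with different numbers are disjoint. `|Bk i| ≤ yy z i` (natural
numbers in `[1, yy z i]`). If the block `i` is nonempty, `yy z i ≥ 7`, `y = yy z (i+1) ≥ √7 > 2`;
T_MER with `k = ⌊y⌋₊ ≥ 2`, `n = ⌊yy z i⌋₊` (`card ≤ n`, all primes `> y ≥ k`) gives
`∑ 1/p ≤ ∑ 1/(p-1) ≤ ∏ (1 + 1/(p-1)) ≤ C log n/log k ≤ C (2 log y)/(1/2 log y) = 4 C`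
(`⌊y⌋ ≥ √y` for `y ≥ 2`). -/
def T_BLK : Prop := ∃ G : ℝ, 0 < G ∧ ∀ (z : ℕ) (P : Finset ℕ), 2 ≤ z →
  (∀ p ∈ P, p.Prime ∧ 7 ≤ p ∧ p ≤ z) →
  (range z).biUnion (Bk P z) = P ∧ (∀ i j, i ≠ j → Disjoint (Bk P z i) (Bk P z j)) ∧
  ∀ i, 1 ≤ yy z i ∧ ((Bk P z i).Nonempty → 7 ≤ yy z i) ∧ ((Bk P z i).card : ℝ) ≤ yy z i ∧
    ∑ p ∈ Bk P z i, 1 / (p : ℝ) ≤ G

/-- VLO (`theorem p_VLO (h : T_MER) : T_VLO`). PROOF. T_MER with `k = 2`, `n = z`: the primes are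
`≥ 3 > 2`, their number is `≤ z`; `∏ (1 + 1/(p-1)) ≤ C log z/log 2` and
`1 - 1/p = (1 + 1/(p-1))⁻¹`. Second: `1 - 2/p ≥ (1 - 1/p)^3` for `p ≥ 3`
(`(1-t)^3 = 1 - 3t + 3t² - t³ ≤ 1 - 2t` for `0 ≤ t ≤ 1/3`). -/
def T_VLO : Prop := ∃ C : ℝ, 0 < C ∧ ∀ (z : ℕ) (P : Finset ℕ), 2 ≤ z →
  (∀ p ∈ P, p.Prime ∧ 3 ≤ p ∧ p ≤ z) →
  1 / (C * Real.log z) ≤ ∏ p ∈ P, (1 - 1 / (p : ℝ)) ∧
  (1 / (C * Real.log z)) ^ 3 ≤ ∏ p ∈ P, (1 - 2 / (p : ℝ))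

/-- TEL. PROOF. Induction on `I`: `∏_{i ≤ I} T_i = T_I ∏_{i<I} T_i`,
`T_I ∏_{i<I} T_i ≤ x_I ∏_{i<I} T_i + E_I ∏_{i<I} T_i` (`0 ≤ T_i`), and by the induction hypothesis
`x_I ∏_{i<I} T_i ≤ x_I ∏_{i<I} x_i + ∑_{i<I} E_i x_I ∏_{l≠i, l<I} T_l`, `x_I ≤ T_I`. -/
def T_TEL : Prop := ∀ (I : ℕ) (x T E : ℕ → ℝ),
  (∀ i < I, 0 ≤ x i ∧ x i ≤ T i ∧ T i ≤ x i + E i ∧ 0 ≤ E i) →
  ∏ i ∈ range I, T i ≤ ∏ i ∈ range I, x i +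
    ∑ i ∈ range I, ∏ l ∈ range I, (if l = i then E l else T l)

/-- RPW. PROOF. `yy z i ^ (2 (b+i) + 3) = z ^ ((1/2)^i (2 b + 2 i + 3))` (real powers), the product
is `z` to the power `∑_{i<I} (1/2)^i (2 b + 2 i + 3) ≤ (2 b + 3) 2 + 2 * 2 = 4 b + 10`
(`∑ (1/2)^i ≤ 2`, `∑ i (1/2)^i ≤ 2`, for instance `∑_{i<I} (1/2)^i = 2 - 2 (1/2)^I`,
`∑_{i<I} i (1/2)^i = 2 - (2 I + 2) (1/2)^I` by induction). -/
def T_RPW : Prop := ∀ z b I : ℕ, 1 ≤ z →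
  ∏ i ∈ range I, yy z i ^ (2 * (b + i) + 3) ≤ (z : ℝ) ^ (4 * b + 10)

/-- FLM (`theorem p_FLM (h1 : T_ALT) (h2 : T_RNK) (h3 : T_BLK) : T_FLM`), the main terms of the
fundamental lemma. PROOF. `G` from T_BLK, `A = exp (8 G)`, choose `b` with `2 A (1/4)^b ≤ η` and so
small that the rest works. Let `V_i = ∏_{Bk i} (1 - g)`; `g ≤ 2/p ≤ 2/7`, `∑_{Bk i} g ≤ 2 G`, so
`V_i ≥ exp (-2 ∑ g) ≥ exp (-4 G)` (`1 - t ≥ exp (-2 t)` for `0 ≤ t ≤ 1/2`), and by T_RNK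
`e_i = ee g (Bk i) (2 (b+i) + 1) ≤ (1/2)^(2(b+i)+1) exp (4 G) ≤ A (1/4)^(b+i) V_i`. T_ALT:
`V_i ≤ U_i ≤ V_i (1 + A (1/4)^(b+i))`. `c = ∑_{i<z} A (1/4)^(b+i) ≤ 2 A (1/4)^b`, and
`V = ∏_{i<z} V_i` (`Finset.prod_biUnion`). So `V ≤ ∏ U_i ≤ V exp c ≤ V (1 + 2 c)` for `c ≤ 1`. And
`∏_l (if l = i then e_l else U_l) ≤ e_i/V_i * V exp c ≤ A (1/4)^(b+i) * 3 V`, whose sum over `i` is
at most `3 c V`. Choose `b` with `6 A (1/4)^b ≤ η` and `2 A (1/4)^b ≤ 1`. -/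
def T_FLM : Prop := ∀ η : ℝ, 0 < η → ∃ b : ℕ, ∀ (z : ℕ) (P : Finset ℕ) (g : ℕ → ℝ), 2 ≤ z →
  (∀ p ∈ P, p.Prime ∧ 7 ≤ p ∧ p ≤ z ∧ 0 ≤ g p ∧ g p ≤ 2 / p) →
  ∏ p ∈ P, (1 - g p) ≤ ∏ i ∈ range z, UU g (Bk P z i) (b + i) ∧
  ∏ i ∈ range z, UU g (Bk P z i) (b + i) ≤ (1 + η) * ∏ p ∈ P, (1 - g p) ∧
  ∑ i ∈ range z, ∏ l ∈ range z, (if l = i then ee g (Bk P z l) (2 * (b + l) + 1)
    else UU g (Bk P z l) (b + l)) ≤ η * ∏ p ∈ P, (1 - g p)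

/-- FL, the fundamental lemma (`theorem p_FL (h1 : T_SFC) (h2 : T_SFP) (h3 : T_PTW) (h4 : T_SFB)
(h5 : T_BLK) (h6 : T_VLO) (h7 : T_TEL) (h8 : T_RPW) (h9 : T_FLM) : T_FL`). PROOF. Let `η = δ/4` and
`b` from T_FLM, `g l = ρ(l)/l`, `V = ∏ (1 - g)`, `P_i = Bk P z i`, `i < z`. Let
`N = ∑_n ∏_{i<z} xx bad P_i n`, the number in question (`P` is the union of the `P_i`). By T_PTW
`0 ≤ xx ≤ TT ≤ xx + EE` with `m = b + i`.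
Upper bound: `N ≤ ∑_n ∏ TT ≤ Y ∏ U_i + R` with `R = ∏ yy z i ^ (2(b+i)+3) ≤ z^(4b+10)` (T_SFB with
`w = yy z i`, T_SFP, T_SFC, T_RPW), so `N ≤ (1+η) Y V + z^(4b+10)`.
Lower bound: T_TEL for every `n`: `∏ xx ≥ ∏ TT - ∑_{i<z} ∏_l (if l = i then EE else TT)`; sum over
`n`: `∑_n ∏ TT ≥ Y ∏ U_i - R ≥ Y V - R`, and for every `i` (T_SFP with the functions `EE` for
`l = i` and `TT` for `l ≠ i`) the sum over `n` is `≤ Y ∏_l (if l = i then e_l else U_l) + R`. So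
`N ≥ Y V - η Y V - (z+1) R`. By T_VLO and `g ≤ 2/p`: `V ≥ (1/(C log z))^3 ≥ 1/z` for `z ≥ z0`. Take
`s = 4 b + 14`: `(z+1) R ≤ 2 z^(4b+11) ≤ 2 Y/z^3 ≤ η Y/z ≤ η Y V` for `z ≥ z0`. -/
def T_FL : Prop := ∀ δ : ℝ, 0 < δ → ∃ s z0 : ℕ, 1 ≤ s ∧ ∀ (bad : ℕ → ℕ → Prop), Per bad →
  ∀ (P : Finset ℕ) (z X Y : ℕ), z0 ≤ z → z ^ s ≤ Y →
  (∀ p ∈ P, p.Prime ∧ 7 ≤ p ∧ p ≤ z ∧ rho bad p ≤ 2) →
  |∑ n ∈ Ioc X (X + Y), xx bad P n - Y * ∏ p ∈ P, (1 - (rho bad p : ℝ) / p)| ≤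
    δ * (Y * ∏ p ∈ P, (1 - (rho bad p : ℝ) / p))

/-! ## Part 3: the second moment -/

/-- RH1. PROOF. `p ∣ (κ + M j) A + 1` depends only on `j` modulo `p`; for `p ∤ M A` the map
`j ↦ (κ + M j) A + 1` is a bijection of `ZMod p`, so exactly one `j < p` is bad. -/
def T_RH1 : Prop := ∀ κ M A : ℕ, Per (fun p j => p ∣ (κ + M * j) * A + 1) ∧
  ∀ p : ℕ, p.Prime → ¬ p ∣ M * A → rho (fun p j => p ∣ (κ + M * j) * A + 1) p = 1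

/-- RH2 (`theorem p_RH2 (h : T_RH1) : T_RH2`). PROOF. The set of the bad `j < p` is the union of two
one-element sets `{j₁}`, `{j₂}` (T_RH1 with `A = 2^n` and `A = 2^(n+d)`). `j₁ = j₂` iff some `j` has
`(κ + M j) 2^n ≡ -1 ≡ (κ + M j) 2^(n+d)`, and then `2^d ≡ 1 (mod p)`; conversely, if
`2^d ≡ 1 (mod p)` the two conditions are the same. -/
def T_RH2 : Prop := ∀ κ M n d : ℕ,
  Per (fun p j => p ∣ (κ + M * j) * 2 ^ n + 1 ∨ p ∣ (κ + M * j) * 2 ^ (n + d) + 1) ∧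
  ∀ p : ℕ, p.Prime → ¬ p ∣ 2 * M →
    rho (fun p j => p ∣ (κ + M * j) * 2 ^ n + 1 ∨ p ∣ (κ + M * j) * 2 ^ (n + d) + 1) p =
      if p ∣ 2 ^ d - 1 then 1 else 2

/-- PR2. PROOF. Factor by factor: `1 - 2/p ≤ (1 - 1/p)^2`, and
`1 - 1/p = (1 - 1/p)^2 (1 + 1/(p-1))`. -/
def T_PR2 : Prop := ∀ (S : Finset ℕ) (N : ℕ), (∀ p ∈ S, p.Prime ∧ 3 ≤ p) →
  ∏ p ∈ S, (1 - ((if p ∣ N then 1 else 2 : ℕ) : ℝ) / p) ≤
    (∏ p ∈ S, (1 - 1 / (p : ℝ))) ^ 2 * ∏ p ∈ S.filter (fun p => p ∣ N), (1 + 1 / ((p : ℝ) - 1))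

open Classical in
/-- MOM (`theorem p_MOM (h1 : T_GSM) (h2 : T_SH) (h3 : T_FL) (h4 : T_RH1) (h5 : T_RH2)
(h6 : T_PR2) : T_MOM`). PROOF. Let `ε ≤ 1`, `δ = ε/16`; `L` from T_GSM with `g = δ` (`60 ∣ L`, so
`15 ∣ 2^4 - 1 ∣ 2^L - 1` and all primes of `PS L z` are `≥ 7`), `s, z0` from T_FL with `δ` (and
`z0 ≥ 1`, so `Y ≥ 1`), `B = 16/ε`. Let `V = VV L z > 0`, `S = PS L z`, `M = MM L`,
`R j = #{t < T : Gd L z a (κ + M j) t}` and sums over `j ∈ Ioc 0 Y`.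
First moment: for every `t`, T_FL with `bad p j := p ∣ (κ + M j) 2^(a+L t) + 1` (T_RH1, `ρ = 1` for
`p ∈ S` because `p ∤ M`) gives `#{j : Gd} ≥ (1-δ) Y V`, so `∑ R ≥ (1-δ) T Y V`, and `≤ (1+δ) Y V`
for one `t`. Second moment: for `t = t' + h`, `h ≥ 1`, T_FL with the `bad` of T_RH2
(`n = a + L t'`, `d = L h`) and T_PR2: the number of the `j` for which both are good is
`≤ (1+δ) Y V² F h`, `F h = ∏_{p ∈ S, p ∣ 2^(L h) - 1} (1 + 1/(p-1))`. For fixed `t` the sum over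
`t' < t` is `(1+δ) Y V² ∑_{h ≤ t} F h ≤ (1+δ) Y V² t (1+δ)` (T_SH). So
`∑ R² ≤ (1+δ) Y (T V + (1+δ) V² T²) ≤ (1+δ) Y V² T² (1 + 2 δ)` since `T V ≥ B = 1/δ`.
Cauchy-Schwarz: `(∑ R)² ≤ #{R ≠ 0} ∑ R²`, so
`#{R ≠ 0} ≥ Y (1-δ)²/((1+δ)(1+2δ)) ≥ Y (1 - 16 δ)`. (`T ≥ 1` as `T V ≥ B > 0`.) -/
def T_MOM : Prop := ∀ ε : ℝ, 0 < ε → ∃ (L s z0 : ℕ) (B : ℝ), 1 ≤ L ∧ 1 ≤ s ∧ 0 < B ∧
  ∀ z Y T κ a : ℕ, z0 ≤ z → z ^ s ≤ Y → B ≤ T * VV L z →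
    (((Ioc 0 Y).filter fun j => ∀ t < T, ¬ Gd L z a (κ + MM L * j) t).card : ℝ) ≤ ε * Y

/-! ## Part 4: assembly -/

/-- GAP. The almost primes. PROOF. Let `n = a + L t ≥ 1`, `N = k 2^n + 1`. Let `p` be a prime
divisor of `N`. `p ≠ 2` (`n ≥ 1`, `N` is odd). If `p ∣ 2^L - 1` then `2^n ≡ 2^a (mod p)`, so
`p ∣ k 2^a + 1`, against the coprimality. So `p ∤ 2 (2^L - 1)`, and `p ≤ z` would give
`p ∈ PS L z`, against `Gd`. Hence `p ≥ z + 1 > k^c`. The number `l` of the prime factors (with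
multiplicity) satisfies `(z+1)^l ≤ N` (`Nat.prod_primeFactorsList`), `N ≤ 2 k 2^n`, so
`l log (z+1) ≤ log (2 k 2^n) ≤ r log (z+1)`. -/
def T_GAP : Prop := ∀ (L z a k t r : ℕ) (c : ℝ), 1 ≤ L → 1 ≤ a → 1 ≤ k → 1 ≤ z →
  Nat.Coprime (k * 2 ^ a + 1) (2 ^ L - 1) → Gd L z a k t → (k : ℝ) ^ c < z + 1 →
  Real.log (2 * k) + (a + L * t) * Real.log 2 ≤ r * Real.log (z + 1) → AlmostPrime c r k

/-- MAIN (`theorem p_MAIN (h1 : T_MOM) (h2 : T_VLO) (h3 : T_GAP) : T_MAIN`). PROOF. T_MOM with `ε/4`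
gives `L, s, z0, B`; `C` from T_VLO; `M = MM L`. For large `x` put `z = ⌊x^(1/(2s))⌋₊`, so
`z^s ≤ x^(1/2) ≤ Y := x/M + 1`, `x^(1/(2s)) < z + 1`, `log z ≤ log x/(2 s)`, and
`T = ⌈B C log z⌉₊`, so `T * VV L z ≥ B` (the primes of `PS L z` are `≥ 3`). `c = 1/(2 s)`.
`r` a natural number with `log (2 x) + (L + L T) log 2 ≤ r log x/(2 s)` for all large `x` (possible
as `T ≤ B C log x/(2 s) + 1`); `log (z+1) ≥ log x/(2s)`. Let `k ≤ x` be odd, `Opn L k`, not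
`AlmostPrime c r k`, `k ≥ M`; `κ = k % M`, `j = k / M`, `1 ≤ j ≤ Y`. Choose for every `κ < M` with
`Opn L κ` an `a ≤ L` as in `Opn`; as `k ≡ κ (mod 2^L - 1)`, `k 2^a + 1` is coprime to `2^L - 1`. By
T_GAP `¬ Gd L z a k t` for all `t < T` (`k^c ≤ x^c < z + 1`). So for every `κ` there are at most
`(ε/4) Y` such `j`, together at most `M + M (ε/4)(x/M + 1) ≤ ε x` for large `x`. -/
def T_MAIN : Prop := ∀ ε : ℝ, 0 < ε → ∃ (L r : ℕ) (c : ℝ), 1 ≤ L ∧ 0 < c ∧ ∃ x0 : ℕ, ∀ x ≥ x0,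
  cnt (fun k => Odd k ∧ Opn L k ∧ ¬ AlmostPrime c r k) x ≤ ε * x

/-- OPC. PROOF. Let `n ≥ 1` and `a ∈ {1, …, L}`, `a ≡ n (mod L)`. `k 2^a + 1` and `2^L - 1` have a
common prime factor `p`, `2^L ≡ 1 (mod p)`, so `k 2^n + 1 ≡ k 2^a + 1 ≡ 0 (mod p)`. -/
def T_OPC : Prop := ∀ L k : ℕ, 1 ≤ L → ¬ Opn L k → ∀ n : ℕ, 1 ≤ n →
  ∃ p : ℕ, p.Prime ∧ p ∣ 2 ^ L - 1 ∧ p ∣ k * 2 ^ n + 1

/-- DEN. PROOF. The property `Odd k ∧ Opn L k` depends only on `k` modulo `M = MM L` (`2 ∣ M`,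
`2^L - 1 ∣ M`), so the number of the `k ≤ x` with it lies between `⌊(x+1)/M⌋` and
`⌊(x+1)/M⌋ + 1` times the number of the residues. -/
def T_DEN : Prop := ∀ L : ℕ, 1 ≤ L → ∀ x : ℕ,
  |cnt (fun k => Odd k ∧ Opn L k) x - dens L * x| ≤ MM L + 1

/-- FIN (`theorem p_FIN (h1 : T_MAIN) (h2 : T_OPC) (h3 : T_DEN) : T_FIN`). PROOF. First part:
`¬ Covered k` implies `Opn L k` (T_OPC: otherwise the primes dividing `2^L - 1` cover `k`), so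
T_MAIN gives it. Let `K = inf_{L ≥ 1} dens L` (`sInf` of the image; `dens L ∈ [0,1]`).
(a) `cnt (Odd ∧ NoSmall c) x ≤ cnt (Odd ∧ Opn L) x + (2^L)^(1/c) + 1` for every `L`, `c > 0`: if
`¬ Opn L k` then (T_OPC) for every `n ≥ 1` some prime `p ≤ 2^L` divides `k 2^n + 1`, so
`NoSmall c k` implies `k^c < 2^L`. (b) `AlmostPrime c r k` implies `NoSmall c' k` for `c' ≤ c`,
`k ≥ 1`; so with `L, r, c` from T_MAIN for `ε/2`: `cnt (Odd ∧ NoSmall c') x ≥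
cnt (Odd ∧ Opn L) x - (ε/2) x ≥ K x - (ε/2) x - MM L - 1`. (c) `HasPrime k` implies
`NoSmall (1/2) k` (the prime is `> k ≥ k^(1/2)`); so (a) with `c = 1/2` gives the last part. In (a)
choose `L` with `dens L ≤ K + ε/2`. -/
def T_FIN : Prop :=
  (∀ ε : ℝ, 0 < ε → ∃ (c : ℝ) (r : ℕ), 0 < c ∧ ∃ x0 : ℕ, ∀ x ≥ x0,
    cnt (fun k => Odd k ∧ ¬ Covered k ∧ ¬ AlmostPrime c r k) x ≤ ε * x) ∧
  ∃ K : ℝ, (∀ L : ℕ, 1 ≤ L → K ≤ dens L) ∧ (∀ K' : ℝ, (∀ L : ℕ, 1 ≤ L → K' ≤ dens L) → K' ≤ K) ∧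
    (∀ ε : ℝ, 0 < ε → ∃ c0 : ℝ, 0 < c0 ∧ ∀ c : ℝ, 0 < c → c ≤ c0 → ∃ x0 : ℕ, ∀ x ≥ x0,
      |cnt (fun k => Odd k ∧ NoSmall c k) x - K * x| ≤ ε * x) ∧
    ∀ ε : ℝ, 0 < ε → ∃ x0 : ℕ, ∀ x ≥ x0, cnt (fun k => Odd k ∧ HasPrime k) x ≤ (K + ε) * x

/-! ## Part 5: positivity of the constant -/

/-- BG1 (`theorem p_BG1 (h : T_GSM) : T_BG1`). PROOF. `L₀` from T_GSM with `ε = 1`. For a finite set
`S` of odd primes let `S₁` be the primes of `S` dividing `2^L₀ - 1`, `S₂` the others. Every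
`d ∣ ∏ S` is `d = d₁ d₂`, `φ(d) = φ(d₁) φ(d₂)`, and `ord_d(2) ≥ ord_{d₂}(2) ≥ ord_{d₂}(2^L₀)`. So
`GS 1 S + 1 = ∑_{d ∣ ∏ S} 1/(φ(d) od 1 d) ≤ ∑_{d₁ ∣ 2^L₀ - 1} 1/φ(d₁) * (1 + GS L₀ S₂) ≤ 2^(L₀+1)`
(`1/φ ≤ 1`, at most `2^L₀` divisors). -/
def T_BG1 : Prop := ∃ g : ℝ, 0 < g ∧ BG 1 g

/-- POS (`theorem p_POS (h1 : T_BG1) (h2 : T_SH) (h3 : T_RH2) (h4 : T_PR2) : T_POS`). PROOF. Let
`S` be the set of the primes dividing `2^L - 1` (odd, `≥ 3`), `Q = ∏ S`, `V = ∏_S (1 - 1/p)`, and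
for `k < Q` let `R k = #{a ∈ Icc 1 L : k 2^a + 1 coprime to Q}`. Exact counts modulo `Q` (CRT,
`Pool.Agent.TSP.card_period` applied to the complementary condition, with `κ = 0`, `M = 1`):
`∑_k R = L Q V`; for `a < a'` the number of the `k` for which both are good is
`Q ∏_S (1 - ρ/p)`, `ρ = 1` if `p ∣ 2^(a'-a) - 1`, else `2`, `≤ Q V² F(a'-a)` (T_PR2). So
`∑ R² ≤ L Q V + Q V² L² (1+g)` (T_SH with `L = 1`). Cauchy-Schwarz: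
`#{k : R k > 0} ≥ Q L² V²/(L V + (1+g) L² V²) = Q/(1/(L V) + 1 + g)`, and `L V ≥ 1/4`: hence the
density of the `k` with `Opn L k` is at least `1/(5+g)`; among the odd `k` the same (`Q` is odd), so
`dens L ≥ 1/(2 (5+g))`. (`L V ≥ 1/4`: `2^|S| ≤ ∏ S ≤ 2^L`, so `|S| ≤ L`, and
`V ≥ ∏_{i=1}^{|S|} (1 - 1/(i+1)) = 1/(|S|+1) ≥ 1/(L+1)` because the `i`-th element of `S` is
`≥ i + 1`.) -/
def T_POS : Prop := ∃ c : ℝ, 0 < c ∧ ∀ L : ℕ, 1 ≤ L → c ≤ dens L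

end Pool.Agent.SPA
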